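import Pool.Agent.V7H95.Bgt.Mean

/-!
# The constant of Cooper and Frieze
-/

namespace Pool.Agent.V7H95.Bgt

open Finset MeasureTheory ProbabilityTheory Filter Topology
open scoped ENNReal Nat

set_option autoImplicit false

/-- the inner sums -/
theorem inner_le (k : ℕ) : ∀ i : ℕ, ∑ j ∈ range k, ((i + j).choose i : ℝ) / 2 ^ (i + j) ≤
    ∑ j ∈ range k, (1 : ℝ) / 2 ^ j := by
  intro i
  induction i with
  | zero => simp
  | succ i ih =>
    have h1 : ∑ j ∈ range k, ((i + 1 + j).choose (i + 1) : ℝ) / 2 ^ (i + 1 + j) =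
        1 / 2 * ∑ j ∈ range k, ((i + j).choose i : ℝ) / 2 ^ (i + j) +
        1 / 2 * ∑ j ∈ range k, ((i + j).choose (i + 1) : ℝ) / 2 ^ (i + j) := by
      rw [← mul_add, ← Finset.sum_add_distrib, Finset.mul_sum]
      refine Finset.sum_congr rfl fun j _ => ?_
      have h2 : i + 1 + j = (i + j) + 1 := by ring
      rw [h2, Nat.choose_succ_succ, pow_succ]
      push_cast
      field_simp
    have h3 : ∑ j ∈ range k, ((i + j).choose (i + 1) : ℝ) / 2 ^ (i + j) ≤
        ∑ j ∈ range k, ((i + 1 + j).choose (i + 1) : ℝ) / 2 ^ (i + 1 + j) := by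
      rcases k with _ | k
      · simp
      · rw [Finset.sum_range_succ' _ k, Finset.sum_range_succ _ k]
        simp only [add_zero, Nat.choose_succ_self, Nat.cast_zero, zero_div]
        have h4 : ∑ j ∈ range k, ((i + (j + 1)).choose (i + 1) : ℝ) / 2 ^ (i + (j + 1)) =
            ∑ j ∈ range k, ((i + 1 + j).choose (i + 1) : ℝ) / 2 ^ (i + 1 + j) := by
          refine Finset.sum_congr rfl fun j _ => ?_
          have h5 : i + (j + 1) = i + 1 + j := by ring
          rw [h5]
        have : (0 : ℝ) ≤ ((i + 1 + k).choose (i + 1) : ℝ) / 2 ^ (i + 1 + k) := by positivity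
        linarith
    linarith

theorem sum_half (k : ℕ) : ∑ j ∈ range k, (1 : ℝ) / 2 ^ j = 2 - 2 / 2 ^ k := by
  induction k with
  | zero => simp
  | succ k ih =>
    rw [Finset.sum_range_succ, ih, pow_succ]
    field_simp
    ring

theorem oConst_gt {k : ℕ} (hk : 1 ≤ k) : (k : ℝ) / 2 < oConst k := by
  unfold oConst
  have h1 : ∑ i ∈ range k, ∑ j ∈ range k, ((i + j).choose i : ℝ) / 2 ^ (i + j) ≤
      k * (2 - 2 / 2 ^ k) := by
    refine (Finset.sum_le_sum fun i _ => (inner_le k i).trans_eq (sum_half k)).trans ?_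
    rw [Finset.sum_const, Finset.card_range, nsmul_eq_mul]
  have h2 : (0 : ℝ) < 2 / 2 ^ k := by positivity
  have h3 : (0 : ℝ) < k := by exact_mod_cast hk
  nlinarith

theorem oConst_lt {k : ℕ} (hk : 1 ≤ k) : oConst k < k := by
  unfold oConst
  have h1 : (0 : ℝ) < ∑ i ∈ range k, ∑ j ∈ range k, ((i + j).choose i : ℝ) / 2 ^ (i + j) := by
    have hne : (range k).Nonempty := ⟨0, Finset.mem_range.2 hk⟩
    refine Finset.sum_pos (fun i _ => Finset.sum_pos (fun j _ => ?_) hne) hne
    have : 0 < (i + j).choose i := Nat.choose_pos (by omega)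
    positivity
  linarith

theorem prob_le_one (n : ℕ) (A : Ordering n → Prop) : prob n A ≤ 1 := by
  classical
  have : Fintype (Ordering n) := Fintype.ofFinite _
  unfold prob
  refine div_le_one_of_le₀ ?_ (Nat.cast_nonneg _)
  rw [Nat.card_eq_fintype_card, Nat.card_eq_fintype_card]
  exact_mod_cast Fintype.card_subtype_le _

/-- the law of large numbers for the nearest neighbour graph -/
theorem near_lln_prob (k : ℕ) {ε : ℝ} (hε : 0 < ε) :
    Tendsto (fun n : ℕ => prob n (fun σ => |((near k σ).card : ℝ) - oConst k * n| < ε * n))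
      atTop (𝓝 1) := by
  have h1 := (tendsto_const_nhds (x := (1 : ℝ)) (f := (atTop : Filter ℕ))).sub (near_lln k hε)
  rw [sub_zero] at h1
  refine tendsto_of_tendsto_of_tendsto_of_le_of_le h1 tendsto_const_nhds ?_
    (fun n => prob_le_one n _)
  intro n
  have h2 := bridge n (fun σ => |((near k σ).card : ℝ) - oConst k * n| < ε * n)
    {U | ε * n ≤ |((nearU k U).card : ℝ) - oConst k * n|}ᶜ (by
      intro σ U hU hE
      rw [near_eq k hU]
      exact not_le.1 hE)
  refine le_trans (le_of_eq ?_) h2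
  rw [probReal_compl_eq_one_sub]
  refine measurableSet_le measurable_const ?_
  exact ((meas_near_card k n).sub_const _).abs

end Pool.Agent.V7H95.Bgt
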