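import Pool.Agent.V7H95.Bgt.Defs

/-!
# Independent uniform labels and the uniformly random ordering
-/

namespace Pool.Agent.V7H95.Bgt

open Finset MeasureTheory ProbabilityTheory
open scoped ENNReal

set_option autoImplicit false

variable {n : ℕ}

/-- the uniform distribution on `[0,1]` -/
noncomputable def nu : Measure ℝ := volume.restrict (Set.Icc 0 1)

instance : IsProbabilityMeasure nu := by
  constructor
  rw [nu, Measure.restrict_apply_univ, Real.volume_Icc]
  simp

instance : NullSingletonClass nu := by
  unfold nu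
  infer_instance

/-- the law of the labels -/
noncomputable def mu (n : ℕ) : Measure (Edge n → ℝ) := Measure.pi fun _ => nu

instance (n : ℕ) : IsProbabilityMeasure (mu n) := by
  unfold mu
  infer_instance

theorem indep_coord (n : ℕ) : iIndepFun (fun (e : Edge n) (U : Edge n → ℝ) => U e) (mu n) := by
  have := iIndepFun_pi (μ := fun _ : Edge n => nu) (X := fun _ => id) (by
    intro i
    exact measurable_id.aemeasurable)
  exact this

theorem map_coord (e : Edge n) : (mu n).map (fun U => U e) = nu :=
  (measurePreserving_eval (fun _ : Edge n => nu) e).map_eq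

theorem ae_inj (n : ℕ) : ∀ᵐ U ∂(mu n), Function.Injective U := by
  have h1 : ∀ i j : Edge n, i ≠ j → ∀ᵐ U ∂(mu n), U i ≠ U j := by
    intro i j hij
    have hm : MeasurableSet {p : ℝ × ℝ | p.1 = p.2} :=
      measurableSet_eq_fun measurable_fst measurable_snd
    have h2 : (nu.prod nu) {p : ℝ × ℝ | p.1 = p.2} = 0 := by
      rw [Measure.measure_prod_null hm]
      filter_upwards with x
      have : Prod.mk x ⁻¹' {p : ℝ × ℝ | p.1 = p.2} = {x} := by
        ext y
        simp [eq_comm]
      rw [this]
      simp
    have h3 := (indepFun_iff_map_prod_eq_prod_map_map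
      (measurable_pi_apply i).aemeasurable (measurable_pi_apply j).aemeasurable).1
      ((indep_coord n).indepFun hij)
    rw [map_coord, map_coord] at h3
    rw [← h3, Measure.map_apply (by fun_prop) hm] at h2
    rw [ae_iff]
    simpa using h2
  have h2 : ∀ᵐ U ∂(mu n), ∀ i j : Edge n, i ≠ j → U i ≠ U j := by
    rw [ae_all_iff]; intro i
    rw [ae_all_iff]; intro j
    by_cases hij : i = j
    · exact ae_of_all _ fun u h => absurd hij h
    · filter_upwards [h1 i j hij] with u hu _ using hu
  filter_upwards [h2] with u hu i j h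
  by_contra hcon
  exact hu i j hcon h

theorem meas_strictMono (N : ℕ) : MeasurableSet {x : Fin N → ℝ | StrictMono x} := by
  have : {x : Fin N → ℝ | StrictMono x} =
      ⋂ (i : Fin N) (j : Fin N) (_ : i < j), {x | x i < x j} := by
    ext x
    simp only [Set.mem_ofPred_eq, Set.mem_iInter]
    constructor
    · intro h i j hij
      exact h hij
    · intro h i j hij
      exact h i j hij
  rw [this]
  exact MeasurableSet.iInter fun i => MeasurableSet.iInter fun j => MeasurableSet.iInter fun _ =>
    measurableSet_lt (measurable_pi_apply i) (measurable_pi_apply j)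

theorem ord_unique (σ τ : Ordering n) (U : Edge n → ℝ)
    (h1 : StrictMono (U ∘ σ)) (h2 : StrictMono (U ∘ τ)) : σ = τ := by
  have h3 : U ∘ σ = U ∘ τ := by
    rw [← StrictMono.range_inj h1 h2, Set.range_comp, Set.range_comp, σ.surjective.range_eq,
      τ.surjective.range_eq]
  have hinj : Function.Injective U := by
    intro a b hab
    have := h1.injective (a₁ := σ.symm a) (a₂ := σ.symm b) (by simpa using hab)
    exact σ.symm.injective this
  ext i : 1
  exact hinj (congrFun h3 i)

theorem exists_ordering (n : ℕ) : Nonempty (Ordering n) := by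
  classical
  have : Fintype.card (Edge n) = n.choose 2 := by
    rw [Sym2.card_subtype_not_diag, Fintype.card_fin]
  exact ⟨(Fintype.equivFinOfCardEq this).symm⟩

theorem exists_sort (U : Edge n → ℝ) (hU : Function.Injective U) :
    ∃ σ : Ordering n, StrictMono (U ∘ σ) := by
  obtain ⟨σ0⟩ := exists_ordering n
  refine ⟨(Tuple.sort (U ∘ σ0)).trans σ0, ?_⟩
  have h1 := Tuple.monotone_sort (U ∘ σ0)
  exact h1.strictMono_of_injective
    ((hU.comp σ0.injective).comp (Tuple.sort (U ∘ σ0)).injective)

theorem mp_comp (σ : Ordering n) : MeasurePreserving (fun U : Edge n → ℝ => U ∘ σ) (mu n)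
    (Measure.pi fun _ : Fin (n.choose 2) => nu) :=
  measurePreserving_arrowCongr' (fun _ : Edge n => nu) (fun _ : Fin (n.choose 2) => nu) σ.symm
    (MeasurableEquiv.refl ℝ) (fun _ => MeasurePreserving.id nu)

/-- the cell of an ordering -/
def cell (σ : Ordering n) : Set (Edge n → ℝ) := {U | StrictMono (U ∘ σ)}

theorem meas_cell (σ : Ordering n) : MeasurableSet (cell σ) :=
  (mp_comp σ).measurable (meas_strictMono _)

theorem mu_cell (σ : Ordering n) : (mu n) (cell σ) =
    (Measure.pi fun _ : Fin (n.choose 2) => nu) {x | StrictMono x} := by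
  rw [← (mp_comp σ).measure_preimage (meas_strictMono _).nullMeasurableSet]
  rfl

instance (n : ℕ) : Finite (Ordering n) := by
  classical
  infer_instance

theorem card_mul (σ : Ordering n) : (Nat.card (Ordering n) : ℝ≥0∞) * (mu n) (cell σ) = 1 := by
  classical
  have : Fintype (Ordering n) := Fintype.ofFinite _
  have h1 : (mu n) (⋃ τ : Ordering n, cell τ) = 1 := by
    rw [← measure_univ (μ := mu n)]
    refine measure_congr ?_
    filter_upwards [ae_inj n] with U hU
    obtain ⟨σ, hσ⟩ := exists_sort U hU
    apply propext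
    refine ⟨fun _ => trivial, fun _ => ?_⟩
    exact Set.mem_iUnion.2 ⟨σ, hσ⟩
  rw [measure_iUnion _ meas_cell, tsum_fintype] at h1
  · simp only [mu_cell] at h1
    rw [Finset.sum_const, Finset.card_univ, nsmul_eq_mul] at h1
    rw [mu_cell, Nat.card_eq_fintype_card]
    exact h1
  · intro σ τ h
    rw [Function.onFun, Set.disjoint_left]
    intro U h1 h2
    exact h (ord_unique σ τ U h1 h2)

/-- from labels to orderings -/
theorem bridge (n : ℕ) (A : Ordering n → Prop) (E : Set (Edge n → ℝ))
    (h : ∀ (σ : Ordering n) (U : Edge n → ℝ), StrictMono (U ∘ σ) → U ∈ E → A σ) :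
    (mu n).real E ≤ prob n A := by
  classical
  have : Fintype (Ordering n) := Fintype.ofFinite _
  obtain ⟨σ0⟩ := exists_ordering n
  have h1 : (mu n) E ≤ (mu n) (⋃ τ ∈ (univ.filter fun σ : Ordering n => A σ), cell τ) := by
    refine measure_mono_ae ?_
    filter_upwards [ae_inj n] with U hU hUE
    obtain ⟨σ, hσ⟩ := exists_sort U hU
    refine Set.mem_iUnion₂.2 ⟨σ, ?_, hσ⟩
    rw [Finset.mem_filter]
    exact ⟨Finset.mem_univ _, h σ U hσ hUE⟩
  have h2 := h1.trans (measure_biUnion_finset_le _ _)
  simp only [mu_cell] at h2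
  rw [Finset.sum_const, nsmul_eq_mul, ← mu_cell σ0] at h2
  have h3 := card_mul σ0
  have hc : (Nat.card (Ordering n) : ℝ) * ((mu n) (cell σ0)).toReal = 1 := by
    have := congrArg ENNReal.toReal h3
    rw [ENNReal.toReal_mul] at this
    simpa using this
  have hpos : (0 : ℝ) < Nat.card (Ordering n) := by
    rw [Nat.cast_pos]
    have : Nonempty (Ordering n) := ⟨σ0⟩
    exact Nat.card_pos
  have h4 : (mu n).real E ≤ ((univ.filter fun σ : Ordering n => A σ).card : ℝ) *
      ((mu n) (cell σ0)).toReal := by
    rw [Measure.real]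
    have := ENNReal.toReal_mono (ENNReal.mul_ne_top (ENNReal.natCast_ne_top _)
      (measure_ne_top _ _)) h2
    rw [ENNReal.toReal_mul] at this
    simpa using this
  have h5 : (Nat.card {σ : Ordering n // A σ} : ℝ)
      = ((univ.filter fun σ : Ordering n => A σ).card : ℝ) := by
    rw [Nat.card_eq_fintype_card, Fintype.card_subtype]
  unfold prob
  rw [h5, le_div_iff₀ hpos]
  calc (mu n).real E * (Nat.card (Ordering n) : ℝ)
      ≤ (((univ.filter fun σ : Ordering n => A σ).card : ℝ) *
      ((mu n) (cell σ0)).toReal) * (Nat.card (Ordering n) : ℝ) :=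
        mul_le_mul_of_nonneg_right h4 hpos.le
    _ = ((univ.filter fun σ : Ordering n => A σ).card : ℝ) *
        ((Nat.card (Ordering n) : ℝ) * ((mu n) (cell σ0)).toReal) := by ring
    _ = _ := by rw [hc, mul_one]

end Pool.Agent.V7H95.Bgt
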