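import Pool.Agent.V7H95.Bgt.Conc

/-!
# The numbers of low edges, of isolated edges and of double stars
-/

namespace Pool.Agent.V7H95.Bgt

open Finset MeasureTheory ProbabilityTheory
open scoped ENNReal

set_option autoImplicit false

variable {n : ℕ}

theorem box_prob {τ : Type*} [Fintype τ] (f : τ → Edge n) (hf : Function.Injective f)
    (J : τ → Set ℝ) (hJ : ∀ t, MeasurableSet (J t)) (F' : Finset (Edge n)) (hd : ∀ t, f t ∉ F')
    {p : ℝ} (h0 : 0 ≤ p) (h1 : p ≤ 1) :
    (mu n).real {U | (∀ t, U (f t) ∈ J t) ∧ ∀ e ∈ F', p < U e} =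
      (∏ t, nu.real (J t)) * (1 - p) ^ F'.card := by
  classical
  set s : Edge n → Set ℝ := Function.extend f J (fun _ => Set.Ioi p) with hs
  have hs1 : ∀ t, s (f t) = J t := fun t => hf.extend_apply J _ t
  have hs2 : ∀ e ∈ F', s e = Set.Ioi p := by
    intro e he
    rw [hs, Function.extend_apply']
    rintro ⟨t, rfl⟩
    exact hd t he
  have hsm : ∀ e, MeasurableSet (s e) := by
    intro e
    by_cases h : ∃ t, f t = e
    · obtain ⟨t, rfl⟩ := h
      rw [hs1]
      exact hJ t
    · rw [hs, Function.extend_apply' _ _ _ h]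
      exact measurableSet_Ioi
  have key := (indep_coord n).measure_inter_preimage_eq_mul (univ.image f ∪ F') (sets := s)
    (fun e _ => hsm e)
  have hset : (⋂ i ∈ univ.image f ∪ F', (fun U : Edge n → ℝ => U i) ⁻¹' s i)
      = {U | (∀ t, U (f t) ∈ J t) ∧ ∀ e ∈ F', p < U e} := by
    ext U
    simp only [Set.mem_iInter, Set.mem_preimage, Finset.mem_union, Finset.mem_image,
      Finset.mem_univ, true_and, Set.mem_ofPred_eq]
    constructor
    · intro h
      refine ⟨fun t => ?_, fun e he => ?_⟩
      · rw [← hs1]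
        exact h _ (Or.inl ⟨t, rfl⟩)
      · have := h e (Or.inr he)
        rw [hs2 e he] at this
        exact this
    · rintro ⟨h2, h3⟩ i (⟨t, rfl⟩ | hi)
      · rw [hs1]
        exact h2 t
      · rw [hs2 i hi]
        exact h3 i hi
  rw [hset] at key
  have hr : ∀ e, ((mu n) ((fun U : Edge n → ℝ => U e) ⁻¹' s e)).toReal = nu.real (s e) := by
    intro e
    exact mu_coord e (hsm e)
  have key2 := congrArg ENNReal.toReal key
  rw [ENNReal.toReal_prod] at key2
  simp only [hr] at key2
  have hdis : Disjoint (univ.image f) F' := by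
    rw [Finset.disjoint_left]
    intro e he he'
    rw [Finset.mem_image] at he
    obtain ⟨t, _, rfl⟩ := he
    exact hd t he'
  rw [Finset.prod_union hdis, Finset.prod_image (fun x _ y _ h => hf h)] at key2
  rw [Measure.real, key2]
  congr 1
  · exact Finset.prod_congr rfl fun t _ => by rw [hs1]
  · rw [Finset.prod_congr rfl fun e he => by rw [hs2 e he, nu_Ioi h0 h1], Finset.prod_const]

open Classical in
/-- the number of the edges with a label at most `p` -/
theorem low_conc (n : ℕ) {p : ℝ} (h0 : 0 ≤ p) (h1 : p < 1) {t : ℝ} (ht : 0 < t) :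
    (mu n).real {U | t ≤ |((low U p).card : ℝ) - Fintype.card (Edge n) * p|} ≤
      (Fintype.card (Edge n) * p) / t ^ 2 := by
  have hPm : ∀ s : Edge n, MeasurableSet {U : Edge n → ℝ | U s ≤ p} := fun s =>
    measurable_pi_apply s measurableSet_Iic
  have hm := meas_count (fun (U : Edge n → ℝ) (e : Edge n) => U e ≤ p) hPm
  have hi := int_count (fun (U : Edge n → ℝ) (e : Edge n) => U e ≤ p) hPm
  have hp : ∀ e : Edge n, (mu n).real {U | U e ≤ p} = p := fun e => by
    have := mu_coord e (A := Set.Iic p) measurableSet_Iic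
    rw [nu_Iic h0 h1.le] at this
    exact this
  simp only [hp] at hi
  rw [Finset.sum_const, Finset.card_univ, nsmul_eq_mul] at hi
  have hdiff : ∀ (e : Edge n) (U : Edge n → ℝ), |((univ.filter fun s => U s ≤ p).card : ℝ) -
      ((univ.filter fun s => (Function.update U e 1) s ≤ p).card : ℝ)| ≤ 1 := by
    intro e U
    have h2 : (univ.filter fun s => (Function.update U e 1) s ≤ p)
        = (univ.filter fun s => U s ≤ p).erase e := by
      ext s
      simp only [Finset.mem_filter, Finset.mem_univ, true_and, Finset.mem_erase]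
      by_cases hs : s = e
      · subst hs
        simp only [Function.update_self, ne_eq, not_true_eq_false, false_and, iff_false, not_le]
        exact h1
      · rw [Function.update_of_ne hs]
        exact ⟨fun h => ⟨hs, h⟩, fun h => h.2⟩
    rw [h2]
    have h3 : (univ.filter fun s => U s ≤ p).card ≤
        ((univ.filter fun s => U s ≤ p).erase e).card + 1 := by
      have := Finset.pred_card_le_card_erase (s := univ.filter fun s => U s ≤ p) (a := e)
      omega
    have h4 : ((univ.filter fun s => U s ≤ p).erase e).card ≤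
        (univ.filter fun s => U s ≤ p).card := Finset.card_erase_le
    rw [abs_le]
    constructor
    · have : (((univ.filter fun s => U s ≤ p).erase e).card : ℝ) ≤
        (univ.filter fun s => U s ≤ p).card := by exact_mod_cast h4
      linarith
    · have : ((univ.filter fun s => U s ≤ p).card : ℝ) ≤
        ((univ.filter fun s => U s ≤ p).erase e).card + 1 := by exact_mod_cast h3
      linarith
  have key := conc n (fun U => ((univ.filter fun s => U s ≤ p).card : ℝ)) hm
    (Fintype.card (Edge n))
    (fun U => by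
      rw [abs_of_nonneg (Nat.cast_nonneg _)]
      exact_mod_cast Finset.card_le_univ _) 1 (fun e => {U | U e ∈ Set.Iic p})
    (fun e => measurable_pi_apply e measurableSet_Iic)
    (fun e U hU => by
      have hU' : p < U e := not_le.1 hU
      congr 2
      ext s
      simp only [Finset.mem_filter, Finset.mem_univ, true_and]
      by_cases hs : s = e
      · subst hs
        simp only [Function.update_self]
        exact ⟨fun h => absurd h (not_le.2 h1), fun h => absurd h (not_le.2 hU')⟩
      · rw [Function.update_of_ne hs])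
    hdiff ht
  rw [hi] at key
  refine key.trans (le_of_eq ?_)
  have : ∀ e : Edge n, (mu n).real {U | U e ∈ Set.Iic p} = p := fun e => hp e
  simp only [this]
  rw [Finset.sum_const, Finset.card_univ, nsmul_eq_mul]
  ring

/-- the number of the edges which touch a set of vertices -/
theorem card_touch_le (n : ℕ) (S : Finset (Fin n)) (F' : Finset (Edge n))
    (h : ∀ e ∈ F', ∃ v ∈ S, v ∈ e.1) : F'.card ≤ S.card * n := by
  classical
  have h1 : F' ⊆ S.biUnion fun v => univ.filter fun e : Edge n => v ∈ e.1 := by
    intro e he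
    obtain ⟨v, hv1, hv2⟩ := h e he
    rw [Finset.mem_biUnion]
    exact ⟨v, hv1, Finset.mem_filter.2 ⟨Finset.mem_univ _, hv2⟩⟩
  refine (Finset.card_le_card h1).trans ?_
  refine (Finset.card_biUnion_le).trans ?_
  calc ∑ v ∈ S, (univ.filter fun e : Edge n => v ∈ e.1).card ≤ ∑ _v ∈ S, n :=
        Finset.sum_le_sum fun v _ => by rw [card_at]; omega
    _ = S.card * n := by rw [Finset.sum_const, smul_eq_mul]

theorem meas_isol (n : ℕ) (p : ℝ) (e : Edge n) : MeasurableSet {U : Edge n → ℝ | Isol U p e} := by
  have : {U : Edge n → ℝ | Isol U p e} = {U | U e ≤ p} ∩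
      ⋂ (e' : Edge n) (_ : e' ≠ e) (_ : ∃ v ∈ e.1, v ∈ e'.1), {U | p < U e'} := by
    ext U
    simp only [Isol, Set.mem_ofPred_eq, Set.mem_inter_iff, Set.mem_iInter]
  rw [this]
  refine (measurable_pi_apply e measurableSet_Iic).inter ?_
  exact MeasurableSet.iInter fun e' => MeasurableSet.iInter fun _ => MeasurableSet.iInter fun _ =>
    measurable_pi_apply e' measurableSet_Ioi

/-- the probability that an edge is isolated -/
theorem isol_prob (n : ℕ) {p : ℝ} (h0 : 0 ≤ p) (h1 : p ≤ 1) (e : Edge n) :
    p * (1 - p) ^ (2 * n) ≤ (mu n).real {U | Isol U p e} := by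
  classical
  set F' : Finset (Edge n) := univ.filter fun e' => e' ≠ e ∧ ∃ v ∈ e.1, v ∈ e'.1 with hF'
  have key := box_prob (fun _ : Unit => e) (fun _ _ _ => rfl) (fun _ => Set.Iic p)
    (fun _ => measurableSet_Iic) F' (fun _ h => by
      rw [hF', Finset.mem_filter] at h
      exact h.2.1 rfl) h0 h1
  have hset : {U : Edge n → ℝ | Isol U p e} =
      {U | (∀ _t : Unit, U e ∈ Set.Iic p) ∧ ∀ e' ∈ F', p < U e'} := by
    ext U
    simp only [Isol, Set.mem_ofPred_eq, hF', Finset.mem_filter, Finset.mem_univ, true_and,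
      forall_const, Set.mem_Iic]
    refine and_congr_right fun _ => ?_
    constructor
    · intro h e' he'
      exact h e' he'.1 he'.2
    · intro h e' h2 h3
      exact h e' ⟨h2, h3⟩
  rw [hset, key]
  simp only [Finset.univ_unique, Finset.prod_const, Finset.card_singleton, pow_one]
  rw [nu_Iic h0 h1]
  refine mul_le_mul_of_nonneg_left ?_ h0
  refine pow_le_pow_of_le_one (by linarith) (by linarith) ?_
  have h2 := card_touch_le n (univ.filter fun w : Fin n => w ∈ e.1) F' (by
    intro e' he'
    rw [hF', Finset.mem_filter] at he'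
    obtain ⟨_, _, v, hv1, hv2⟩ := he'
    exact ⟨v, Finset.mem_filter.2 ⟨Finset.mem_univ _, hv1⟩, hv2⟩)
  rwa [card_ends] at h2

open Classical in
theorem isol_conc (n : ℕ) {p : ℝ} (h0 : 0 ≤ p) (h1 : p < 1) {t : ℝ} (ht : 0 < t) :
    (mu n).real {U | ((univ.filter fun e => Isol U p e).card : ℝ) ≤
      Fintype.card (Edge n) * (p * (1 - p) ^ (2 * n)) - t} ≤
      4 * (Fintype.card (Edge n) * p) / t ^ 2 := by
  have key := conc_count n (fun e : Edge n => {v | v ∈ e.1}) (fun U e => Isol U p e)
    (meas_isol n p) h0 h1.le ?_ ?_ ?_ ht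
  · refine le_trans (measureReal_mono ?_) key
    intro U hU
    simp only [Set.mem_ofPred_eq] at hU ⊢
    have h2 : (Fintype.card (Edge n) : ℝ) * (p * (1 - p) ^ (2 * n)) ≤
        ∑ e : Edge n, (mu n).real {U | Isol U p e} := by
      calc (Fintype.card (Edge n) : ℝ) * (p * (1 - p) ^ (2 * n))
          = ∑ _e : Edge n, p * (1 - p) ^ (2 * n) := by
            rw [Finset.sum_const, Finset.card_univ, nsmul_eq_mul]
        _ ≤ _ := Finset.sum_le_sum fun e _ => isol_prob n h0 h1.le e
    rw [abs_sub_comm]
    refine le_trans ?_ (le_abs_self _)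
    linarith
  · intro U e e' he he' v hv hv'
    by_contra hne
    have := he.2 e' (Ne.symm hne) ⟨v, hv, hv'⟩
    linarith [he'.1]
  · intro U e e1 h
    have hne : e ≠ e1 := by
      rintro rfl
      obtain ⟨e0, he0⟩ := e
      induction e0 with
      | _ x y => exact h x (Sym2.mem_mk_left _ _) (Sym2.mem_mk_left _ _)
    unfold Isol
    rw [Function.update_of_ne hne]
    refine and_congr_right fun _ => ?_
    refine forall_congr' fun e' => forall_congr' fun _ => forall_congr' fun h3 => ?_
    have hne' : e' ≠ e1 := by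
      rintro rfl
      obtain ⟨v, hv1, hv2⟩ := h3
      exact h v hv2 hv1
    rw [Function.update_of_ne hne']
  · intro U e e1 h
    unfold Isol
    have h4 : ∀ x : Edge n, Function.update U e1 1 x ≤ p ↔ U x ≤ p := by
      intro x
      by_cases hx : x = e1
      · subst hx
        rw [Function.update_self]
        exact ⟨fun h' => absurd h' (not_le.2 h1), fun h' => absurd h' (not_le.2 h)⟩
      · rw [Function.update_of_ne hx]
    simp only [← not_le, h4]

/-! ### Double stars -/

variable {k : ℕ}

theorem conf_congr {c c' : Edge n → ℕ} {φ : DS k → Fin n}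
    (h : ∀ e : Edge n, (∃ x, φ x ∈ e.1) → c e = c' e) (hc : Conf c φ) : Conf c' φ := by
  refine ⟨hc.inj, ?_, ?_⟩
  · intro e t het
    rw [← h e ?_]
    · exact hc.tree e t het
    · rcases t with _ | ⟨b, i⟩
      · exact ⟨(false, none), by rw [het]; exact Sym2.mem_mk_left _ _⟩
      · exact ⟨(b, none), by rw [het]; exact Sym2.mem_mk_left _ _⟩
  · intro e he ht
    rw [← h e he]
    exact hc.other e he ht

theorem meas_cls (a : ℝ) (e : Edge n) (j : ℕ) : MeasurableSet {U : Edge n → ℝ | cls a U e = j} := by
  have : Measurable (fun U : Edge n → ℝ => cls a U e) := by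
    unfold cls
    refine Measurable.ite (measurable_pi_apply e measurableSet_Iic) measurable_const ?_
    refine Measurable.ite (measurable_pi_apply e measurableSet_Iic) measurable_const ?_
    exact Measurable.ite (measurable_pi_apply e measurableSet_Iic) measurable_const
      measurable_const
  exact this (measurableSet_singleton j)

theorem meas_conf (a : ℝ) (φ : DS k → Fin n) :
    MeasurableSet {U : Edge n → ℝ | Conf (cls a U) φ} := by
  by_cases hi : Function.Injective φ
  · have : {U : Edge n → ℝ | Conf (cls a U) φ} =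
        (⋂ (e : Edge n) (t : Option (Bool × Fin k)) (_ : e.1 = te φ t), {U | cls a U e = ti t}) ∩
        ⋂ (e : Edge n) (_ : ∃ x, φ x ∈ e.1) (_ : ∀ t, e.1 ≠ te φ t), {U | cls a U e = 3} := by
      ext U
      simp only [Set.mem_ofPred_eq, Set.mem_inter_iff, Set.mem_iInter]
      exact ⟨fun h => ⟨h.tree, h.other⟩, fun h => ⟨hi, h.1, h.2⟩⟩
    rw [this]
    refine MeasurableSet.inter ?_ ?_
    · exact MeasurableSet.iInter fun e => MeasurableSet.iInter fun t => MeasurableSet.iInter
        fun _ => meas_cls a e _
    · exact MeasurableSet.iInter fun e => MeasurableSet.iInter fun _ => MeasurableSet.iInter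
        fun _ => meas_cls a e _
  · have : {U : Edge n → ℝ | Conf (cls a U) φ} = ∅ := by
      ext U
      simp only [Set.mem_ofPred_eq, Set.mem_empty_iff_false, iff_false]
      intro h
      exact hi h.inj
    rw [this]
    exact MeasurableSet.empty

theorem meas_valid (a : ℝ) (S : Finset (Fin n)) :
    MeasurableSet {U : Edge n → ℝ | Valid k a U S} := by
  have : {U : Edge n → ℝ | Valid k a U S} = ⋃ (φ : DS k → Fin n)
      (_ : (S : Set (Fin n)) = Set.range φ), {U | Conf (cls a U) φ} := by
    ext U
    simp only [Valid, Set.mem_ofPred_eq, Set.mem_iUnion]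
    constructor
    · rintro ⟨φ, h1, h2⟩
      exact ⟨φ, h2, h1⟩
    · rintro ⟨φ, h2, h1⟩
      exact ⟨φ, h1, h2⟩
  rw [this]
  exact MeasurableSet.iUnion fun φ => MeasurableSet.iUnion fun _ => meas_conf a φ

theorem te_inj {φ : DS k → Fin n} (hi : Function.Injective φ) : Function.Injective (te φ) := by
  intro t t' h
  rcases t with _ | ⟨b, i⟩ <;> rcases t' with _ | ⟨b', i'⟩
  · rfl
  · simp only [te, Sym2.eq_iff, hi.eq_iff, Prod.mk.injEq, reduceCtorEq, and_false, false_and,
      or_self] at h
  · simp only [te, Sym2.eq_iff, hi.eq_iff, Prod.mk.injEq, reduceCtorEq, and_false, false_and,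
      or_self] at h
  · simp only [te, Sym2.eq_iff, hi.eq_iff, Prod.mk.injEq, reduceCtorEq, and_false, false_and,
      or_false, and_true, Option.some.injEq] at h
    rw [h.1, h.2.2]

theorem conf_prob (hn : 0 < n) {a : ℝ} (h0 : 0 ≤ a) (h1 : 3 * a ≤ 1) {φ : DS k → Fin n}
    (hi : Function.Injective φ) :
    a ^ (2 * k + 1) * (1 - 3 * a) ^ ((2 * k + 2) * n) ≤
      (mu n).real {U : Edge n → ℝ | Conf (cls a U) φ} := by
  classical
  set E : Option (Bool × Fin k) → Edge n := fun t => ⟨te φ t, te_not_diag hi t⟩ with hE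
  have hEi : Function.Injective E := by
    intro t t' h
    exact te_inj hi (congrArg Subtype.val h)
  set J : Option (Bool × Fin k) → Set ℝ := fun t =>
    if ti t = 0 then Set.Iic a else if ti t = 1 then Set.Ioc a (2 * a) else
      Set.Ioc (2 * a) (3 * a) with hJ
  have hJm : ∀ t, MeasurableSet (J t) := by
    intro t
    simp only [hJ]
    split_ifs
    · exact measurableSet_Iic
    · exact measurableSet_Ioc
    · exact measurableSet_Ioc
  have hJn : ∀ t, nu.real (J t) = a := by
    intro t
    simp only [hJ]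
    split_ifs
    · exact nu_Iic h0 (by linarith)
    · rw [nu_Ioc h0 (by linarith) (by linarith)]
      ring
    · rw [nu_Ioc (by linarith) (by linarith) (by linarith)]
      ring
  set F' : Finset (Edge n) := univ.filter fun e => (∃ x, φ x ∈ e.1) ∧ ∀ t, e.1 ≠ te φ t with hF'
  have key := box_prob E hEi J hJm F' (fun t h => by
    rw [hF', Finset.mem_filter] at h
    exact h.2.2 t rfl) (p := 3 * a) (by linarith) h1
  have hsub : {U : Edge n → ℝ | (∀ t, U (E t) ∈ J t) ∧ ∀ e ∈ F', 3 * a < U e} ⊆
      {U : Edge n → ℝ | Conf (cls a U) φ} := by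
    rintro U ⟨h2, h3⟩
    refine ⟨hi, ?_, ?_⟩
    · intro e t het
      have he : e = E t := Subtype.ext het
      subst he
      have h4 := h2 t
      have h5 := ti_lt t
      simp only [hJ] at h4
      by_cases hc0 : ti t = 0
      · rw [if_pos hc0] at h4
        rw [hc0]
        unfold cls
        rw [if_pos (Set.mem_Iic.1 h4)]
      · rw [if_neg hc0] at h4
        by_cases hc1 : ti t = 1
        · rw [if_pos hc1] at h4
          rw [hc1]
          unfold cls
          rw [if_neg (not_le.2 h4.1), if_pos h4.2]
        · rw [if_neg hc1] at h4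
          have hc2 : ti t = 2 := by omega
          rw [hc2]
          unfold cls
          rw [if_neg (by have := h4.1; rw [not_le]; linarith), if_neg (not_le.2 h4.1), if_pos h4.2]
    · intro e he ht
      have h4 := h3 e (by rw [hF', Finset.mem_filter]; exact ⟨Finset.mem_univ _, he, ht⟩)
      unfold cls
      rw [if_neg (by rw [not_le]; linarith), if_neg (by rw [not_le]; linarith),
        if_neg (not_le.2 h4)]
  refine le_trans ?_ (measureReal_mono hsub)
  rw [key]
  simp only [hJn]
  rw [Finset.prod_const, Finset.card_univ]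
  have hcard : Fintype.card (Option (Bool × Fin k)) = 2 * k + 1 := by
    simp [Fintype.card_option, Fintype.card_prod]
  rw [hcard]
  refine mul_le_mul_of_nonneg_left ?_ (by positivity)
  refine pow_le_pow_of_le_one (by linarith) (by linarith) ?_
  have h2 := card_touch_le n (univ.image φ) F' (by
    intro e he
    rw [hF', Finset.mem_filter] at he
    obtain ⟨_, ⟨x, hx⟩, _⟩ := he
    exact ⟨φ x, Finset.mem_image_of_mem _ (Finset.mem_univ _), hx⟩)
  rw [Finset.card_image_of_injective _ hi, Finset.card_univ] at h2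
  have hcard2 : Fintype.card (DS k) = 2 * k + 2 := by
    simp [Fintype.card_option, Fintype.card_prod]
    ring
  rwa [hcard2] at h2

theorem valid_prob (hn : 0 < n) {a : ℝ} (h0 : 0 ≤ a) (h1 : 3 * a ≤ 1) {S : Finset (Fin n)}
    (hS : S.card = 2 * k + 2) :
    a ^ (2 * k + 1) * (1 - 3 * a) ^ ((2 * k + 2) * n) ≤
      (mu n).real {U : Edge n → ℝ | Valid k a U S} := by
  classical
  have hcard2 : Fintype.card (DS k) = Fintype.card S := by
    rw [Fintype.card_coe, hS]
    simp [Fintype.card_option, Fintype.card_prod]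
    ring
  set g : DS k ≃ S := Fintype.equivOfCardEq hcard2
  have hi : Function.Injective (fun x => (g x : Fin n)) :=
    Subtype.val_injective.comp g.injective
  refine (conf_prob hn h0 h1 hi).trans (measureReal_mono ?_)
  intro U hU
  refine ⟨_, hU, ?_⟩
  ext v
  simp only [Finset.mem_coe, Set.mem_range]
  constructor
  · intro hv
    exact ⟨g.symm ⟨v, hv⟩, by rw [Equiv.apply_symm_apply]⟩
  · rintro ⟨x, rfl⟩
    exact (g x).2

open Classical in
theorem valid_conc (hn : 0 < n) {a : ℝ} (h0 : 0 ≤ a) (h1 : 3 * a < 1) {t : ℝ} (ht : 0 < t) :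
    (mu n).real {U | ((univ.filter fun S : Finset (Fin n) => Valid k a U S).card : ℝ) ≤
      n.choose (2 * k + 2) * (a ^ (2 * k + 1) * (1 - 3 * a) ^ ((2 * k + 2) * n)) - t} ≤
      4 * (Fintype.card (Edge n) * (3 * a)) / t ^ 2 := by
  have key := conc_count n (fun S : Finset (Fin n) => (S : Set (Fin n)))
    (fun U S => Valid k a U S) (meas_valid a) (by linarith : (0 : ℝ) ≤ 3 * a) h1.le ?_ ?_ ?_ ht
  · refine le_trans (measureReal_mono ?_) key
    intro U hU
    simp only [Set.mem_ofPred_eq] at hU ⊢
    have h2 : (n.choose (2 * k + 2) : ℝ) * (a ^ (2 * k + 1) * (1 - 3 * a) ^ ((2 * k + 2) * n)) ≤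
        ∑ S : Finset (Fin n), (mu n).real {U : Edge n → ℝ | Valid k a U S} := by
      calc (n.choose (2 * k + 2) : ℝ) * (a ^ (2 * k + 1) * (1 - 3 * a) ^ ((2 * k + 2) * n))
          = ∑ _S ∈ (univ : Finset (Fin n)).powersetCard (2 * k + 2),
            a ^ (2 * k + 1) * (1 - 3 * a) ^ ((2 * k + 2) * n) := by
            rw [Finset.sum_const, Finset.card_powersetCard, Finset.card_univ, Fintype.card_fin,
              nsmul_eq_mul]
        _ ≤ ∑ S ∈ (univ : Finset (Fin n)).powersetCard (2 * k + 2),
            (mu n).real {U : Edge n → ℝ | Valid k a U S} :=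
            Finset.sum_le_sum fun S hS => valid_prob hn h0 h1.le
              (Finset.mem_powersetCard.1 hS).2
        _ ≤ _ := Finset.sum_le_sum_of_subset_of_nonneg (Finset.subset_univ _)
            (fun _ _ _ => measureReal_nonneg)
    rw [abs_sub_comm]
    refine le_trans ?_ (le_abs_self _)
    linarith
  · intro U S S' hS hS' v hv hv'
    exact valid_disj hS hS' hv hv'
  · intro U S e h
    have h4 : ∀ U U' : Edge n → ℝ, (∀ e' : Edge n, (∃ v ∈ S, v ∈ e'.1) → U e' = U' e') →
        Valid k a U S → Valid k a U' S := by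
      rintro U U' hUU ⟨φ, h5, h6⟩
      refine ⟨φ, conf_congr ?_ h5, h6⟩
      rintro e' ⟨x, hx⟩
      have hxS : φ x ∈ S := by
        have : φ x ∈ (S : Set (Fin n)) := by rw [h6]; exact ⟨x, rfl⟩
        exact this
      unfold cls
      rw [hUU e' ⟨φ x, hxS, hx⟩]
    have h5 : ∀ e' : Edge n, (∃ v ∈ S, v ∈ e'.1) → Function.update U e 1 e' = U e' := by
      rintro e' ⟨v, hv1, hv2⟩
      rw [Function.update_of_ne]
      rintro rfl
      exact h v hv2 hv1
    exact ⟨h4 _ _ h5, h4 _ _ fun e' he' => (h5 e' he').symm⟩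
  · intro U S e h
    have h4 : cls a (Function.update U e 1) = cls a U := by
      funext x
      by_cases hx : x = e
      · subst hx
        unfold cls
        rw [Function.update_self, if_neg (by rw [not_le]; linarith),
          if_neg (by rw [not_le]; linarith), if_neg (by rw [not_le]; linarith),
          if_neg (by rw [not_le]; linarith), if_neg (by rw [not_le]; linarith),
          if_neg (by rw [not_le]; linarith)]
      · unfold cls
        rw [Function.update_of_ne hx]
    unfold Valid
    rw [h4]

end Pool.Agent.V7H95.Bgt
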