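import Pool.Agent.V7H95.Bgt.Det

/-!
# Deterministic part: success, and the double stars
-/

namespace Pool.Agent.V7H95.Bgt

open Finset

set_option autoImplicit false

variable {n : ℕ}

open Classical in
/-- the edges with a label at most `p` -/
noncomputable def low (U : Edge n → ℝ) (p : ℝ) : Finset (Edge n) := univ.filter fun e => U e ≤ p

/-- `e` is an isolated edge of the graph of the edges with a label at most `p` -/
def Isol (U : Edge n → ℝ) (p : ℝ) (e : Edge n) : Prop :=
  U e ≤ p ∧ ∀ e' : Edge n, e' ≠ e → (∃ v ∈ e.1, v ∈ e'.1) → p < U e'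

theorem deg_mono {F G : Finset (Edge n)} (h : F ⊆ G) (v : Fin n) : deg F v ≤ deg G v := by
  classical
  exact Finset.card_le_card (Finset.filter_subset_filter _ h)

open Classical in
theorem isol_bought {k m : ℕ} (hk : 1 ≤ k) {U : Edge n → ℝ} {F : Finset (Edge n)}
    (hF : IsRun (rule k m) U F) {p : ℝ} :
    (univ.filter fun e => Isol U p e).card ≤ (F.filter fun e => U e ≤ p).card := by
  refine Finset.card_le_card ?_
  intro e he
  rw [Finset.mem_filter] at he ⊢
  obtain ⟨_, h1, h2⟩ := he
  refine ⟨?_, h1⟩
  rw [hF e]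
  left
  intro w hw
  have : deg (F.filter fun e' => U e' < U e) w = 0 := by
    unfold deg
    rw [Finset.card_eq_zero, Finset.filter_eq_empty_iff]
    intro e' he' hwe'
    rw [Finset.mem_filter] at he'
    have hne : e' ≠ e := by
      rintro rfl
      exact lt_irrefl _ he'.2
    have := h2 e' hne ⟨w, hw, hwe'⟩
    linarith [he'.2]
  omega

open Classical in
theorem success {k m : ℕ} {U : Edge n → ℝ} {F : Finset (Edge n)} {p q : ℝ}
    (hF : IsRun (rule k m) U F) (h2 : m ≤ (F.filter fun e => U e ≤ p).card)
    (h3 : ∃ v : Fin n, (univ.filter fun e : Edge n => v ∈ e.1 ∧ U e ≤ q).card < k)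
    (h4 : ∀ v : Fin n, (∀ e : Edge n, v ∈ e.1 → p < U e) ∨
      k ≤ (univ.filter fun e : Edge n => v ∈ e.1 ∧ p < U e ∧ U e ≤ q).card)
    (G : Finset (Edge n)) (hG : ∀ e ∈ G, ∀ e', U e' < U e → e' ∈ G)
    (hGd : ∀ v, k ≤ deg G v) (v : Fin n) : k ≤ deg (F ∩ G) v := by
  by_contra hv
  rw [not_le] at hv
  have key : ∀ e ∈ G, v ∈ e.1 → p < U e → e ∈ F := by
    intro e he hve hp
    rw [hF e]
    right
    constructor
    · refine h2.trans (Finset.card_le_card ?_)
      intro x hx
      rw [Finset.mem_filter] at hx ⊢
      exact ⟨hx.1, lt_of_le_of_lt hx.2 hp⟩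
    · refine ⟨v, hve, lt_of_le_of_lt (deg_mono ?_ v) hv⟩
      intro x hx
      rw [Finset.mem_filter] at hx
      rw [Finset.mem_inter]
      exact ⟨hx.1, hG e he x hx.2⟩
  rcases h4 v with h | h
  · have h5 : deg G v ≤ deg (F ∩ G) v := by
      unfold deg
      refine Finset.card_le_card ?_
      intro e he
      rw [Finset.mem_filter] at he ⊢
      rw [Finset.mem_inter]
      exact ⟨⟨key e he.1 he.2 (h e he.2), he.1⟩, he.2⟩
    have := hGd v
    omega
  · obtain ⟨v0, hv0⟩ := h3
    have hex : ∃ e0 ∈ G, q < U e0 := by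
      by_contra hcon
      push Not at hcon
      have : deg G v0 ≤ (univ.filter fun e : Edge n => v0 ∈ e.1 ∧ U e ≤ q).card := by
        unfold deg
        refine Finset.card_le_card ?_
        intro e he
        rw [Finset.mem_filter] at he ⊢
        exact ⟨Finset.mem_univ _, he.2, hcon e he.1⟩
      have := hGd v0
      omega
    obtain ⟨e0, he0, hq⟩ := hex
    have : (univ.filter fun e : Edge n => v ∈ e.1 ∧ p < U e ∧ U e ≤ q).card
        ≤ deg (F ∩ G) v := by
      unfold deg
      refine Finset.card_le_card ?_
      intro e he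
      rw [Finset.mem_filter] at he ⊢
      obtain ⟨_, h5, h6, h7⟩ := he
      have heG : e ∈ G := hG e0 he0 e (lt_of_le_of_lt h7 hq)
      rw [Finset.mem_inter]
      exact ⟨⟨key e heG h5 h6, heG⟩, h5⟩
    omega

/-! ### Double stars -/

/-- the classes of the labels: `[0,a]`, `(a,2a]`, `(2a,3a]`, `(3a,1]` -/
noncomputable def cls (a : ℝ) (U : Edge n → ℝ) (e : Edge n) : ℕ :=
  if U e ≤ a then 0 else if U e ≤ 2 * a then 1 else if U e ≤ 3 * a then 2 else 3

variable {k : ℕ}

/-- the vertices of a double star: two centres and `k` leaves at each of them -/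
abbrev DS (k : ℕ) : Type := Bool × Option (Fin k)

/-- the edges of the double star -/
def te (φ : DS k → Fin n) : Option (Bool × Fin k) → Sym2 (Fin n)
  | none => s(φ (false, none), φ (true, none))
  | some (b, i) => s(φ (b, none), φ (b, some i))

/-- the classes of the edges of the double star -/
def ti : Option (Bool × Fin k) → ℕ
  | none => 1
  | some (false, _) => 0
  | some (true, _) => 2

/-- `φ` is a double star which is a component of the graph of the edges of class less than `3`,
and the classes of the edges are as prescribed -/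
structure Conf (c : Edge n → ℕ) (φ : DS k → Fin n) : Prop where
  inj : Function.Injective φ
  tree : ∀ (e : Edge n) (t : Option (Bool × Fin k)), e.1 = te φ t → c e = ti t
  other : ∀ e : Edge n, (∃ x, φ x ∈ e.1) → (∀ t, e.1 ≠ te φ t) → c e = 3

theorem te_not_diag {φ : DS k → Fin n} (h : Function.Injective φ) (t : Option (Bool × Fin k)) :
    ¬ (te φ t).IsDiag := by
  rcases t with _ | ⟨b, i⟩
  · simp only [te, Sym2.mk_isDiag_iff]
    intro h1
    have := h h1
    simp at this
  · simp only [te, Sym2.mk_isDiag_iff]
    intro h1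
    have := h h1
    simp at this

theorem ti_lt (t : Option (Bool × Fin k)) : ti t < 3 := by
  rcases t with _ | ⟨b, i⟩
  · simp [ti]
  · cases b <;> simp [ti]

theorem te_sub (φ : DS k → Fin n) (t : Option (Bool × Fin k)) {v : Fin n} (hv : v ∈ te φ t) :
    v ∈ Set.range φ := by
  rcases t with _ | ⟨b, i⟩
  · simp only [te, Sym2.mem_iff] at hv
    rcases hv with rfl | rfl <;> exact ⟨_, rfl⟩
  · simp only [te, Sym2.mem_iff] at hv
    rcases hv with rfl | rfl <;> exact ⟨_, rfl⟩

theorem range_sub {c : Edge n → ℕ} {φ φ' : DS k → Fin n} (h : Conf c φ) (h' : Conf c φ')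
    (x : DS k) (hx : φ' x ∈ Set.range φ) : Set.range φ' ⊆ Set.range φ := by
  have step : ∀ t, ∀ v ∈ te φ' t, v ∈ Set.range φ → ∀ w ∈ te φ' t, w ∈ Set.range φ := by
    intro t v hv hvr w hw
    set e : Edge n := ⟨te φ' t, te_not_diag h'.inj t⟩ with he
    have h1 : c e = ti t := h'.tree e t rfl
    have h2 : ∃ t', e.1 = te φ t' := by
      by_contra hcon
      push Not at hcon
      obtain ⟨y, hy⟩ := hvr
      have h3 := h.other e ⟨y, by rw [hy]; exact hv⟩ hcon
      have := ti_lt t
      omega
    obtain ⟨t', ht'⟩ := h2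
    apply te_sub φ t'
    rw [← ht']
    exact hw
  have hub : φ' (false, none) ∈ Set.range φ ∧ φ' (true, none) ∈ Set.range φ := by
    have h1 : ∀ b, φ' (b, none) ∈ Set.range φ → φ' (false, none) ∈ Set.range φ ∧
        φ' (true, none) ∈ Set.range φ := by
      intro b hb
      cases b
      · exact ⟨hb, step none _ (Sym2.mem_mk_left _ _) hb _ (Sym2.mem_mk_right _ _)⟩
      · exact ⟨step none _ (Sym2.mem_mk_right _ _) hb _ (Sym2.mem_mk_left _ _), hb⟩
    obtain ⟨b, i⟩ := x
    rcases i with _ | i
    · exact h1 b hx
    · exact h1 b (step (some (b, i)) _ (Sym2.mem_mk_right _ _) hx _ (Sym2.mem_mk_left _ _))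
  rintro _ ⟨⟨b, i⟩, rfl⟩
  have hb : φ' (b, none) ∈ Set.range φ := by cases b; exacts [hub.1, hub.2]
  rcases i with _ | i
  · exact hb
  · exact step (some (b, i)) _ (Sym2.mem_mk_left _ _) hb _ (Sym2.mem_mk_right _ _)

theorem range_eq {c : Edge n → ℕ} {φ φ' : DS k → Fin n} (h : Conf c φ) (h' : Conf c φ')
    (x y : DS k) (hx : φ' x = φ y) : Set.range φ' = Set.range φ :=
  Set.Subset.antisymm (range_sub h h' x ⟨y, hx.symm⟩) (range_sub h' h y ⟨x, hx⟩)

/-- the facts on the classes -/
theorem cls_zero {a : ℝ} {U : Edge n → ℝ} {e : Edge n} (h : cls a U e = 0) : U e ≤ a := by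
  unfold cls at h
  by_cases h1 : U e ≤ a
  · exact h1
  · rw [if_neg h1] at h
    split_ifs at h

theorem cls_one {a : ℝ} {U : Edge n → ℝ} {e : Edge n} (h : cls a U e = 1) :
    a < U e ∧ U e ≤ 2 * a := by
  unfold cls at h
  by_cases h1 : U e ≤ a
  · rw [if_pos h1] at h
    omega
  · rw [if_neg h1] at h
    by_cases h2 : U e ≤ 2 * a
    · exact ⟨not_le.1 h1, h2⟩
    · rw [if_neg h2] at h
      split_ifs at h <;> omega

theorem cls_two {a : ℝ} {U : Edge n → ℝ} {e : Edge n} (h : cls a U e = 2) :
    2 * a < U e ∧ U e ≤ 3 * a := by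
  unfold cls at h
  by_cases h1 : U e ≤ a
  · rw [if_pos h1] at h
    omega
  · rw [if_neg h1] at h
    by_cases h2 : U e ≤ 2 * a
    · rw [if_pos h2] at h
      omega
    · rw [if_neg h2] at h
      by_cases h3 : U e ≤ 3 * a
      · exact ⟨not_le.1 h2, h3⟩
      · rw [if_neg h3] at h
        omega

theorem cls_three {a : ℝ} {U : Edge n → ℝ} {e : Edge n} (h : cls a U e = 3) :
    3 * a < U e := by
  unfold cls at h
  by_cases h1 : U e ≤ a
  · rw [if_pos h1] at h
    omega
  · rw [if_neg h1] at h
    by_cases h2 : U e ≤ 2 * a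
    · rw [if_pos h2] at h
      omega
    · rw [if_neg h2] at h
      by_cases h3 : U e ≤ 3 * a
      · rw [if_pos h3] at h
        omega
      · exact not_le.1 h3

open Classical in
theorem extra {a : ℝ} (ha : 0 ≤ a) {m : ℕ} (hk : 1 ≤ k) {U : Edge n → ℝ}
    (hU : Function.Injective U) {F : Finset (Edge n)}
    (hF : IsRun (rule k m) U F) (hm : (low U (3 * a)).card ≤ m) {φ : DS k → Fin n}
    (hφ : Conf (cls a U) φ) :
    ∃ e ∈ both k U F, e ∉ mutU k U ∧ ∀ w ∈ e.1, w ∈ Set.range φ := by
  have hi := hφ.inj
  -- the edges of the double star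
  set E : Option (Bool × Fin k) → Edge n := fun t => ⟨te φ t, te_not_diag hi t⟩ with hE
  have hc : ∀ t, cls a U (E t) = ti t := fun t => hφ.tree _ t rfl
  have hoth : ∀ e : Edge n, (∃ x, φ x ∈ e.1) → U e ≤ 3 * a → ∃ t, e = E t := by
    intro e he1 he2
    by_contra hcon
    push Not at hcon
    have := hφ.other e he1 (fun t ht => hcon t (Subtype.ext ht))
    have := cls_three this
    linarith
  have h0 : ∀ i, U (E (some (false, i))) ≤ a := fun i => cls_zero (hc _)
  have h1 : a < U (E none) ∧ U (E none) ≤ 2 * a := cls_one (hc _)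
  have h2 : ∀ i, 2 * a < U (E (some (true, i))) ∧ U (E (some (true, i))) ≤ 3 * a :=
    fun i => cls_two (hc _)
  have hEinj : ∀ b i i', E (some (b, i)) = E (some (b, i')) → i = i' := by
    intro b i i' h
    have h3 : te φ (some (b, i)) = te φ (some (b, i')) := congrArg Subtype.val h
    simp only [te, Sym2.congr_right] at h3
    have := hi h3
    simpa using this
  -- which edges of the double star are at which vertex
  have hat0 : ∀ t, φ (false, none) ∈ (E t).1 → t = none ∨ ∃ i, t = some (false, i) := by
    intro t ht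
    rcases t with _ | ⟨b, i⟩
    · exact Or.inl rfl
    · right
      simp only [hE, te, Sym2.mem_iff, hi.eq_iff, Prod.mk.injEq, reduceCtorEq, and_false,
        or_false, and_true] at ht
      exact ⟨i, by rw [← ht]⟩
  have hat1 : ∀ t, φ (true, none) ∈ (E t).1 → t = none ∨ ∃ i, t = some (true, i) := by
    intro t ht
    rcases t with _ | ⟨b, i⟩
    · exact Or.inl rfl
    · right
      simp only [hE, te, Sym2.mem_iff, hi.eq_iff, Prod.mk.injEq, reduceCtorEq, and_false,
        or_false, and_true] at ht
      exact ⟨i, by rw [← ht]⟩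
  have hatl : ∀ t b i, φ (b, some i) ∈ (E t).1 → t = some (b, i) := by
    intro t b i ht
    rcases t with _ | ⟨b', i'⟩
    · simp only [hE, te, Sym2.mem_iff, hi.eq_iff, Prod.mk.injEq, reduceCtorEq, and_false,
        or_false] at ht
    · simp only [hE, te, Sym2.mem_iff, hi.eq_iff, Prod.mk.injEq, reduceCtorEq, and_false,
        false_or, Option.some.injEq] at ht
      rw [ht.1, ht.2]
  -- leaves are fresh
  have hleaf : ∀ b i, deg (F.filter fun e' => U e' < U (E (some (b, i)))) (φ (b, some i)) < k := by
    intro b i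
    have : deg (F.filter fun e' => U e' < U (E (some (b, i)))) (φ (b, some i)) = 0 := by
      unfold deg
      rw [Finset.card_eq_zero, Finset.filter_eq_empty_iff]
      intro e' he' hx
      rw [Finset.mem_filter] at he'
      have hle : U (E (some (b, i))) ≤ 3 * a := by
        cases b
        · have := h0 i; linarith
        · exact (h2 i).2
      obtain ⟨t, rfl⟩ := hoth e' ⟨_, hx⟩ (by linarith [he'.2])
      have := hatl t b i hx
      subst this
      exact lt_irrefl _ he'.2
    omega
  -- the edges at the first centre are bought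
  have hb0 : ∀ i, E (some (false, i)) ∈ F := by
    intro i
    rw [hF]
    left
    intro w hw
    have hw' : w = φ (false, none) ∨ w = φ (false, some i) := by
      simpa only [hE, te, Sym2.mem_iff] using hw
    rcases hw' with rfl | rfl
    · have hsub : ((F.filter fun e' => U e' < U (E (some (false, i)))).filter
          fun e => φ (false, none) ∈ e.1) ⊆ ((univ : Finset (Fin k)).erase i).image
            (fun j => E (some (false, j))) := by
        intro e he
        rw [Finset.mem_filter, Finset.mem_filter] at he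
        obtain ⟨⟨he1, he2⟩, he3⟩ := he
        have := h0 i
        obtain ⟨t, rfl⟩ := hoth e ⟨_, he3⟩ (by linarith)
        rcases hat0 t he3 with rfl | ⟨j, rfl⟩
        · linarith [h1.1]
        · rw [Finset.mem_image]
          refine ⟨j, ?_, rfl⟩
          rw [Finset.mem_erase]
          refine ⟨?_, Finset.mem_univ _⟩
          rintro rfl
          exact lt_irrefl _ he2
      unfold deg
      refine lt_of_le_of_lt ((Finset.card_le_card hsub).trans Finset.card_image_le) ?_
      rw [Finset.card_erase_of_mem (Finset.mem_univ _), Finset.card_univ, Fintype.card_fin]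
      omega
    · exact hleaf false i
  -- the middle edge is not bought
  have hmid : E none ∉ F := by
    intro hcon
    have hr := (hF _).1 hcon
    rcases hr with hr | hr
    · have h3 := hr (φ (false, none)) (by simp only [hE, te]; exact Sym2.mem_mk_left _ _)
      have h4 : k ≤ deg (F.filter fun e' => U e' < U (E none)) (φ (false, none)) := by
        have hsub : (univ : Finset (Fin k)).image (fun j => E (some (false, j))) ⊆
            ((F.filter fun e' => U e' < U (E none)).filter fun e => φ (false, none) ∈ e.1) := by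
          intro e he
          rw [Finset.mem_image] at he
          obtain ⟨j, _, rfl⟩ := he
          rw [Finset.mem_filter, Finset.mem_filter]
          refine ⟨⟨hb0 j, by linarith [h0 j, h1.1]⟩, ?_⟩
          simp only [hE, te]
          exact Sym2.mem_mk_left _ _
        have h5 := Finset.card_le_card hsub
        rw [Finset.card_image_of_injective _ (fun i i' h => hEinj false i i' h),
          Finset.card_univ, Fintype.card_fin] at h5
        exact h5
      omega
    · have h3 : (F.filter fun e' => U e' < U (E none)) ⊂ low U (3 * a) := by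
        rw [Finset.ssubset_iff_of_subset]
        · refine ⟨E none, ?_, ?_⟩
          · rw [low, Finset.mem_filter]
            exact ⟨Finset.mem_univ _, by linarith [h1.2]⟩
          · rw [Finset.mem_filter]
            rintro ⟨_, h⟩
            exact lt_irrefl _ h
        · intro e he
          rw [Finset.mem_filter] at he
          rw [low, Finset.mem_filter]
          exact ⟨Finset.mem_univ _, by linarith [he.2, h1.2]⟩
      have h4 := Finset.card_lt_card h3
      omega
  -- the last edge at the second centre
  have hkne : (univ : Finset (Fin k)).Nonempty := ⟨⟨0, hk⟩, Finset.mem_univ _⟩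
  obtain ⟨j0, _, hj0⟩ := Finset.exists_max_image (univ : Finset (Fin k))
    (fun j => U (E (some (true, j)))) hkne
  have hlt : ∀ j, j ≠ j0 → U (E (some (true, j))) < U (E (some (true, j0))) := by
    intro j hj
    refine lt_of_le_of_ne (hj0 j (Finset.mem_univ _)) ?_
    intro h
    exact hj (hEinj true j j0 (hU h))
  refine ⟨E (some (true, j0)), ?_, ?_, fun w hw => te_sub φ (some (true, j0)) hw⟩
  · rw [both, Finset.mem_filter]
    refine ⟨Finset.mem_univ _, ?_⟩
    intro w hw
    have hw' : w = φ (true, none) ∨ w = φ (true, some j0) := by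
      simpa only [hE, te, Sym2.mem_iff] using hw
    rcases hw' with rfl | rfl
    · have hsub : ((F.filter fun e' => U e' < U (E (some (true, j0)))).filter
          fun e => φ (true, none) ∈ e.1) ⊆ ((univ : Finset (Fin k)).erase j0).image
            (fun j => E (some (true, j))) := by
        intro e he
        rw [Finset.mem_filter, Finset.mem_filter] at he
        obtain ⟨⟨he1, he2⟩, he3⟩ := he
        obtain ⟨t, rfl⟩ := hoth e ⟨_, he3⟩ (by linarith [(h2 j0).2])
        rcases hat1 t he3 with rfl | ⟨j, rfl⟩
        · exact absurd he1 hmid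
        · rw [Finset.mem_image]
          refine ⟨j, ?_, rfl⟩
          rw [Finset.mem_erase]
          refine ⟨?_, Finset.mem_univ _⟩
          rintro rfl
          exact lt_irrefl _ he2
      unfold deg
      refine lt_of_le_of_lt ((Finset.card_le_card hsub).trans Finset.card_image_le) ?_
      rw [Finset.card_erase_of_mem (Finset.mem_univ _), Finset.card_univ, Fintype.card_fin]
      omega
    · exact hleaf true j0
  · intro hcon
    rw [mutU, Finset.mem_filter] at hcon
    have h3 := hcon.2 (φ (true, none)) (by simp only [hE, te]; exact Sym2.mem_mk_left _ _)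
    have hsub : insert (E none) (((univ : Finset (Fin k)).erase j0).image
        (fun j => E (some (true, j)))) ⊆ (univ.filter fun e' : Edge n =>
          φ (true, none) ∈ e'.1 ∧ U e' < U (E (some (true, j0)))) := by
      intro e he
      rw [Finset.mem_insert, Finset.mem_image] at he
      rw [Finset.mem_filter]
      refine ⟨Finset.mem_univ _, ?_⟩
      rcases he with rfl | ⟨j, hj, rfl⟩
      · refine ⟨?_, by linarith [(h2 j0).1, h1.2]⟩
        simp only [hE, te]
        exact Sym2.mem_mk_right _ _
      · refine ⟨?_, hlt j (Finset.mem_erase.1 hj).1⟩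
        simp only [hE, te]
        exact Sym2.mem_mk_left _ _
    have h4 := Finset.card_le_card hsub
    rw [Finset.card_insert_of_notMem, Finset.card_image_of_injective _
      (fun i i' h => hEinj true i i' h), Finset.card_erase_of_mem (Finset.mem_univ _),
      Finset.card_univ, Fintype.card_fin] at h4
    · omega
    · rw [Finset.mem_image]
      rintro ⟨j, _, hj⟩
      have h5 := (h2 j).1
      rw [hj] at h5
      linarith [h1.2]

/-- the vertex sets of the double stars -/
def Valid (k : ℕ) (a : ℝ) (U : Edge n → ℝ) (S : Finset (Fin n)) : Prop :=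
  ∃ φ : DS k → Fin n, Conf (cls a U) φ ∧ (S : Set (Fin n)) = Set.range φ

theorem valid_disj {a : ℝ} {U : Edge n → ℝ} {S S' : Finset (Fin n)} (h : Valid k a U S)
    (h' : Valid k a U S') {v : Fin n} (hv : v ∈ S) (hv' : v ∈ S') : S = S' := by
  obtain ⟨φ, h1, h2⟩ := h
  obtain ⟨φ', h3, h4⟩ := h'
  have hx : v ∈ Set.range φ := by rw [← h2]; exact hv
  have hy : v ∈ Set.range φ' := by rw [← h4]; exact hv'
  obtain ⟨x, hx⟩ := hx
  obtain ⟨y, hy⟩ := hy
  apply Finset.coe_injective
  rw [h2, h4]
  exact range_eq h3 h1 x y (by rw [hx, hy])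

open Classical in
theorem card_valid_le {a : ℝ} (ha : 0 ≤ a) {m : ℕ} (hk : 1 ≤ k) {U : Edge n → ℝ}
    (hU : Function.Injective U) {F : Finset (Edge n)}
    (hF : IsRun (rule k m) U F) (hm : (low U (3 * a)).card ≤ m) :
    (univ.filter fun S : Finset (Fin n) => Valid k a U S).card + (mutU k U).card
      ≤ (both k U F).card := by
  have hsub : mutU k U ⊆ both k U F := by
    intro e he
    rw [mutU, Finset.mem_filter] at he
    rw [both, Finset.mem_filter]
    refine ⟨Finset.mem_univ _, fun w hw => lt_of_le_of_lt ?_ (he.2 w hw)⟩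
    unfold deg
    refine Finset.card_le_card ?_
    intro x hx
    rw [Finset.mem_filter, Finset.mem_filter] at hx
    rw [Finset.mem_filter]
    exact ⟨Finset.mem_univ _, hx.2, hx.1.2⟩
  have h1 : (univ.filter fun S : Finset (Fin n) => Valid k a U S).card
      ≤ (both k U F \ mutU k U).card := by
    refine Finset.card_le_card_of_forall_subsingleton
      (fun (S : Finset (Fin n)) (e : Edge n) => ∀ w ∈ e.1, w ∈ S) ?_ ?_
    · intro S hS
      obtain ⟨φ, h2, h3⟩ := (Finset.mem_filter.1 hS).2
      obtain ⟨e, he1, he2, he3⟩ := extra ha hk hU hF hm h2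
      refine ⟨e, Finset.mem_sdiff.2 ⟨he1, he2⟩, ?_⟩
      intro w hw
      have : w ∈ (S : Set (Fin n)) := by
        rw [h3]
        exact he3 w hw
      exact this
    · intro e _ S hS S' hS'
      have hS1 := (Finset.mem_filter.1 hS.1).2
      have hS1' := (Finset.mem_filter.1 hS'.1).2
      obtain ⟨e0, he0⟩ := e
      induction e0 with
      | _ x y =>
        exact valid_disj hS1 hS1' (hS.2 x (Sym2.mem_mk_left _ _)) (hS'.2 x (Sym2.mem_mk_left _ _))
  have h2 := Finset.card_sdiff_add_card_eq_card hsub
  omega

theorem inj_of_mono {σ : Ordering n} {U : Edge n → ℝ} (hU : StrictMono (U ∘ σ)) :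
    Function.Injective U := by
  intro e e' h
  have h1 := hU.injective (a₁ := σ.symm e) (a₂ := σ.symm e') (by
    simp only [Function.comp, Equiv.apply_symm_apply]
    exact h)
  exact σ.symm.injective h1

open Classical in
/-- the deterministic part of the proof -/
theorem det {k m b : ℕ} (hk : 1 ≤ k) (hn : k + 1 ≤ n) {σ : Ordering n} {U : Edge n → ℝ}
    (hU : StrictMono (U ∘ σ)) {a p q : ℝ} (ha : 0 ≤ a)
    (h1 : (low U (3 * a)).card ≤ m)
    (h2 : m ≤ (univ.filter fun e => Isol U p e).card)
    (h3 : ∃ v : Fin n, (univ.filter fun e : Edge n => v ∈ e.1 ∧ U e ≤ q).card < k)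
    (h4 : ∀ v : Fin n, (∀ e : Edge n, v ∈ e.1 → p < U e) ∨
      k ≤ (univ.filter fun e : Edge n => v ∈ e.1 ∧ p < U e ∧ U e ≤ q).card)
    (h5 : (near k σ).card ≤ b + (univ.filter fun S : Finset (Fin n) => Valid k a U S).card)
    (v : Fin n) : k ≤ deg (built (ruleb k m b) σ (tau k σ)) v := by
  have hUi := inj_of_mono hU
  set F := built (rule k m) σ (n.choose 2) with hFdef
  have hF : IsRun (rule k m) U F := run_built _ hU
  have hc1 := card_run_le k m hUi hF
  have hc2 := card_valid_le ha hk hUi hF h1
  have hc3 := card_near_add k hUi hn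
  rw [← near_eq k hU] at hc3
  have hb : F.card ≤ b := by omega
  have hF' := run_ruleb hF hb
  have hF'' : IsRun (ruleb k m b) U (built (ruleb k m b) σ (n.choose 2)) := run_built _ hU
  have heq := run_unique hF' hF''
  have hbuilt : built (ruleb k m b) σ (tau k σ) = F ∩ shown σ (tau k σ) := by
    rw [built_eq, ← heq]
    ext e
    simp only [shown, Finset.mem_filter, Finset.mem_inter, Finset.mem_univ, true_and]
  rw [hbuilt]
  have htau : ∀ v : Fin n, k ≤ deg (shown σ (tau k σ)) v := by
    have hne : {t : ℕ | ∀ v : Fin n, k ≤ deg (shown σ t) v}.Nonempty := by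
      refine ⟨n.choose 2, fun v => ?_⟩
      have : shown σ (n.choose 2) = univ := by
        unfold shown
        rw [Finset.filter_true_of_mem]
        intro e _
        exact (σ.symm e).2
      rw [this]
      unfold deg
      rw [card_at]
      omega
    exact Nat.sInf_mem hne
  refine success hF (h2.trans (isol_bought hk hF)) h3 h4 _ ?_ htau v
  intro e he e' hee
  simp only [shown, Finset.mem_filter, Finset.mem_univ, true_and] at he ⊢
  rw [lt_iff hU] at hee
  omega

end Pool.Agent.V7H95.Bgt
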