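import Pool.Agent.V7H95.Bgt.Bridge
import Pool.Agent.V7H95.Bgt.Det2
import Pool.Agent.T2H99.AW.ES

/-!
# Concentration: the Efron-Stein inequality for functions of the labels
-/

namespace Pool.Agent.V7H95.Bgt

open Finset MeasureTheory ProbabilityTheory
open scoped ENNReal

set_option autoImplicit false

variable {n : ℕ}

theorem nu_Iic {p : ℝ} (h0 : 0 ≤ p) (h1 : p ≤ 1) : nu.real (Set.Iic p) = p := by
  rw [Measure.real, nu, Measure.restrict_apply measurableSet_Iic]
  have : Set.Iic p ∩ Set.Icc (0 : ℝ) 1 = Set.Icc 0 p := by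
    ext x
    simp only [Set.mem_inter_iff, Set.mem_Iic, Set.mem_Icc]
    constructor
    · rintro ⟨h2, h3, h4⟩
      exact ⟨h3, h2⟩
    · rintro ⟨h2, h3⟩
      exact ⟨h3, h2, h3.trans h1⟩
  rw [this, Real.volume_Icc, sub_zero, ENNReal.toReal_ofReal h0]

theorem nu_Ioi {p : ℝ} (h0 : 0 ≤ p) (h1 : p ≤ 1) : nu.real (Set.Ioi p) = 1 - p := by
  have h := probReal_compl_eq_one_sub (μ := nu) (s := Set.Iic p) measurableSet_Iic
  rw [nu_Iic h0 h1, Set.compl_Iic] at h
  exact h

theorem nu_Ioc {p q : ℝ} (h0 : 0 ≤ p) (h1 : p ≤ q) (h2 : q ≤ 1) :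
    nu.real (Set.Ioc p q) = q - p := by
  rw [Measure.real, nu, Measure.restrict_apply measurableSet_Ioc]
  have : Set.Ioc p q ∩ Set.Icc (0 : ℝ) 1 = Set.Ioc p q := by
    ext x
    simp only [Set.mem_inter_iff, Set.mem_Ioc, Set.mem_Icc]
    constructor
    · rintro ⟨h3, _⟩
      exact h3
    · rintro ⟨h3, h4⟩
      exact ⟨⟨h3, h4⟩, by linarith, by linarith⟩
  rw [this, Real.volume_Ioc, ENNReal.toReal_ofReal (by linarith)]

theorem mu_coord (e : Edge n) {A : Set ℝ} (hA : MeasurableSet A) :
    (mu n).real {U | U e ∈ A} = nu.real A := by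
  rw [← map_coord e, map_measureReal_apply (measurable_pi_apply e) hA]
  rfl

open Classical in
/-- the Efron-Stein inequality, with the label of one edge set to `1` -/
theorem es_update (n : ℕ) (f : (Edge n → ℝ) → ℝ) (hf : Measurable f) (C : ℝ)
    (hC : ∀ U, |f U| ≤ C) :
    ∫ U, (f U - ∫ V, f V ∂(mu n)) ^ 2 ∂(mu n) ≤
      ∑ e : Edge n, ∫ U, (f U - f (Function.update U e 1)) ^ 2 ∂(mu n) := by
  have key := Pool.Agent.T2H99.AW.efron_stein (mu n)
    (fun e : Edge n => MeasurableSpace.comap (fun U : Edge n → ℝ => U e) inferInstance)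
    (fun e => (measurable_pi_apply e).comap_le) (indep_coord n) univ f
    (fun e U => f (Function.update U e 1)) C ?_ hC ?_ (fun e U => hC _)
  · exact key
  · have : (MeasurableSpace.pi : MeasurableSpace (Edge n → ℝ)) ≤
        ⨆ x : (univ : Finset (Edge n)),
          MeasurableSpace.comap (fun U : Edge n → ℝ => U x) inferInstance := by
      refine iSup_le fun e => ?_
      exact le_iSup (fun x : (univ : Finset (Edge n)) =>
          MeasurableSpace.comap (fun U : Edge n → ℝ => U x) inferInstance) ⟨e, Finset.mem_univ e⟩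
    exact hf.mono this le_rfl
  · intro e _
    refine Measurable.comp hf ?_
    refine (@measurable_pi_iff (Edge n → ℝ) (Edge n) (fun _ => ℝ)
      (⨆ x : ((univ : Finset (Edge n)).erase e : Finset (Edge n)),
          MeasurableSpace.comap (fun U : Edge n → ℝ => U x) inferInstance) _ _).2 ?_
    intro e'
    by_cases h : e' = e
    · subst h
      simp only [Function.update_self]
      exact measurable_const
    · have h2 : (fun U : Edge n → ℝ => Function.update U e 1 e') = fun U => U e' := by
        funext U
        rw [Function.update_of_ne h]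
      rw [h2]
      have h3 : MeasurableSpace.comap (fun U : Edge n → ℝ => U e') inferInstance ≤
          ⨆ x : ((univ : Finset (Edge n)).erase e : Finset (Edge n)),
          MeasurableSpace.comap (fun U : Edge n → ℝ => U x) inferInstance :=
        le_iSup (fun x : ((univ : Finset (Edge n)).erase e : Finset (Edge n)) =>
          MeasurableSpace.comap (fun U : Edge n → ℝ => U x) inferInstance)
            ⟨e', Finset.mem_erase.2 ⟨h, Finset.mem_univ e'⟩⟩
      exact (comap_measurable _).mono h3 le_rfl

/-- Chebyshev -/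
theorem cheb (n : ℕ) (f : (Edge n → ℝ) → ℝ) (hf : Measurable f) (C : ℝ)
    (hC : ∀ U, |f U| ≤ C) {t : ℝ} (ht : 0 < t) :
    (mu n).real {U | t ≤ |f U - ∫ V, f V ∂(mu n)|} ≤
      (∫ U, (f U - ∫ V, f V ∂(mu n)) ^ 2 ∂(mu n)) / t ^ 2 := by
  set m : ℝ := ∫ V, f V ∂(mu n) with hm
  have hint : Integrable (fun U => (f U - m) ^ 2) (mu n) := by
    refine Integrable.of_bound ((hf.sub_const m).pow_const 2).aestronglyMeasurable
      ((C + |m|) ^ 2) (ae_of_all _ fun U => ?_)
    rw [Real.norm_eq_abs, abs_pow]
    refine pow_le_pow_left₀ (abs_nonneg _) ?_ 2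
    exact (abs_sub _ _).trans (add_le_add (hC U) le_rfl)
  have h1 := mul_meas_ge_le_integral_of_nonneg (μ := mu n) (f := fun U => (f U - m) ^ 2)
    (ae_of_all _ fun U => sq_nonneg _) hint (t ^ 2)
  rw [le_div_iff₀ (by positivity), mul_comm]
  refine le_trans (le_of_eq ?_) h1
  congr 2
  ext U
  simp only [Set.mem_ofPred_eq]
  rw [← sq_abs (f U - m)]
  exact (sq_le_sq₀ ht.le (abs_nonneg _)).symm

open Classical in
/-- Efron-Stein and Chebyshev, when setting the label of an edge to `1` has a small effect -/
theorem conc (n : ℕ) (f : (Edge n → ℝ) → ℝ) (hf : Measurable f) (C : ℝ)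
    (hC : ∀ U, |f U| ≤ C) (D : ℝ) (A : Edge n → Set (Edge n → ℝ))
    (hA : ∀ e, MeasurableSet (A e))
    (h0 : ∀ e U, U ∉ A e → f (Function.update U e 1) = f U)
    (h1 : ∀ e U, |f U - f (Function.update U e 1)| ≤ D) {t : ℝ} (ht : 0 < t) :
    (mu n).real {U | t ≤ |f U - ∫ V, f V ∂(mu n)|} ≤
      D ^ 2 * (∑ e : Edge n, (mu n).real (A e)) / t ^ 2 := by
  refine (cheb n f hf C hC ht).trans ?_
  refine div_le_div_of_nonneg_right ?_ (by positivity)
  refine (es_update n f hf C hC).trans ?_
  rw [Finset.mul_sum]
  refine Finset.sum_le_sum fun e _ => ?_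
  have h2 : ∀ U, (f U - f (Function.update U e 1)) ^ 2 ≤ (A e).indicator (fun _ => D ^ 2) U := by
    intro U
    by_cases hU : U ∈ A e
    · rw [Set.indicator_of_mem hU, ← sq_abs]
      exact pow_le_pow_left₀ (abs_nonneg _) (h1 e U) 2
    · rw [Set.indicator_of_notMem hU, h0 e U hU]
      simp
  calc ∫ U, (f U - f (Function.update U e 1)) ^ 2 ∂(mu n)
      ≤ ∫ U, (A e).indicator (fun _ => D ^ 2) U ∂(mu n) := by
        refine integral_mono_of_nonneg (ae_of_all _ fun U => sq_nonneg _) ?_ (ae_of_all _ h2)
        exact (integrable_const _).indicator (hA e)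
    _ = D ^ 2 * (mu n).real (A e) := by
        rw [integral_indicator (hA e), setIntegral_const, smul_eq_mul, mul_comm]

/-- the number of the valid structures `s : T`, as a function of the labels -/
theorem meas_count {T : Type*} [Fintype T] (P : (Edge n → ℝ) → T → Prop)
    [∀ U, DecidablePred (P U)] (hP : ∀ s, MeasurableSet {U | P U s}) :
    Measurable (fun U : Edge n → ℝ => ((univ.filter fun s => P U s).card : ℝ)) := by
  have : (fun U : Edge n → ℝ => ((univ.filter fun s => P U s).card : ℝ))
      = fun U => ∑ s : T, ({U | P U s} : Set _).indicator (fun _ => (1 : ℝ)) U := by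
    classical
    funext U
    rw [Finset.card_filter, Nat.cast_sum]
    refine Finset.sum_congr rfl fun s _ => ?_
    by_cases h : P U s
    · rw [if_pos h, Set.indicator_of_mem (by exact h)]
      simp
    · rw [if_neg h, Set.indicator_of_notMem (by exact h)]
      simp
  rw [this]
  exact Finset.measurable_sum _ fun s _ => (measurable_const).indicator (hP s)

theorem int_count {T : Type*} [Fintype T] (P : (Edge n → ℝ) → T → Prop)
    [∀ U, DecidablePred (P U)] (hP : ∀ s, MeasurableSet {U | P U s}) :
    ∫ U, ((univ.filter fun s => P U s).card : ℝ) ∂(mu n) = ∑ s : T, (mu n).real {U | P U s} := by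
  have : (fun U : Edge n → ℝ => ((univ.filter fun s => P U s).card : ℝ))
      = fun U => ∑ s : T, ({U | P U s} : Set _).indicator (fun _ => (1 : ℝ)) U := by
    classical
    funext U
    rw [Finset.card_filter, Nat.cast_sum]
    refine Finset.sum_congr rfl fun s _ => ?_
    by_cases h : P U s
    · rw [if_pos h, Set.indicator_of_mem (by exact h)]
      simp
    · rw [if_neg h, Set.indicator_of_notMem (by exact h)]
      simp
  rw [this, integral_finsetSum]
  · refine Finset.sum_congr rfl fun s _ => ?_
    rw [integral_indicator (hP s), setIntegral_const, smul_eq_mul, mul_one]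
  · intro s _
    exact (integrable_const _).indicator (hP s)

open Classical in
/-- concentration of the number of local structures -/
theorem conc_count (n : ℕ) {T : Type*} [Fintype T] (V : T → Set (Fin n))
    (P : (Edge n → ℝ) → T → Prop) (hP : ∀ s, MeasurableSet {U | P U s}) {p : ℝ} (h0 : 0 ≤ p)
    (h1 : p ≤ 1)
    (hdisj : ∀ U s s', P U s → P U s' → ∀ v, v ∈ V s → v ∈ V s' → s = s')
    (hloc : ∀ U s, ∀ e : Edge n, (∀ v ∈ e.1, v ∉ V s) → (P (Function.update U e 1) s ↔ P U s))
    (hthr : ∀ U s, ∀ e : Edge n, p < U e → (P (Function.update U e 1) s ↔ P U s))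
    {t : ℝ} (ht : 0 < t) :
    (mu n).real {U | t ≤ |((univ.filter fun s => P U s).card : ℝ) -
      ∑ s : T, (mu n).real {U | P U s}|} ≤ 4 * (Fintype.card (Edge n) * p) / t ^ 2 := by
  have hm := meas_count P hP
  have hi := int_count P hP
  rw [← hi]
  have hdiff : ∀ e U, |((univ.filter fun s => P U s).card : ℝ) -
      ((univ.filter fun s => P (Function.update U e 1) s).card : ℝ)| ≤ 2 := by
    intro e U
    -- those which touch `e`
    have htouch : ∀ W : Edge n → ℝ,
        (univ.filter fun s => P W s ∧ ∃ v ∈ e.1, v ∈ V s).card ≤ 2 := by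
      intro W
      rw [← card_ends e]
      refine Finset.card_le_card_of_forall_subsingleton (fun s v => v ∈ V s) ?_ ?_
      · intro s hs
        obtain ⟨_, _, v, hv1, hv2⟩ := Finset.mem_filter.1 hs
        exact ⟨v, Finset.mem_filter.2 ⟨Finset.mem_univ _, hv1⟩, hv2⟩
      · intro v _ s hs s' hs'
        exact hdisj W s s' (Finset.mem_filter.1 hs.1).2.1 (Finset.mem_filter.1 hs'.1).2.1 v hs.2
          hs'.2
    have hsplit : ∀ W : Edge n → ℝ, (univ.filter fun s => P W s).card =
        (univ.filter fun s => P W s ∧ ∃ v ∈ e.1, v ∈ V s).card +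
        (univ.filter fun s => P W s ∧ ¬ ∃ v ∈ e.1, v ∈ V s).card := by
      intro W
      rw [← Finset.card_filter_add_card_filter_not (s := univ.filter fun s => P W s)
        (fun s => ∃ v ∈ e.1, v ∈ V s), Finset.filter_filter, Finset.filter_filter]
    have hsame : (univ.filter fun s => P U s ∧ ¬ ∃ v ∈ e.1, v ∈ V s)
        = univ.filter fun s => P (Function.update U e 1) s ∧ ¬ ∃ v ∈ e.1, v ∈ V s := by
      ext s
      simp only [Finset.mem_filter, Finset.mem_univ, true_and]
      constructor
      · rintro ⟨h2, h3⟩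
        refine ⟨(hloc U s e ?_).2 h2, h3⟩
        intro v hv hv'
        exact h3 ⟨v, hv, hv'⟩
      · rintro ⟨h2, h3⟩
        refine ⟨(hloc U s e ?_).1 h2, h3⟩
        intro v hv hv'
        exact h3 ⟨v, hv, hv'⟩
    have e1 := hsplit U
    have e2 := hsplit (Function.update U e 1)
    rw [hsame] at e1
    have b1 := htouch U
    have b2 := htouch (Function.update U e 1)
    rw [abs_le]
    constructor
    · have : (univ.filter fun s => P (Function.update U e 1) s).card ≤
        (univ.filter fun s => P U s).card + 2 := by omega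
      have : ((univ.filter fun s => P (Function.update U e 1) s).card : ℝ) ≤
        (univ.filter fun s => P U s).card + 2 := by exact_mod_cast this
      linarith
    · have : (univ.filter fun s => P U s).card ≤
        (univ.filter fun s => P (Function.update U e 1) s).card + 2 := by omega
      have : ((univ.filter fun s => P U s).card : ℝ) ≤
        (univ.filter fun s => P (Function.update U e 1) s).card + 2 := by exact_mod_cast this
      linarith
  have key := conc n (fun U => ((univ.filter fun s => P U s).card : ℝ)) hm (Fintype.card T)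
    (fun U => by
      rw [abs_of_nonneg (Nat.cast_nonneg _)]
      exact_mod_cast Finset.card_le_univ _) 2 (fun e => {U | U e ∈ Set.Iic p})
    (fun e => measurable_pi_apply e measurableSet_Iic)
    (fun e U hU => by
      have hU' : p < U e := not_le.1 hU
      congr 2
      ext s
      simp only [Finset.mem_filter, Finset.mem_univ, true_and]
      exact hthr U s e hU')
    hdiff ht
  refine key.trans (le_of_eq ?_)
  have : ∀ e : Edge n, (mu n).real {U | U e ∈ Set.Iic p} = p := fun e => by
    rw [mu_coord e measurableSet_Iic, nu_Iic h0 h1]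
  simp only [this]
  rw [Finset.sum_const, Finset.card_univ, nsmul_eq_mul]
  ring

end Pool.Agent.V7H95.Bgt
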