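import Mathlib

/-!
# The budget-constrained random graph process: definitions

The edges of the complete graph on `Fin n` are shown one by one; Builder decides, knowing only the
edge shown and his own present graph, whether he buys the edge.
-/

namespace Pool.Agent.V7H95.Bgt

open Finset

set_option autoImplicit false

/-- The edges of the complete graph on `Fin n`. -/
abbrev Edge (n : ℕ) : Type := {e : Sym2 (Fin n) // ¬ e.IsDiag}

/-- An order in which the edges are shown (steps are numbered `0, 1, 2, ...`). -/
abbrev Ordering (n : ℕ) : Type := Fin (n.choose 2) ≃ Edge n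

/-- The probability of an event under the uniformly random ordering. -/
noncomputable def prob (n : ℕ) (A : Ordering n → Prop) : ℝ :=
  (Nat.card {σ : Ordering n // A σ} : ℝ) / (Nat.card (Ordering n) : ℝ)

open Classical in
/-- The degree of `v` in the graph with edge set `F`. -/
noncomputable def deg {n : ℕ} (F : Finset (Edge n)) (v : Fin n) : ℕ :=
  (F.filter fun e => v ∈ e.1).card

open Classical in
/-- The edges shown in the first `t` steps. -/
noncomputable def shown {n : ℕ} (σ : Ordering n) (t : ℕ) : Finset (Edge n) :=
  univ.filter fun e => (σ.symm e : ℕ) < t

/-- The hitting time of minimum degree at least `k`. -/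
noncomputable def tau {n : ℕ} (k : ℕ) (σ : Ordering n) : ℕ :=
  sInf {t : ℕ | ∀ v : Fin n, k ≤ deg (shown σ t) v}

/-- A rule of Builder: `S B e` says that he buys the edge `e` if it is shown when his graph is
`B`. -/
abbrev Rule (n : ℕ) : Type := Finset (Edge n) → Edge n → Prop

open Classical in
/-- Builder's graph after `t` steps, if he follows the rule `S`. -/
noncomputable def built {n : ℕ} (S : Rule n) (σ : Ordering n) : ℕ → Finset (Edge n)
  | 0 => ∅
  | t + 1 =>
    if h : t < n.choose 2 then
      (if S (built S σ t) (σ ⟨t, h⟩) then insert (σ ⟨t, h⟩) (built S σ t) else built S σ t)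
    else built S σ t

open Classical in
/-- The edges which are among the first `k` edges at one of their ends (the random
`k`-nearest neighbour graph, if the edges are ordered by length). -/
noncomputable def near {n : ℕ} (k : ℕ) (σ : Ordering n) : Finset (Edge n) :=
  univ.filter fun e => ∃ v ∈ e.1, (univ.filter fun e' : Edge n => v ∈ e'.1 ∧
    (σ.symm e' : ℕ) < (σ.symm e : ℕ)).card < k

end Pool.Agent.V7H95.Bgt
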