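import Pool.Agent.V7H95.Bgt.Comp

/-!
# Vertices of small degree
-/

namespace Pool.Agent.V7H95.Bgt

open Finset MeasureTheory ProbabilityTheory
open scoped ENNReal

set_option autoImplicit false

variable {n : ℕ}

open Classical in
/-- fewer than `k` edges of `F` have a label in `X`, the others have a label in `Y` -/
def Few (k : ℕ) (F : Finset (Edge n)) (X Y : Set ℝ) (U : Edge n → ℝ) : Prop :=
  (∀ e ∈ F, U e ∈ X ∪ Y) ∧ (F.filter fun e => U e ∈ X).card < k

/-- its probability -/
noncomputable def gk (k M : ℕ) (x y : ℝ) : ℝ :=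
  ∑ j ∈ range k, (M.choose j : ℝ) * (x ^ j * y ^ (M - j))

open Classical in
theorem few_eq (k : ℕ) (F : Finset (Edge n)) {X Y : Set ℝ} (hXY : Disjoint X Y) :
    {U : Edge n → ℝ | Few k F X Y U} = ⋃ A ∈ F.powerset.filter (fun A => A.card < k),
      {U : Edge n → ℝ | ∀ e ∈ F, U e ∈ (if e ∈ A then X else Y)} := by
  ext U
  simp only [Few, Set.mem_ofPred_eq, Set.mem_iUnion, Finset.mem_filter, Finset.mem_powerset,
    exists_prop]
  constructor
  · rintro ⟨h1, h2⟩
    refine ⟨F.filter fun e => U e ∈ X, ⟨Finset.filter_subset _ _, h2⟩, ?_⟩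
    intro e he
    by_cases h : U e ∈ X
    · rw [if_pos (Finset.mem_filter.2 ⟨he, h⟩)]
      exact h
    · have hn' : e ∉ F.filter fun e => U e ∈ X := fun h' => h (Finset.mem_filter.1 h').2
      rw [if_neg hn']
      exact (h1 e he).resolve_left h
  · rintro ⟨A, ⟨h1, h2⟩, h3⟩
    have h4 : (F.filter fun e => U e ∈ X) = A := by
      ext e
      rw [Finset.mem_filter]
      constructor
      · rintro ⟨he, hX⟩
        by_contra hA
        have := h3 e he
        rw [if_neg hA] at this
        exact Set.disjoint_left.1 hXY hX this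
      · intro hA
        have := h3 e (h1 hA)
        rw [if_pos hA] at this
        exact ⟨h1 hA, this⟩
    refine ⟨?_, by rw [h4]; exact h2⟩
    intro e he
    have := h3 e he
    split_ifs at this
    · exact Or.inl this
    · exact Or.inr this

theorem meas_few (k : ℕ) (F : Finset (Edge n)) {X Y : Set ℝ} (hXY : Disjoint X Y)
    (hX : MeasurableSet X) (hY : MeasurableSet Y) (m : MeasurableSpace (Edge n → ℝ))
    (hm : ∀ e ∈ F, Measurable[m] fun U : Edge n → ℝ => U e) :
    MeasurableSet[m] {U : Edge n → ℝ | Few k F X Y U} := by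
  classical
  rw [few_eq k F hXY]
  refine Finset.measurableSet_biUnion _ fun A _ => ?_
  have : {U : Edge n → ℝ | ∀ e ∈ F, U e ∈ (if e ∈ A then X else Y)} =
      ⋂ e ∈ F, {U | U e ∈ (if e ∈ A then X else Y)} := by
    ext U
    simp only [Set.mem_ofPred_eq, Set.mem_iInter]
  rw [this]
  refine Finset.measurableSet_biInter _ fun e he => ?_
  refine hm e he ?_
  split_ifs
  · exact hX
  · exact hY

theorem few_prob (k : ℕ) (F : Finset (Edge n)) {X Y : Set ℝ} (hXY : Disjoint X Y)
    (hX : MeasurableSet X) (hY : MeasurableSet Y) :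
    (mu n).real {U : Edge n → ℝ | Few k F X Y U} = gk k F.card (nu.real X) (nu.real Y) := by
  classical
  rw [few_eq k F hXY, measureReal_biUnion_finset]
  · have h1 : ∀ A ∈ F.powerset.filter (fun A => A.card < k),
        (mu n).real {U : Edge n → ℝ | ∀ e ∈ F, U e ∈ (if e ∈ A then X else Y)} =
        nu.real X ^ A.card * nu.real Y ^ (F.card - A.card) := by
      intro A hA
      rw [Finset.mem_filter, Finset.mem_powerset] at hA
      have hsm : ∀ e : Edge n, MeasurableSet (if e ∈ A then X else Y) := by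
        intro e
        split_ifs
        · exact hX
        · exact hY
      have key := (indep_coord n).measure_inter_preimage_eq_mul F
        (sets := fun e => if e ∈ A then X else Y) (fun e _ => hsm e)
      have hset : (⋂ i ∈ F, (fun U : Edge n → ℝ => U i) ⁻¹' (if i ∈ A then X else Y))
          = {U : Edge n → ℝ | ∀ e ∈ F, U e ∈ (if e ∈ A then X else Y)} := by
        ext U
        simp only [Set.mem_iInter, Set.mem_preimage, Set.mem_ofPred_eq]
      rw [hset] at key
      have key2 := congrArg ENNReal.toReal key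
      rw [ENNReal.toReal_prod] at key2
      have hr : ∀ e, ((mu n) ((fun U : Edge n → ℝ => U e) ⁻¹' (if e ∈ A then X else Y))).toReal
          = if e ∈ A then nu.real X else nu.real Y := by
        intro e
        have := mu_coord e (hsm e)
        rw [Measure.real] at this
        refine Eq.trans this ?_
        split_ifs <;> rfl
      simp only [hr] at key2
      rw [Measure.real, key2, Finset.prod_ite, Finset.prod_const, Finset.prod_const,
        Finset.filter_mem_eq_inter, Finset.inter_eq_right.2 hA.1]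
      congr 2
      have h2 := Finset.card_filter_add_card_filter_not (s := F) (fun e => e ∈ A)
      rw [Finset.filter_mem_eq_inter, Finset.inter_eq_right.2 hA.1] at h2
      omega
    rw [Finset.sum_congr rfl h1, Finset.sum_filter]
    have h2 := Finset.sum_powerset_apply_card (fun j => if j < k then
      nu.real X ^ j * nu.real Y ^ (F.card - j) else 0) (x := F)
    rw [h2]
    unfold gk
    simp only [nsmul_eq_mul, mul_ite, mul_zero]
    rw [← Finset.sum_filter]
    have h3 : ((range (F.card + 1)).filter fun j => j < k) ⊆ range k := by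
      intro j hj
      rw [Finset.mem_filter] at hj
      exact Finset.mem_range.2 hj.2
    refine Finset.sum_subset h3 ?_
    intro j hj hj'
    rw [Finset.mem_range] at hj
    rw [Finset.mem_filter, Finset.mem_range] at hj'
    have : F.card < j := by
      by_contra hcon
      exact hj' ⟨by omega, hj⟩
    rw [Nat.choose_eq_zero_of_lt this]
    simp
  · intro A hA B hB hAB
    rw [Function.onFun, Set.disjoint_left]
    intro U hU hU'
    apply hAB
    have hA' := (Finset.mem_powerset.1 (Finset.mem_filter.1 hA).1)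
    have hB' := (Finset.mem_powerset.1 (Finset.mem_filter.1 hB).1)
    have aux : ∀ A B : Finset (Edge n), A ⊆ F → B ⊆ F →
        (∀ e ∈ F, U e ∈ (if e ∈ A then X else Y)) → (∀ e ∈ F, U e ∈ (if e ∈ B then X else Y)) →
        A ⊆ B := by
      intro A B hA hB h1 h2 e he
      by_contra hcon
      have h3 := h1 e (hA he)
      have h4 := h2 e (hA he)
      rw [if_pos he] at h3
      rw [if_neg hcon] at h4
      exact Set.disjoint_left.1 hXY h3 h4
    exact Finset.Subset.antisymm (aux A B hA' hB' hU hU') (aux B A hB' hA' hU' hU)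
  · intro A _
    have : {U : Edge n → ℝ | ∀ e ∈ F, U e ∈ (if e ∈ A then X else Y)} =
        ⋂ e ∈ F, {U | U e ∈ (if e ∈ A then X else Y)} := by
      ext U
      simp only [Set.mem_ofPred_eq, Set.mem_iInter]
    rw [this]
    refine Finset.measurableSet_biInter _ fun e he => ?_
    refine measurable_pi_apply e ?_
    split_ifs
    · exact hX
    · exact hY

/-- independence of the events for disjoint sets of edges -/
theorem few_inter (k : ℕ) (F F' : Finset (Edge n)) (hd : Disjoint F F') {X Y : Set ℝ}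
    (hXY : Disjoint X Y) (hX : MeasurableSet X) (hY : MeasurableSet Y) :
    (mu n).real ({U : Edge n → ℝ | Few k F X Y U} ∩ {U : Edge n → ℝ | Few k F' X Y U}) =
      gk k F.card (nu.real X) (nu.real Y) * gk k F'.card (nu.real X) (nu.real Y) := by
  classical
  set m : Edge n → MeasurableSpace (Edge n → ℝ) :=
    fun e => MeasurableSpace.comap (fun U : Edge n → ℝ => U e) inferInstance with hm
  have hle : ∀ e, m e ≤ MeasurableSpace.pi := fun e => (measurable_pi_apply e).comap_le
  have hind : iIndep m (mu n) := indep_coord n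
  have h1 := indep_iSup_of_disjoint hle hind (S := (F : Set (Edge n)))
    (T := (F' : Set (Edge n))) (Finset.disjoint_coe.2 hd)
  have h2 : ∀ G : Finset (Edge n),
      MeasurableSet[⨆ i ∈ (G : Set (Edge n)), m i] {U : Edge n → ℝ | Few k G X Y U} := by
    intro G
    refine meas_few k G hXY hX hY _ ?_
    intro e he
    have h3 : m e ≤ ⨆ i ∈ (G : Set (Edge n)), m i :=
      le_iSup₂_of_le e (by exact he) le_rfl
    exact (comap_measurable (fun U : Edge n → ℝ => U e)).mono h3 le_rfl
  have h3 := (Indep_iff _ _ _).1 h1 _ _ (h2 F) (h2 F')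
  have h4 := congrArg ENNReal.toReal h3
  rw [ENNReal.toReal_mul] at h4
  have h5 := few_prob k F hXY hX hY
  have h6 := few_prob k F' hXY hX hY
  rw [Measure.real] at h5 h6
  rw [Measure.real, h4, h5, h6]

open Classical in
theorem few_mono {k : ℕ} {F G : Finset (Edge n)} {X Y : Set ℝ} {U : Edge n → ℝ} (hGF : G ⊆ F)
    (h : Few k F X Y U) : Few k G X Y U := by
  obtain ⟨h3, h4⟩ := h
  refine ⟨fun e he => h3 e (hGF he), lt_of_le_of_lt (Finset.card_le_card ?_) h4⟩
  intro e he
  rw [Finset.mem_filter] at he ⊢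
  exact ⟨hGF he.1, he.2⟩

theorem gk_nonneg (k M : ℕ) {x y : ℝ} (hx : 0 ≤ x) (hy : 0 ≤ y) : 0 ≤ gk k M x y := by
  unfold gk
  exact Finset.sum_nonneg fun j _ => by positivity

/-- changing the probability of `Y` -/
theorem gk_le_exp (k M : ℕ) {x y z : ℝ} (hx : 0 ≤ x) (hy : 0 < y) (hz : 0 ≤ z) :
    gk k M x (y + z) ≤ gk k M x y * Real.exp (M * (z / y)) := by
  unfold gk
  rw [Finset.sum_mul]
  refine Finset.sum_le_sum fun j _ => ?_
  have h1 : (y + z) ^ (M - j) ≤ y ^ (M - j) * Real.exp (M * (z / y)) := by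
    have h2 : y + z = y * (1 + z / y) := by field_simp
    rw [h2, mul_pow]
    refine mul_le_mul_of_nonneg_left ?_ (by positivity)
    have h3 : 0 ≤ z / y := by positivity
    calc (1 + z / y) ^ (M - j) ≤ (1 + z / y) ^ M :=
          pow_le_pow_right₀ (by linarith) (Nat.sub_le _ _)
      _ ≤ (Real.exp (z / y)) ^ M := by
          refine pow_le_pow_left₀ (by linarith) ?_ M
          rw [add_comm]
          exact Real.add_one_le_exp _
      _ = Real.exp (M * (z / y)) := by rw [← Real.exp_nat_mul]
  calc (M.choose j : ℝ) * (x ^ j * (y + z) ^ (M - j))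
      ≤ (M.choose j : ℝ) * (x ^ j * (y ^ (M - j) * Real.exp (M * (z / y)))) := by
        refine mul_le_mul_of_nonneg_left ?_ (by positivity)
        exact mul_le_mul_of_nonneg_left h1 (by positivity)
    _ = _ := by ring

/-- leaving out an edge -/
theorem gk_succ (k M : ℕ) {x y : ℝ} (hx : 0 ≤ x) (hy : 0 ≤ y) (hy1 : y ≤ 1) :
    y * gk k M x y ≤ gk k (M + 1) x y := by
  unfold gk
  rw [Finset.mul_sum]
  refine Finset.sum_le_sum fun j _ => ?_
  by_cases hj : j ≤ M
  · have h1 : M + 1 - j = (M - j) + 1 := by omega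
    rw [h1, pow_succ]
    have h2 : (M.choose j : ℝ) ≤ ((M + 1).choose j : ℝ) := by
      exact_mod_cast Nat.choose_le_choose j (Nat.le_succ M)
    calc y * ((M.choose j : ℝ) * (x ^ j * y ^ (M - j)))
        = (M.choose j : ℝ) * (x ^ j * (y ^ (M - j) * y)) := by ring
      _ ≤ _ := mul_le_mul_of_nonneg_right h2 (by positivity)
  · rw [Nat.choose_eq_zero_of_lt (not_le.1 hj)]
    simp only [Nat.cast_zero, zero_mul, mul_zero]
    positivity

/-- the event that `v` has no label at most `p` and fewer than `k` labels in `(p,q]` -/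
def Late (k : ℕ) (p q : ℝ) (v : Fin n) (U : Edge n → ℝ) : Prop :=
  Few k (univ.filter fun e : Edge n => v ∈ e.1) (Set.Ioc p q) (Set.Ioi q) U

theorem disj_IocIoi (p q : ℝ) : Disjoint (Set.Ioc p q) (Set.Ioi q) := by
  rw [Set.disjoint_left]
  rintro x ⟨_, h1⟩ h2
  exact absurd h1 (not_le.2 h2)

theorem meas_late (k : ℕ) (p q : ℝ) (v : Fin n) : MeasurableSet {U | Late k p q v U} :=
  meas_few k _ (disj_IocIoi p q) measurableSet_Ioc measurableSet_Ioi _
    (fun e _ => measurable_pi_apply e)

theorem late_prob (k : ℕ) {p q : ℝ} (h0 : 0 ≤ p) (h1 : p ≤ q) (h2 : q ≤ 1) (v : Fin n) :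
    (mu n).real {U | Late k p q v U} = gk k (n - 1) (q - p) (1 - q) := by
  unfold Late
  rw [few_prob k _ (disj_IocIoi p q) measurableSet_Ioc measurableSet_Ioi, card_at,
    nu_Ioc h0 h1 h2, nu_Ioi (h0.trans h1) h2]

theorem late_pair (k : ℕ) (hn : 2 ≤ n) {p q : ℝ} (h0 : 0 ≤ p) (h1 : p ≤ q) (h2 : q ≤ 1)
    {u v : Fin n} (huv : u ≠ v) :
    (mu n).real {U | Late k p q u U ∧ Late k p q v U} ≤ gk k (n - 2) (q - p) (1 - q) ^ 2 := by
  classical
  set e0 : Edge n := ⟨s(u, v), by rw [Sym2.mk_isDiag_iff]; exact huv⟩ with he0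
  set Fu : Finset (Edge n) := (univ.filter fun e : Edge n => u ∈ e.1).erase e0 with hFu
  set Fv : Finset (Edge n) := (univ.filter fun e : Edge n => v ∈ e.1).erase e0 with hFv
  have hcu : Fu.card = n - 2 := by
    rw [hFu, Finset.card_erase_of_mem, card_at]
    · omega
    · rw [Finset.mem_filter]
      exact ⟨Finset.mem_univ _, Sym2.mem_mk_left _ _⟩
  have hcv : Fv.card = n - 2 := by
    rw [hFv, Finset.card_erase_of_mem, card_at]
    · omega
    · rw [Finset.mem_filter]
      exact ⟨Finset.mem_univ _, Sym2.mem_mk_right _ _⟩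
  have hd : Disjoint Fu Fv := by
    rw [Finset.disjoint_left]
    intro e he he'
    rw [hFu, Finset.mem_erase, Finset.mem_filter] at he
    rw [hFv, Finset.mem_erase, Finset.mem_filter] at he'
    apply he.1
    apply Subtype.ext
    exact (Sym2.mem_and_mem_iff huv).1 ⟨he.2.2, he'.2.2⟩
  have hmono : ∀ (F G : Finset (Edge n)) (U : Edge n → ℝ), G ⊆ F →
      Few k F (Set.Ioc p q) (Set.Ioi q) U → Few k G (Set.Ioc p q) (Set.Ioi q) U :=
    fun F G U hGF h => few_mono hGF h
  have hsub : {U | Late k p q u U ∧ Late k p q v U} ⊆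
      {U : Edge n → ℝ | Few k Fu (Set.Ioc p q) (Set.Ioi q) U} ∩
        {U : Edge n → ℝ | Few k Fv (Set.Ioc p q) (Set.Ioi q) U} := by
    rintro U ⟨h3, h4⟩
    exact ⟨hmono _ _ U (Finset.erase_subset _ _) h3, hmono _ _ U (Finset.erase_subset _ _) h4⟩
  refine (measureReal_mono hsub).trans ?_
  rw [few_inter k Fu Fv hd (disj_IocIoi p q) measurableSet_Ioc measurableSet_Ioi, hcu, hcv,
    nu_Ioc h0 h1 h2, nu_Ioi (h0.trans h1) h2, sq]

open Classical in
/-- some vertex is late, with large probability -/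
theorem late_exists (k : ℕ) (hn : 2 ≤ n) {p q M : ℝ} (h0 : 0 ≤ p) (h1 : p ≤ q) (h2 : q < 1)
    (hM : 0 < M) (hMe : n * gk k (n - 1) (q - p) (1 - q) = M) :
    (mu n).real {U | ∀ v : Fin n, ¬ Late k p q v U} ≤ 1 / M + (1 / (1 - q) ^ 2 - 1) := by
  set f : (Edge n → ℝ) → ℝ := fun U => ((univ.filter fun v : Fin n => Late k p q v U).card : ℝ)
    with hf
  have hfm : Measurable f := meas_count (fun U v => Late k p q v U) (meas_late k p q)
  have hfi : ∫ U, f U ∂(mu n) = M := by
    rw [hf, int_count (fun U v => Late k p q v U) (meas_late k p q)]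
    simp only [late_prob k h0 h1 h2.le]
    rw [Finset.sum_const, Finset.card_univ, Fintype.card_fin, nsmul_eq_mul, hMe]
  have hfb : ∀ U, |f U| ≤ n := by
    intro U
    simp only [hf]
    rw [abs_of_nonneg (Nat.cast_nonneg _)]
    have := Finset.card_le_univ (univ.filter fun v : Fin n => Late k p q v U)
    rw [Fintype.card_fin] at this
    exact_mod_cast this
  have hsq : ∫ U, f U ^ 2 ∂(mu n) ≤ M + M ^ 2 / (1 - q) ^ 2 := by
    have h3 : ∀ U, f U ^ 2 = ((univ.filter fun uv : Fin n × Fin n =>
        Late k p q uv.1 U ∧ Late k p q uv.2 U).card : ℝ) := by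
      intro U
      have : (univ.filter fun uv : Fin n × Fin n => Late k p q uv.1 U ∧ Late k p q uv.2 U)
          = (univ.filter fun v : Fin n => Late k p q v U) ×ˢ
            (univ.filter fun v : Fin n => Late k p q v U) := by
        ext uv
        simp only [Finset.mem_filter, Finset.mem_univ, true_and, Finset.mem_product]
      rw [this, Finset.card_product, hf]
      push_cast
      ring
    simp only [h3]
    rw [int_count (fun U (uv : Fin n × Fin n) => Late k p q uv.1 U ∧ Late k p q uv.2 U)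
      (fun uv => (meas_late k p q uv.1).inter (meas_late k p q uv.2))]
    have h4 : ∀ uv : Fin n × Fin n, (mu n).real {U | Late k p q uv.1 U ∧ Late k p q uv.2 U} ≤
        (if uv.1 = uv.2 then gk k (n - 1) (q - p) (1 - q) else 0) +
          gk k (n - 2) (q - p) (1 - q) ^ 2 := by
      rintro ⟨u, v⟩
      by_cases huv : u = v
      · subst huv
        simp only [and_self, if_true]
        rw [late_prob k h0 h1 h2.le]
        have := sq_nonneg (gk k (n - 2) (q - p) (1 - q))
        linarith
      · simp only [huv, if_false, zero_add]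
        exact late_pair k hn h0 h1 h2.le huv
    refine (Finset.sum_le_sum fun uv _ => h4 uv).trans ?_
    rw [Finset.sum_add_distrib]
    have h5 : ∑ uv : Fin n × Fin n,
        (if uv.1 = uv.2 then gk k (n - 1) (q - p) (1 - q) else 0) = M := by
      rw [Fintype.sum_prod_type]
      simp only [Finset.sum_ite_eq, Finset.mem_univ, if_true]
      rw [Finset.sum_const, Finset.card_univ, Fintype.card_fin, nsmul_eq_mul, hMe]
    rw [h5, Finset.sum_const, Finset.card_univ, Fintype.card_prod, Fintype.card_fin, nsmul_eq_mul]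
    have h6 := gk_succ k (n - 2) (x := q - p) (y := 1 - q) (by linarith) (by linarith)
      (by linarith)
    have h7 : n - 2 + 1 = n - 1 := by omega
    rw [h7] at h6
    have hy : (0 : ℝ) < 1 - q := by linarith
    have h8 : (n : ℝ) * gk k (n - 2) (q - p) (1 - q) ≤ M / (1 - q) := by
      rw [le_div_iff₀ hy, ← hMe]
      calc (n : ℝ) * gk k (n - 2) (q - p) (1 - q) * (1 - q)
          = n * ((1 - q) * gk k (n - 2) (q - p) (1 - q)) := by ring
        _ ≤ _ := mul_le_mul_of_nonneg_left h6 (Nat.cast_nonneg _)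
    have h9 : (0 : ℝ) ≤ n * gk k (n - 2) (q - p) (1 - q) :=
      mul_nonneg (Nat.cast_nonneg _) (gk_nonneg _ _ (by linarith) hy.le)
    have h10 : ((n * n : ℕ) : ℝ) * gk k (n - 2) (q - p) (1 - q) ^ 2 ≤ M ^ 2 / (1 - q) ^ 2 := by
      rw [← div_pow]
      calc ((n * n : ℕ) : ℝ) * gk k (n - 2) (q - p) (1 - q) ^ 2
          = (n * gk k (n - 2) (q - p) (1 - q)) ^ 2 := by push_cast; ring
        _ ≤ _ := pow_le_pow_left₀ h9 h8 2
    linarith
  have hint : Integrable f (mu n) :=
    Integrable.of_bound hfm.aestronglyMeasurable n (ae_of_all _ fun U => by simpa using hfb U)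
  have hint2 : Integrable (fun U => f U ^ 2) (mu n) := by
    refine Integrable.of_bound (hfm.pow_const 2).aestronglyMeasurable ((n : ℝ) ^ 2)
      (ae_of_all _ fun U => ?_)
    rw [Real.norm_eq_abs, abs_pow]
    exact pow_le_pow_left₀ (abs_nonneg _) (hfb U) 2
  have hvar : ∫ U, (f U - ∫ V, f V ∂(mu n)) ^ 2 ∂(mu n) = ∫ U, f U ^ 2 ∂(mu n) - M ^ 2 := by
    rw [hfi]
    have h3 : ∀ U, (f U - M) ^ 2 = f U ^ 2 - (2 * M * f U - M ^ 2) := fun U => by ring
    simp only [h3]
    have i1 : Integrable (fun U => 2 * M * f U) (mu n) := hint.const_mul _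
    have i2 : Integrable (fun _ : Edge n → ℝ => M ^ 2) (mu n) := integrable_const _
    have i3 : Integrable (fun U => 2 * M * f U - M ^ 2) (mu n) := i1.sub i2
    rw [integral_sub hint2 i3, integral_sub i1 i2, integral_const_mul, hfi,
      integral_const]
    simp only [probReal_univ, smul_eq_mul, one_mul]
    ring
  have key := cheb n f hfm n hfb hM
  rw [hvar] at key
  have hsub : {U | ∀ v : Fin n, ¬ Late k p q v U} ⊆ {U | M ≤ |f U - ∫ V, f V ∂(mu n)|} := by
    intro U hU
    simp only [Set.mem_ofPred_eq] at hU ⊢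
    have : f U = 0 := by
      rw [hf]
      simp only [Nat.cast_eq_zero, Finset.card_eq_zero, Finset.filter_eq_empty_iff,
        Finset.mem_univ, true_implies]
      exact hU
    rw [this, hfi, zero_sub, abs_neg, abs_of_pos hM]
  refine (measureReal_mono hsub).trans (key.trans ?_)
  rw [div_le_iff₀ (by positivity)]
  have hy : (0 : ℝ) < 1 - q := by linarith
  have h11 : (1 / M + (1 / (1 - q) ^ 2 - 1)) * M ^ 2 = M + M ^ 2 / (1 - q) ^ 2 - M ^ 2 := by
    field_simp
    ring
  rw [h11]
  linarith

open Classical in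
/-- no vertex has a label at most `p` and fewer than `k` labels in `(p,q]`, with large
probability -/
theorem bad_union (k : ℕ) {p q M : ℝ} (h0 : 0 ≤ p) (h1 : p ≤ q) (h2 : q < 1)
    (hMe : n * gk k (n - 1) (q - p) (1 - q) = M) :
    (mu n).real {U | ∃ v : Fin n, ¬ ((∀ e : Edge n, v ∈ e.1 → p < U e) ∨
      k ≤ (univ.filter fun e : Edge n => v ∈ e.1 ∧ p < U e ∧ U e ≤ q).card)} ≤
      M * (Real.exp (n * (p / (1 - q))) - 1) := by
  have hy : (0 : ℝ) < 1 - q := by linarith
  set Z : Set ℝ := (Set.Ioc p q)ᶜ with hZ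
  have hXZ : Disjoint (Set.Ioc p q) Z := disjoint_compl_right
  have hZm : MeasurableSet Z := measurableSet_Ioc.compl
  have hZn : nu.real Z = (1 - q) + p := by
    rw [hZ, probReal_compl_eq_one_sub measurableSet_Ioc, nu_Ioc h0 h1 h2.le]
    ring
  set Fv : Fin n → Finset (Edge n) := fun v => univ.filter fun e : Edge n => v ∈ e.1 with hFv
  have hsub : {U : Edge n → ℝ | ∃ v : Fin n, ¬ ((∀ e : Edge n, v ∈ e.1 → p < U e) ∨
      k ≤ (univ.filter fun e : Edge n => v ∈ e.1 ∧ p < U e ∧ U e ≤ q).card)} ⊆
      ⋃ v : Fin n, ({U | Few k (Fv v) (Set.Ioc p q) Z U} \ {U | Late k p q v U}) := by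
    rintro U ⟨v, hv⟩
    push Not at hv
    obtain ⟨⟨e, he, hpe⟩, hc⟩ := hv
    refine Set.mem_iUnion.2 ⟨v, ⟨?_, ?_⟩, ?_⟩
    · intro e _
      by_cases h : U e ∈ Set.Ioc p q
      · exact Or.inl h
      · exact Or.inr h
    · refine lt_of_le_of_lt (Finset.card_le_card ?_) hc
      intro e' he'
      simp only [hFv, Finset.mem_filter, Finset.mem_univ, true_and] at he' ⊢
      exact ⟨he'.1, he'.2.1, he'.2.2⟩
    · rintro ⟨h3, _⟩
      rcases h3 e (Finset.mem_filter.2 ⟨Finset.mem_univ _, he⟩) with h | h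
      · exact absurd h.1 (not_lt.2 hpe)
      · have : q < U e := h
        linarith
  have hone : ∀ v : Fin n, (mu n).real ({U | Few k (Fv v) (Set.Ioc p q) Z U} \
      {U | Late k p q v U}) ≤ gk k (n - 1) (q - p) (1 - q) *
        (Real.exp (n * (p / (1 - q))) - 1) := by
    intro v
    have hlf : {U | Late k p q v U} ⊆ {U | Few k (Fv v) (Set.Ioc p q) Z U} := by
      rintro U ⟨h3, h4⟩
      refine ⟨fun e _ => ?_, h4⟩
      by_cases h : U e ∈ Set.Ioc p q
      · exact Or.inl h
      · exact Or.inr h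
    rw [measureReal_sdiff hlf (meas_late k p q v), late_prob k h0 h1 h2.le,
      few_prob k _ hXZ measurableSet_Ioc hZm, hZn, hFv, card_at, nu_Ioc h0 h1 h2.le]
    have h5 := gk_le_exp k (n - 1) (x := q - p) (y := 1 - q) (z := p) (by linarith) hy h0
    have h6 : Real.exp ((n - 1 : ℕ) * (p / (1 - q))) ≤ Real.exp (n * (p / (1 - q))) := by
      rw [Real.exp_le_exp]
      refine mul_le_mul_of_nonneg_right ?_ (by positivity)
      exact_mod_cast Nat.sub_le n 1
    have h7 := gk_nonneg k (n - 1) (x := q - p) (y := 1 - q) (by linarith) hy.le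
    have h8 := mul_le_mul_of_nonneg_left h6 h7
    linarith
  refine (measureReal_mono hsub).trans ?_
  refine (measureReal_iUnion_fintype_le _).trans ?_
  refine (Finset.sum_le_sum fun v _ => hone v).trans ?_
  rw [Finset.sum_const, Finset.card_univ, Fintype.card_fin, nsmul_eq_mul, ← mul_assoc, hMe]

end Pool.Agent.V7H95.Bgt
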