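import Pool.Agent.V7H95.Bgt.Defs

/-!
# Deterministic part: runs of a rule
-/

namespace Pool.Agent.V7H95.Bgt

open Finset

set_option autoImplicit false

variable {n : ℕ}

open Classical in
/-- `F` is the set of the edges bought when the edges are shown in the order of their labels. -/
def IsRun (S : Rule n) (U : Edge n → ℝ) (F : Finset (Edge n)) : Prop :=
  ∀ e, e ∈ F ↔ S (F.filter fun e' => U e' < U e) e

theorem mem_built (S : Rule n) (σ : Ordering n) (t : ℕ) (e : Edge n) :
    e ∈ built S σ t ↔ (σ.symm e : ℕ) < t ∧ S (built S σ (σ.symm e)) e := by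
  classical
  induction t with
  | zero => simp [built]
  | succ t ih =>
    rw [built]
    by_cases h : t < n.choose 2
    · rw [dif_pos h]
      by_cases he : e = σ ⟨t, h⟩
      · subst he
        rw [Equiv.symm_apply_apply]
        split_ifs with h1
        · simp [h1]
        · rw [ih]
          simp [h1]
      · have hne : (σ.symm e : ℕ) ≠ t := by
          intro h2
          apply he
          exact (Equiv.symm_apply_eq σ).1 (Fin.ext h2)
        split_ifs with h1
        · rw [Finset.mem_insert]
          constructor
          · rintro (h2 | h2)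
            · exact absurd h2 he
            · exact ⟨by have := (ih.1 h2).1; omega, (ih.1 h2).2⟩
          · rintro ⟨h2, h3⟩
            exact Or.inr (ih.2 ⟨by omega, h3⟩)
        · rw [ih]
          constructor
          · rintro ⟨h2, h3⟩
            exact ⟨by omega, h3⟩
          · rintro ⟨h2, h3⟩
            exact ⟨by omega, h3⟩
    · rw [dif_neg h, ih]
      have : (σ.symm e : ℕ) < n.choose 2 := (σ.symm e).2
      constructor
      · rintro ⟨h2, h3⟩
        exact ⟨by omega, h3⟩
      · rintro ⟨h2, h3⟩
        exact ⟨by omega, h3⟩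

open Classical in
theorem built_eq (S : Rule n) (σ : Ordering n) (t : ℕ) :
    built S σ t = (built S σ (n.choose 2)).filter fun e => (σ.symm e : ℕ) < t := by
  ext e
  rw [Finset.mem_filter, mem_built, mem_built S σ (n.choose 2)]
  have : (σ.symm e : ℕ) < n.choose 2 := (σ.symm e).2
  tauto

theorem lt_iff {σ : Ordering n} {U : Edge n → ℝ} (hU : StrictMono (U ∘ σ)) (e e' : Edge n) :
    U e' < U e ↔ (σ.symm e' : ℕ) < (σ.symm e : ℕ) := by
  have h := hU.lt_iff_lt (a := σ.symm e') (b := σ.symm e)
  simp only [Function.comp, Equiv.apply_symm_apply] at h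
  rw [h, Fin.lt_def]

theorem run_built (S : Rule n) {σ : Ordering n} {U : Edge n → ℝ} (hU : StrictMono (U ∘ σ)) :
    IsRun S U (built S σ (n.choose 2)) := by
  classical
  intro e
  rw [mem_built]
  have h1 : (σ.symm e : ℕ) < n.choose 2 := (σ.symm e).2
  have h2 : ((built S σ (n.choose 2)).filter fun e' => U e' < U e) = built S σ (σ.symm e) := by
    rw [built_eq S σ (σ.symm e)]
    ext e'
    rw [Finset.mem_filter, Finset.mem_filter, lt_iff hU]
  rw [h2]
  tauto

theorem run_unique {S : Rule n} {U : Edge n → ℝ} {F F' : Finset (Edge n)} (h : IsRun S U F)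
    (h' : IsRun S U F') : F = F' := by
  classical
  by_contra hne
  have hex : (univ.filter fun e : Edge n => ¬ (e ∈ F ↔ e ∈ F')).Nonempty := by
    by_contra hcon
    rw [Finset.not_nonempty_iff_eq_empty, Finset.filter_eq_empty_iff] at hcon
    apply hne
    ext e
    exact not_not.1 (hcon (Finset.mem_univ e))
  obtain ⟨e, he, hmin⟩ := Finset.exists_min_image _ U hex
  rw [Finset.mem_filter] at he
  apply he.2
  rw [h e, h' e]
  have : (F.filter fun e' => U e' < U e) = F'.filter fun e' => U e' < U e := by
    ext x
    rw [Finset.mem_filter, Finset.mem_filter]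
    by_cases hx : U x < U e
    · have : x ∈ F ↔ x ∈ F' := by
        by_contra hc
        have := hmin x (by rw [Finset.mem_filter]; exact ⟨Finset.mem_univ _, hc⟩)
        linarith
      tauto
    · tauto
  rw [this]

/-- the rule of Builder (without a limit on the number of edges bought) -/
def rule (k m : ℕ) : Rule n := fun B e =>
  (∀ w ∈ e.1, deg B w < k) ∨ (m ≤ B.card ∧ ∃ w ∈ e.1, deg B w < k)

/-- the rule of Builder: he buys at most `b` edges -/
def ruleb (k m b : ℕ) : Rule n := fun B e => B.card < b ∧ rule k m B e

theorem run_ruleb {k m b : ℕ} {U : Edge n → ℝ} {F : Finset (Edge n)} (h : IsRun (rule k m) U F)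
    (hF : F.card ≤ b) : IsRun (ruleb k m b) U F := by
  classical
  intro e
  unfold ruleb
  constructor
  · intro he
    refine ⟨?_, (h e).1 he⟩
    refine lt_of_lt_of_le (Finset.card_lt_card ?_) hF
    rw [Finset.filter_ssubset]
    exact ⟨e, he, lt_irrefl _⟩
  · rintro ⟨_, he⟩
    exact (h e).2 he

/-- the budget is kept -/
theorem card_built_le (k m b : ℕ) (σ : Ordering n) (t : ℕ) :
    (built (ruleb k m b) σ t).card ≤ b := by
  classical
  induction t with
  | zero => simp [built]
  | succ t ih =>
    rw [built]
    split_ifs with h1 h2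
    · refine (Finset.card_insert_le _ _).trans ?_
      exact h2.1
    · exact ih
    · exact ih

/-- the ranks in a finite set -/
theorem card_rank_lt {α : Type*} [DecidableEq α] (A : Finset α) (r : α → ℝ)
    (hr : Set.InjOn r (A : Set α)) (k : ℕ) :
    (A.filter fun a => (A.filter fun a' => r a' < r a).card < k).card = min k A.card := by
  set rk : α → ℕ := fun a => (A.filter fun a' => r a' < r a).card with hrk
  have hlt : ∀ a ∈ A, rk a < A.card := by
    intro a ha
    refine Finset.card_lt_card ?_
    rw [Finset.filter_ssubset]
    exact ⟨a, ha, lt_irrefl _⟩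
  have hmono : ∀ a ∈ A, ∀ b ∈ A, r a < r b → rk a < rk b := by
    intro a ha b hb hab
    refine Finset.card_lt_card ?_
    rw [Finset.ssubset_iff_of_subset]
    · refine ⟨a, ?_, ?_⟩
      · rw [Finset.mem_filter]
        exact ⟨ha, hab⟩
      · rw [Finset.mem_filter]
        rintro ⟨_, h⟩
        exact lt_irrefl _ h
    · intro x hx
      rw [Finset.mem_filter] at hx ⊢
      exact ⟨hx.1, hx.2.trans hab⟩
  have hinj : Set.InjOn rk (A : Set α) := by
    intro a ha b hb hab
    rcases lt_trichotomy (r a) (r b) with h | h | h
    · exact absurd hab (hmono a ha b hb h).ne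
    · exact hr ha hb h
    · exact absurd hab (hmono b hb a ha h).ne'
  have himg : A.image rk = range A.card := by
    apply Finset.eq_of_subset_of_card_le
    · intro x hx
      rw [Finset.mem_image] at hx
      obtain ⟨a, ha, rfl⟩ := hx
      rw [Finset.mem_range]
      exact hlt a ha
    · rw [Finset.card_image_of_injOn hinj, Finset.card_range]
  have h1 : (A.filter fun a => rk a < k).card = ((A.image rk).filter fun x => x < k).card := by
    rw [Finset.filter_image, Finset.card_image_of_injOn]
    exact hinj.mono (by intro x hx; exact (Finset.mem_filter.1 hx).1)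
  rw [h1, himg]
  have : (range A.card).filter (fun x => x < k) = range (min k A.card) := by
    ext x
    simp only [Finset.mem_filter, Finset.mem_range, lt_min_iff]
    tauto
  rw [this, Finset.card_range]

/-- the two ends of an edge -/
theorem card_ends (e : Edge n) : (univ.filter fun w : Fin n => w ∈ e.1).card = 2 := by
  classical
  obtain ⟨e, he⟩ := e
  induction e with
  | _ a b =>
    rw [Sym2.mk_isDiag_iff] at he
    have : (univ.filter fun w : Fin n => w ∈ s(a, b)) = {a, b} := by
      ext w
      simp [Sym2.mem_iff]
    rw [this, Finset.card_pair he]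

/-- the number of the edges at a vertex -/
theorem card_at (v : Fin n) : (univ.filter fun e : Edge n => v ∈ e.1).card = n - 1 := by
  classical
  have h1 : (univ.filter fun e : Edge n => v ∈ e.1)
      = (univ.filter fun x : Fin n => x ≠ v).attach.image (fun x => (⟨s(v, x.1), by
          rw [Sym2.mk_isDiag_iff]
          exact fun h => (Finset.mem_filter.1 x.2).2 h.symm⟩ : Edge n)) := by
    ext ⟨e, he⟩
    induction e with
    | _ a b =>
      rw [Sym2.mk_isDiag_iff] at he
      simp only [Finset.mem_filter, Finset.mem_univ, true_and, Finset.mem_image,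
        Finset.mem_attach, Subtype.mk.injEq, Subtype.exists]
      constructor
      · intro h
        rw [Sym2.mem_iff] at h
        rcases h with h | h
        · exact ⟨b, by rw [h]; exact Ne.symm he, by rw [h]⟩
        · exact ⟨a, by rw [h]; exact he, by rw [h]; exact Sym2.eq_swap⟩
      · rintro ⟨x, _, h⟩
        rw [← h]
        exact Sym2.mem_mk_left _ _
  rw [h1, Finset.card_image_of_injective, Finset.card_attach]
  · rw [Finset.filter_ne' univ v, Finset.card_erase_of_mem (Finset.mem_univ _), Finset.card_univ,
      Fintype.card_fin]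
  · intro x y hxy
    simp only [Subtype.mk.injEq, Sym2.congr_right] at hxy
    exact Subtype.ext hxy

open Classical in
/-- the edges which are useful for both ends when they are shown -/
noncomputable def both (k : ℕ) (U : Edge n → ℝ) (F : Finset (Edge n)) : Finset (Edge n) :=
  univ.filter fun e => ∀ w ∈ e.1, deg (F.filter fun e' => U e' < U e) w < k

open Classical in
/-- double counting -/
theorem sum_min_deg (k : ℕ) {U : Edge n → ℝ} (hU : Function.Injective U) (F : Finset (Edge n)) :
    ∑ w : Fin n, min k (deg F w) = ∑ e ∈ F, (univ.filter fun w : Fin n => w ∈ e.1 ∧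
      deg (F.filter fun e' => U e' < U e) w < k).card := by
  have h1 : ∀ w : Fin n, min k (deg F w) = (F.filter fun e => w ∈ e.1 ∧
      deg (F.filter fun e' => U e' < U e) w < k).card := by
    intro w
    unfold deg
    rw [← card_rank_lt (F.filter fun e => w ∈ e.1) U (hU.injOn) k, Finset.filter_filter]
    congr 1
    ext e
    simp only [Finset.mem_filter]
    refine and_congr_right fun _ => and_congr_right fun _ => ?_
    rw [Finset.filter_filter, Finset.filter_filter]
    have : (F.filter fun a => w ∈ a.1 ∧ U a < U e) = F.filter fun a => U a < U e ∧ w ∈ a.1 := by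
      ext a
      simp only [Finset.mem_filter]
      tauto
    rw [this]
  rw [Finset.sum_congr rfl fun w _ => h1 w]
  simp only [Finset.card_filter]
  rw [Finset.sum_comm]

theorem card_run_le (k m : ℕ) {U : Edge n → ℝ} (hU : Function.Injective U) {F : Finset (Edge n)}
    (hF : IsRun (rule k m) U F) : F.card + (both k U F).card ≤ k * n := by
  classical
  have h1 := sum_min_deg k hU F
  have h2 : ∑ w : Fin n, min k (deg F w) ≤ k * n := by
    calc ∑ w : Fin n, min k (deg F w) ≤ ∑ _w : Fin n, k :=
          Finset.sum_le_sum fun w _ => min_le_left _ _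
      _ = k * n := by simp [mul_comm]
  have hsub : both k U F ⊆ F := by
    intro e he
    rw [both, Finset.mem_filter] at he
    exact (hF e).2 (Or.inl he.2)
  have h3 : F.card + (both k U F).card = ∑ e ∈ F, (1 + if e ∈ both k U F then 1 else 0) := by
    rw [Finset.sum_add_distrib, Finset.sum_const, smul_eq_mul, mul_one, ← Finset.card_filter]
    congr 2
    ext e
    rw [Finset.mem_filter]
    exact ⟨fun h => ⟨hsub h, h⟩, fun h => h.2⟩
  have h4 : ∑ e ∈ F, (1 + if e ∈ both k U F then 1 else 0) ≤ ∑ e ∈ F,
      (univ.filter fun w : Fin n => w ∈ e.1 ∧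
      deg (F.filter fun e' => U e' < U e) w < k).card := by
    refine Finset.sum_le_sum fun e he => ?_
    split_ifs with hb
    · have : (univ.filter fun w : Fin n => w ∈ e.1 ∧
          deg (F.filter fun e' => U e' < U e) w < k) = univ.filter fun w : Fin n => w ∈ e.1 := by
        rw [both, Finset.mem_filter] at hb
        ext w
        simp only [Finset.mem_filter, Finset.mem_univ, true_and]
        exact ⟨fun h => h.1, fun h => ⟨h, hb.2 w h⟩⟩
      rw [this, card_ends]
    · have hr := (hF e).1 he
      have hex : ∃ w ∈ e.1, deg (F.filter fun e' => U e' < U e) w < k := by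
        rcases hr with hr | hr
        · obtain ⟨e0, he0⟩ := e
          induction e0 with
          | _ a b => exact ⟨a, Sym2.mem_mk_left _ _, hr a (Sym2.mem_mk_left _ _)⟩
        · exact hr.2
      obtain ⟨w, hw1, hw2⟩ := hex
      rw [add_zero]
      exact Finset.card_pos.2 ⟨w, by simp only [Finset.mem_filter]; exact ⟨Finset.mem_univ _, hw1, hw2⟩⟩
  rw [h3]
  linarith

open Classical in
/-- the edges which are among the first `k` edges at one of their ends -/
noncomputable def nearU (k : ℕ) (U : Edge n → ℝ) : Finset (Edge n) :=
  univ.filter fun e => ∃ v ∈ e.1, (univ.filter fun e' : Edge n => v ∈ e'.1 ∧ U e' < U e).card < k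

open Classical in
/-- the edges which are among the first `k` edges at both ends -/
noncomputable def mutU (k : ℕ) (U : Edge n → ℝ) : Finset (Edge n) :=
  univ.filter fun e => ∀ v ∈ e.1, (univ.filter fun e' : Edge n => v ∈ e'.1 ∧ U e' < U e).card < k

theorem near_eq (k : ℕ) {σ : Ordering n} {U : Edge n → ℝ} (hU : StrictMono (U ∘ σ)) :
    near k σ = nearU k U := by
  classical
  unfold near nearU
  ext e
  simp only [Finset.mem_filter, Finset.mem_univ, true_and]
  simp only [lt_iff hU]

theorem card_near_add (k : ℕ) {U : Edge n → ℝ} (hU : Function.Injective U) (hn : k + 1 ≤ n) :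
    (nearU k U).card + (mutU k U).card = k * n := by
  classical
  have h1 := sum_min_deg k hU (univ : Finset (Edge n))
  have hdeg : ∀ (e : Edge n) (w : Fin n), deg ((univ : Finset (Edge n)).filter
      fun e' => U e' < U e) w = (univ.filter fun e' : Edge n => w ∈ e'.1 ∧ U e' < U e).card := by
    intro e w
    unfold deg
    rw [Finset.filter_filter]
    congr 1
    ext a
    simp only [Finset.mem_filter]
    tauto
  have h2 : ∑ w : Fin n, min k (deg (univ : Finset (Edge n)) w) = k * n := by
    have : ∀ w : Fin n, min k (deg (univ : Finset (Edge n)) w) = k := by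
      intro w
      unfold deg
      rw [card_at, min_eq_left (by omega)]
    rw [Finset.sum_congr rfl fun w _ => this w]
    simp [mul_comm]
  rw [h2] at h1
  rw [h1]
  simp only [hdeg]
  have h3 : (nearU k U).card + (mutU k U).card = ∑ e : Edge n,
      ((if e ∈ nearU k U then 1 else 0) + if e ∈ mutU k U then 1 else 0) := by
    rw [Finset.sum_add_distrib, ← Finset.card_filter, ← Finset.card_filter]
    congr 2
    · ext e; simp
    · ext e; simp
  rw [h3]
  refine Finset.sum_congr rfl fun e _ => ?_
  obtain ⟨e0, he0⟩ := e
  induction e0 with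
  | _ a b =>
    have hab : a ≠ b := by rwa [Sym2.mk_isDiag_iff] at he0
    have hset : (univ.filter fun w : Fin n => w ∈ s(a, b) ∧ (univ.filter fun e' : Edge n =>
        w ∈ e'.1 ∧ U e' < U ⟨s(a, b), he0⟩).card < k)
        = ({a, b} : Finset (Fin n)).filter fun w => (univ.filter fun e' : Edge n =>
        w ∈ e'.1 ∧ U e' < U ⟨s(a, b), he0⟩).card < k := by
      ext w
      simp only [Finset.mem_filter, Finset.mem_univ, true_and, Sym2.mem_iff, Finset.mem_insert,
        Finset.mem_singleton]
    rw [hset]
    simp only [nearU, mutU, Finset.mem_filter, Finset.mem_univ, true_and, Sym2.mem_iff,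
      Finset.filter_insert, Finset.filter_singleton, forall_eq_or_imp, forall_eq, exists_eq_or_imp,
      exists_eq_left]
    by_cases h1 : (univ.filter fun e' : Edge n => a ∈ e'.1 ∧ U e' < U ⟨s(a, b), he0⟩).card < k <;>
      by_cases h2 : (univ.filter fun e' : Edge n => b ∈ e'.1 ∧ U e' < U ⟨s(a, b), he0⟩).card < k <;>
      simp [h1, h2, hab]

end Pool.Agent.V7H95.Bgt
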