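import Pool.Agent.V7H95.Bgt.Near

/-!
# The mean number of edges of the nearest neighbour graph
-/

namespace Pool.Agent.V7H95.Bgt

open Finset MeasureTheory ProbabilityTheory
open scoped ENNReal Nat

set_option autoImplicit false

variable {n : ℕ}

theorem beta_nat (t : ℕ) : ∀ s : ℕ, ∫ x in (0 : ℝ)..1, x ^ s * (1 - x) ^ t =
    (s ! : ℝ) * t ! / (s + t + 1) ! := by
  induction t with
  | zero =>
    intro s
    simp only [pow_zero, mul_one, integral_pow, one_pow, ne_eq, Nat.add_eq_zero_iff, one_ne_zero,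
      and_false, not_false_eq_true, zero_pow, sub_zero, add_zero, Nat.factorial_zero,
      Nat.cast_one, Nat.factorial_succ, Nat.cast_mul, Nat.cast_add]
    have : (s ! : ℝ) ≠ 0 := by exact_mod_cast Nat.factorial_ne_zero s
    field_simp
  | succ t ih =>
    intro s
    have hd : ∀ x ∈ Set.uIcc (0 : ℝ) 1, HasDerivAt (fun x : ℝ => x ^ (s + 1) * (1 - x) ^ (t + 1))
        ((s + 1) * (x ^ s * (1 - x) ^ (t + 1)) - (t + 1) * (x ^ (s + 1) * (1 - x) ^ t)) x := by
      intro x _
      have h1 : HasDerivAt (fun x : ℝ => x ^ (s + 1)) ((s + 1) * x ^ s) x := by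
        have := hasDerivAt_pow (s + 1) x
        simpa using this
      have h2 : HasDerivAt (fun x : ℝ => (1 - x) ^ (t + 1)) (-((t + 1) * (1 - x) ^ t)) x := by
        have h3 : HasDerivAt (fun x : ℝ => 1 - x) (-1) x := by
          simpa using (hasDerivAt_id x).const_sub 1
        have := h3.pow (t + 1)
        convert! this using 1
        push_cast
        simp
      convert! h1.mul h2 using 1
      ring
    have hc1 : Continuous fun x : ℝ => x ^ s * (1 - x) ^ (t + 1) := by fun_prop
    have hc2 : Continuous fun x : ℝ => x ^ (s + 1) * (1 - x) ^ t := by fun_prop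
    have key := intervalIntegral.integral_eq_sub_of_hasDerivAt hd
      (((hc1.const_mul _).sub (hc2.const_mul _)).intervalIntegrable _ _)
    rw [intervalIntegral.integral_sub ((hc1.const_mul _).intervalIntegrable _ _)
      ((hc2.const_mul _).intervalIntegrable _ _), intervalIntegral.integral_const_mul,
      intervalIntegral.integral_const_mul, ih (s + 1)] at key
    simp only [sub_self, ne_eq, Nat.add_eq_zero_iff, one_ne_zero, and_false, not_false_eq_true,
      zero_pow, mul_zero, zero_mul] at key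
    have hs : ((s : ℝ) + 1) ≠ 0 := by positivity
    have h4 : ∫ x in (0 : ℝ)..1, x ^ s * (1 - x) ^ (t + 1) =
        (t + 1) * (((s + 1) ! : ℝ) * t ! / (s + 1 + t + 1) !) / (s + 1) := by
      rw [eq_div_iff hs]
      linarith
    rw [h4]
    have h5 : s + 1 + t + 1 = s + (t + 1) + 1 := by ring
    rw [h5, Nat.factorial_succ s, Nat.factorial_succ t]
    push_cast
    field_simp

open Classical in
/-- resampling a label -/
theorem mp_update (e : Edge n) : MeasurePreserving
    (fun p : ℝ × (Edge n → ℝ) => Function.update p.2 e p.1) (nu.prod (mu n)) (mu n) := by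
  have hm : Measurable (fun p : ℝ × (Edge n → ℝ) => Function.update p.2 e p.1) := by
    rw [measurable_pi_iff]
    intro e'
    by_cases h : e' = e
    · subst h
      simp only [Function.update_self]
      exact measurable_fst
    · have h2 : (fun p : ℝ × (Edge n → ℝ) => Function.update p.2 e p.1 e') = fun p => p.2 e' := by
        funext U
        rw [Function.update_of_ne h]
      rw [h2]
      exact (measurable_pi_apply e').comp measurable_snd
  refine ⟨hm, ?_⟩
  symm
  unfold mu
  refine Measure.pi_eq fun s hs => ?_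
  rw [Measure.map_apply hm (MeasurableSet.univ_pi hs)]
  have hset : (fun p : ℝ × (Edge n → ℝ) => Function.update p.2 e p.1) ⁻¹' Set.univ.pi s =
      s e ×ˢ Set.univ.pi (Function.update s e Set.univ) := by
    ext p
    simp only [Set.mem_preimage, Set.mem_pi, Set.mem_univ, true_implies, Set.mem_prod]
    constructor
    · intro h
      refine ⟨by simpa using h e, fun i => ?_⟩
      by_cases hi : i = e
      · subst hi
        simp
      · have := h i
        rw [Function.update_of_ne hi] at this ⊢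
        exact this
    · rintro ⟨h1, h2⟩ i
      by_cases hi : i = e
      · subst hi
        simpa using h1
      · have := h2 i
        rw [Function.update_of_ne hi] at this ⊢
        exact this
  rw [hset, Measure.prod_prod, Measure.pi_pi]
  rw [← Finset.mul_prod_erase univ (fun i => nu (s i)) (Finset.mem_univ e),
    ← Finset.mul_prod_erase univ (fun i => nu (Function.update s e Set.univ i))
      (Finset.mem_univ e)]
  rw [Function.update_self, measure_univ, one_mul]
  congr 1
  refine Finset.prod_congr rfl fun i hi => ?_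
  rw [Function.update_of_ne (Finset.ne_of_mem_erase hi)]

theorem nu_Iio {x : ℝ} (h0 : 0 ≤ x) (h1 : x ≤ 1) : nu.real (Set.Iio x) = x := by
  have : nu.real (Set.Iio x) = nu.real (Set.Iic x) := by
    rw [Measure.real, Measure.real]
    congr 1
    refine measure_congr ?_
    exact Iio_ae_eq_Iic
  rw [this, nu_Iic h0 h1]

theorem nu_Ici {x : ℝ} (h0 : 0 ≤ x) (h1 : x ≤ 1) : nu.real (Set.Ici x) = 1 - x := by
  have : nu.real (Set.Ici x) = nu.real (Set.Iio x)ᶜ := by rw [Set.compl_Iio]
  rw [this, probReal_compl_eq_one_sub measurableSet_Iio, nu_Iio h0 h1]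

theorem disj_IioIci (x : ℝ) : Disjoint (Set.Iio x) (Set.Ici x) := by
  rw [Set.disjoint_left]
  intro y h1 h2
  exact absurd (Set.mem_Iio.1 h1) (not_lt.2 (Set.mem_Ici.1 h2))

open Classical in
theorem mut_update (k : ℕ) (u v : Fin n) (huv : u ≠ v) (x : ℝ) :
    (mu n).real {U : Edge n → ℝ | (⟨s(u, v), by rw [Sym2.mk_isDiag_iff]; exact huv⟩ : Edge n) ∈
      mutU k (Function.update U ⟨s(u, v), by rw [Sym2.mk_isDiag_iff]; exact huv⟩ x)} =
    gk k (n - 2) (nu.real (Set.Iio x)) (nu.real (Set.Ici x)) ^ 2 := by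
  set e0 : Edge n := ⟨s(u, v), by rw [Sym2.mk_isDiag_iff]; exact huv⟩ with he0
  set Fu : Finset (Edge n) := (univ.filter fun e : Edge n => u ∈ e.1).erase e0 with hFu
  set Fv : Finset (Edge n) := (univ.filter fun e : Edge n => v ∈ e.1).erase e0 with hFv
  have hcu : Fu.card = n - 2 := by
    rw [hFu, Finset.card_erase_of_mem, card_at]
    · omega
    · rw [Finset.mem_filter]
      exact ⟨Finset.mem_univ _, Sym2.mem_mk_left _ _⟩
  have hcv : Fv.card = n - 2 := by
    rw [hFv, Finset.card_erase_of_mem, card_at]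
    · omega
    · rw [Finset.mem_filter]
      exact ⟨Finset.mem_univ _, Sym2.mem_mk_right _ _⟩
  have hd : Disjoint Fu Fv := by
    rw [Finset.disjoint_left]
    intro e he he'
    rw [hFu, Finset.mem_erase, Finset.mem_filter] at he
    rw [hFv, Finset.mem_erase, Finset.mem_filter] at he'
    apply he.1
    apply Subtype.ext
    exact (Sym2.mem_and_mem_iff huv).1 ⟨he.2.2, he'.2.2⟩
  have hrk : ∀ (w : Fin n) (U : Edge n → ℝ), rk (Function.update U e0 x) w e0 =
      (((univ.filter fun e : Edge n => w ∈ e.1).erase e0).filter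
        fun e => U e ∈ Set.Iio x).card := by
    intro w U
    unfold rk
    congr 1
    ext e
    simp only [Finset.mem_filter, Finset.mem_univ, true_and, Finset.mem_erase, Set.mem_Iio,
      Function.update_self]
    by_cases h : e = e0
    · subst h
      rw [Function.update_self]
      simp
    · rw [Function.update_of_ne h]
      tauto
  have hset : {U : Edge n → ℝ | e0 ∈ mutU k (Function.update U e0 x)} =
      {U : Edge n → ℝ | Few k Fu (Set.Iio x) (Set.Ici x) U} ∩
        {U : Edge n → ℝ | Few k Fv (Set.Iio x) (Set.Ici x) U} := by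
    ext U
    simp only [Set.mem_ofPred_eq, mem_mutU, Set.mem_inter_iff, Few]
    have hall : ∀ F : Finset (Edge n), ∀ e ∈ F, U e ∈ Set.Iio x ∪ Set.Ici x := by
      intro F e _
      rw [Set.Iio_union_Ici]
      exact Set.mem_univ _
    constructor
    · intro h
      refine ⟨⟨hall _, ?_⟩, ⟨hall _, ?_⟩⟩
      · have := h u (Sym2.mem_mk_left _ _)
        rw [hrk] at this
        convert! this
      · have := h v (Sym2.mem_mk_right _ _)
        rw [hrk] at this
        convert! this
    · rintro ⟨⟨_, h1⟩, ⟨_, h2⟩⟩ w hw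
      rw [hrk]
      rcases Sym2.mem_iff.1 hw with rfl | rfl
      · convert! h1
      · convert! h2
  rw [hset, few_inter k Fu Fv hd (disj_IioIci x) measurableSet_Iio measurableSet_Ici, hcu, hcv, sq]

theorem mut_prob (k : ℕ) (e : Edge n) : (mu n).real {U | e ∈ mutU k U} =
    ∫ x in (0 : ℝ)..1, gk k (n - 2) x (1 - x) ^ 2 := by
  classical
  obtain ⟨e0, he0⟩ := e
  induction e0 with
  | _ u v =>
    have huv : u ≠ v := by rwa [Sym2.mk_isDiag_iff] at he0
    set e : Edge n := ⟨s(u, v), he0⟩ with he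
    have hmp := mp_update e
    have h1 := hmp.measure_preimage (meas_mut k e).nullMeasurableSet
    have hms : MeasurableSet ((fun p : ℝ × (Edge n → ℝ) => Function.update p.2 e p.1) ⁻¹'
        {U | e ∈ mutU k U}) := hmp.measurable (meas_mut k e)
    rw [Measure.prod_apply hms] at h1
    have h2 : ∀ x : ℝ, (mu n) (Prod.mk x ⁻¹' ((fun p : ℝ × (Edge n → ℝ) =>
        Function.update p.2 e p.1) ⁻¹' {U | e ∈ mutU k U})) =
        ENNReal.ofReal (gk k (n - 2) (nu.real (Set.Iio x)) (nu.real (Set.Ici x)) ^ 2) := by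
      intro x
      have h3 := mut_update k u v huv x
      rw [← h3, ofReal_measureReal]
      rfl
    simp only [h2] at h1
    have hcont : Continuous fun x : ℝ => gk k (n - 2) x (1 - x) ^ 2 := by
      unfold gk
      fun_prop
    have h4 : ∫⁻ x, ENNReal.ofReal (gk k (n - 2) (nu.real (Set.Iio x))
        (nu.real (Set.Ici x)) ^ 2) ∂nu =
        ∫⁻ x in Set.Icc (0 : ℝ) 1, ENNReal.ofReal (gk k (n - 2) x (1 - x) ^ 2) := by
      unfold nu
      refine setLIntegral_congr_fun measurableSet_Icc ?_
      intro x hx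
      have e1 := nu_Iio hx.1 hx.2
      have e2 := nu_Ici hx.1 hx.2
      unfold nu at e1 e2
      simp only [e1, e2]
    rw [h4] at h1
    rw [Measure.real, ← h1, intervalIntegral.integral_of_le zero_le_one,
      ← integral_Icc_eq_integral_Ioc, integral_eq_lintegral_of_nonneg_ae]
    · exact ae_of_all _ fun x => sq_nonneg _
    · exact hcont.aestronglyMeasurable

/-- the mean, exactly -/
theorem mut_sum (k M : ℕ) (hk : k ≤ M + 1) : ∫ x in (0 : ℝ)..1, gk k M x (1 - x) ^ 2 =
    ∑ i ∈ range k, ∑ j ∈ range k, (M.choose i : ℝ) * M.choose j *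
      (((i + j) ! : ℝ) * (2 * M - (i + j)) ! / (2 * M + 1) !) := by
  have h1 : ∀ x : ℝ, gk k M x (1 - x) ^ 2 = ∑ i ∈ range k, ∑ j ∈ range k,
      (M.choose i : ℝ) * M.choose j * (x ^ (i + j) * (1 - x) ^ (2 * M - (i + j))) := by
    intro x
    unfold gk
    rw [sq, Finset.sum_mul_sum]
    refine Finset.sum_congr rfl fun i hi => Finset.sum_congr rfl fun j hj => ?_
    rw [Finset.mem_range] at hi hj
    have h2 : 2 * M - (i + j) = (M - i) + (M - j) := by omega
    rw [h2, pow_add, pow_add]
    ring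
  simp only [h1]
  rw [intervalIntegral.integral_finsetSum]
  · refine Finset.sum_congr rfl fun i hi => ?_
    rw [intervalIntegral.integral_finsetSum]
    · refine Finset.sum_congr rfl fun j hj => ?_
      rw [Finset.mem_range] at hi hj
      rw [intervalIntegral.integral_const_mul, beta_nat]
      have h3 : i + j + (2 * M - (i + j)) + 1 = 2 * M + 1 := by omega
      rw [h3]
    · intro j _
      refine Continuous.intervalIntegrable ?_ _ _
      fun_prop
  · intro i _
    refine Continuous.intervalIntegrable ?_ _ _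
    fun_prop

open Filter Topology

theorem desc_lim (i : ℕ) : Tendsto (fun M : ℕ => (M.descFactorial i : ℝ) / (M : ℝ) ^ i) atTop
    (𝓝 1) := by
  induction i with
  | zero => simp
  | succ i ih =>
    have h1 : Tendsto (fun M : ℕ => 1 - (i : ℝ) / M) atTop (𝓝 (1 - 0)) :=
      tendsto_const_nhds.sub (tendsto_const_div_atTop_nhds_zero_nat (i : ℝ))
    rw [sub_zero] at h1
    have h2 := h1.mul ih
    rw [one_mul] at h2
    refine h2.congr' ?_
    filter_upwards [eventually_ge_atTop (i + 1)] with M hM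
    have hM0 : (M : ℝ) ≠ 0 := by
      have : 0 < M := by omega
      positivity
    rw [Nat.descFactorial_succ, Nat.cast_mul, Nat.cast_sub (by omega), pow_succ]
    field_simp

theorem desc_lim2 (i : ℕ) : Tendsto (fun M : ℕ => ((2 * M).descFactorial i : ℝ) /
    (2 * M : ℝ) ^ i) atTop (𝓝 1) := by
  have h : Tendsto (fun M : ℕ => 2 * M) atTop atTop :=
    tendsto_id.const_mul_atTop' (by norm_num)
  have := (desc_lim i).comp h
  refine this.congr fun M => ?_
  simp only [Function.comp]
  push_cast
  rfl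

/-- one term of the mean -/
theorem term_eq (M i j : ℕ) (hi : i ≤ M) (hj : j ≤ M) (hM : 0 < M) :
    ((M : ℝ) + 1) / 2 * ((M.choose i : ℝ) * M.choose j *
      (((i + j) ! : ℝ) * (2 * M - (i + j)) ! / (2 * M + 1) !)) =
    ((M : ℝ) + 1) / (2 * (2 * M + 1)) * (((M.descFactorial i : ℝ) / (M : ℝ) ^ i) *
      ((M.descFactorial j : ℝ) / (M : ℝ) ^ j) /
      (((2 * M).descFactorial (i + j) : ℝ) / (2 * M : ℝ) ^ (i + j))) *
      (((i + j).choose i : ℝ) / 2 ^ (i + j)) := by
  have hM' : (M : ℝ) ≠ 0 := by positivity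
  have h1 : (M.choose i : ℝ) = (M.descFactorial i : ℝ) / i ! := by
    rw [eq_div_iff (by positivity)]
    have := Nat.descFactorial_eq_factorial_mul_choose M i
    rw [this]
    push_cast
    ring
  have h2 : (M.choose j : ℝ) = (M.descFactorial j : ℝ) / j ! := by
    rw [eq_div_iff (by positivity)]
    have := Nat.descFactorial_eq_factorial_mul_choose M j
    rw [this]
    push_cast
    ring
  have h3 : ((2 * M - (i + j)) ! : ℝ) * ((2 * M).descFactorial (i + j) : ℝ) = (2 * M) ! := by
    have := Nat.factorial_mul_descFactorial (n := 2 * M) (k := i + j) (by omega)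
    exact_mod_cast this
  have h4 : ((2 * M + 1) ! : ℝ) = (2 * M + 1) * (2 * M) ! := by
    rw [Nat.factorial_succ]
    push_cast
    ring
  have h5 : (((i + j).choose i : ℕ) : ℝ) * i ! * j ! = (i + j) ! := by
    have h := Nat.add_choose_mul_factorial_mul_factorial i j
    rw [← Nat.choose_symm_add] at h
    exact_mod_cast h
  have hd : ((2 * M).descFactorial (i + j) : ℝ) ≠ 0 := by
    have : 0 < (2 * M).descFactorial (i + j) := Nat.descFactorial_pos.2 (by omega)
    positivity
  have hf1 : ((2 * M - (i + j)) ! : ℝ) ≠ 0 := by positivity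
  rw [h1, h2, h4, ← h3, ← h5]
  have hi' : (i ! : ℝ) ≠ 0 := by positivity
  have hj' : (j ! : ℝ) ≠ 0 := by positivity
  have h21 : (2 * (M : ℝ) + 1) ≠ 0 := by positivity
  rw [mul_pow, pow_add (M : ℝ) i j]
  field_simp

/-- the constant of Cooper and Frieze -/
noncomputable def oConst (k : ℕ) : ℝ :=
  k - 1 / 4 * ∑ i ∈ range k, ∑ j ∈ range k, ((i + j).choose i : ℝ) / 2 ^ (i + j)

theorem mut_mean_lim (k : ℕ) : Tendsto (fun n : ℕ => (∫ U, ((mutU k U).card : ℝ) ∂(mu n)) / n)
    atTop (𝓝 (1 / 4 * ∑ i ∈ range k, ∑ j ∈ range k, ((i + j).choose i : ℝ) / 2 ^ (i + j))) := by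
  rw [← tendsto_add_atTop_iff_nat 2]
  have h1 : ∀ i j : ℕ, Tendsto (fun M : ℕ => ((M : ℝ) + 1) / (2 * (2 * M + 1)) *
      (((M.descFactorial i : ℝ) / (M : ℝ) ^ i) *
      ((M.descFactorial j : ℝ) / (M : ℝ) ^ j) /
      (((2 * M).descFactorial (i + j) : ℝ) / (2 * M : ℝ) ^ (i + j))) *
      (((i + j).choose i : ℝ) / 2 ^ (i + j))) atTop
      (𝓝 (1 / 4 * (1 * 1 / 1) * (((i + j).choose i : ℝ) / 2 ^ (i + j)))) := by
    intro i j
    have h2 : Tendsto (fun M : ℕ => ((M : ℝ) + 1) / (2 * (2 * M + 1))) atTop (𝓝 (1 / 4)) := by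
      have h3 : Tendsto (fun M : ℕ => (1 + 1 / (M : ℝ)) / (2 * (2 + 1 / (M : ℝ)))) atTop
          (𝓝 ((1 + 0) / (2 * (2 + 0)))) := by
        refine Tendsto.div (tendsto_const_nhds.add tendsto_one_div_atTop_nhds_zero_nat)
          (Tendsto.const_mul _ (tendsto_const_nhds.add tendsto_one_div_atTop_nhds_zero_nat))
          (by norm_num)
      have h4 : ((1 : ℝ) + 0) / (2 * (2 + 0)) = 1 / 4 := by norm_num
      rw [h4] at h3
      refine h3.congr' ?_
      filter_upwards [eventually_gt_atTop 0] with M hM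
      have : (M : ℝ) ≠ 0 := by positivity
      field_simp
    exact (h2.mul (((desc_lim i).mul (desc_lim j)).div (desc_lim2 (i + j)) one_ne_zero)).mul_const _
  have h2 : Tendsto (fun M : ℕ => ∑ i ∈ range k, ∑ j ∈ range k, (((M : ℝ) + 1) /
      (2 * (2 * M + 1)) * (((M.descFactorial i : ℝ) / (M : ℝ) ^ i) *
      ((M.descFactorial j : ℝ) / (M : ℝ) ^ j) /
      (((2 * M).descFactorial (i + j) : ℝ) / (2 * M : ℝ) ^ (i + j))) *
      (((i + j).choose i : ℝ) / 2 ^ (i + j)))) atTop
      (𝓝 (∑ i ∈ range k, ∑ j ∈ range k,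
        (1 / 4 * (1 * 1 / 1) * (((i + j).choose i : ℝ) / 2 ^ (i + j))))) :=
    tendsto_finsetSum _ fun i _ => tendsto_finsetSum _ fun j _ => h1 i j
  have h3 : ∑ i ∈ range k, ∑ j ∈ range k,
        (1 / 4 * (1 * 1 / 1) * (((i + j).choose i : ℝ) / 2 ^ (i + j))) =
      1 / 4 * ∑ i ∈ range k, ∑ j ∈ range k, ((i + j).choose i : ℝ) / 2 ^ (i + j) := by
    rw [Finset.mul_sum]
    refine Finset.sum_congr rfl fun i _ => ?_
    rw [Finset.mul_sum]
    refine Finset.sum_congr rfl fun j _ => ?_
    ring
  rw [h3] at h2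
  refine h2.congr' ?_
  filter_upwards [eventually_gt_atTop k] with M hM
  rw [int_mut_card]
  simp only [mut_prob]
  rw [Finset.sum_const, Finset.card_univ, nsmul_eq_mul, Nat.add_sub_cancel,
    mut_sum k M (by omega)]
  have hcard : (Fintype.card (Edge (M + 2)) : ℝ) = ((M : ℝ) + 2) * ((M + 1) / 2) := by
    rw [Sym2.card_subtype_not_diag, Fintype.card_fin, Nat.cast_choose_two]
    push_cast
    ring
  rw [hcard]
  have hne : ((M + 2 : ℕ) : ℝ) = (M : ℝ) + 2 := by push_cast; ring
  rw [hne]
  have hM2 : (M : ℝ) + 2 ≠ 0 := by positivity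
  rw [mul_assoc, mul_div_cancel_left₀ _ hM2]
  rw [Finset.mul_sum]
  refine Finset.sum_congr rfl fun i hi => ?_
  rw [Finset.mul_sum]
  refine Finset.sum_congr rfl fun j hj => ?_
  rw [Finset.mem_range] at hi hj
  exact (term_eq M i j (by omega) (by omega) (by omega)).symm

theorem near_mean_lim (k : ℕ) : Tendsto (fun n : ℕ => (∫ U, ((nearU k U).card : ℝ) ∂(mu n)) / n)
    atTop (𝓝 (oConst k)) := by
  have h := (tendsto_const_nhds (x := (k : ℝ)) (f := (atTop : Filter ℕ))).sub (mut_mean_lim k)
  refine h.congr' ?_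
  filter_upwards [eventually_ge_atTop (k + 1)] with n hn
  have h1 := mean_add k hn
  have hn0 : (n : ℝ) ≠ 0 := by
    have : 0 < n := by omega
    positivity
  have h2 : ∫ U, ((nearU k U).card : ℝ) ∂(mu n) = k * n - ∫ U, ((mutU k U).card : ℝ) ∂(mu n) := by
    linarith
  rw [h2]
  field_simp

/-- the law of large numbers for the nearest neighbour graph, in the labels -/
theorem near_lln (k : ℕ) {ε : ℝ} (hε : 0 < ε) :
    Tendsto (fun n : ℕ => (mu n).real {U | ε * n ≤ |((nearU k U).card : ℝ) - oConst k * n|})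
      atTop (𝓝 0) := by
  have h1 : Tendsto (fun n : ℕ => (16 * k / ε ^ 2) / (n : ℝ)) atTop (𝓝 0) :=
    tendsto_const_div_atTop_nhds_zero_nat _
  have h2 : ∀ᶠ n : ℕ in atTop, |(∫ U, ((nearU k U).card : ℝ) ∂(mu n)) / n - oConst k| < ε / 2 := by
    have := near_mean_lim k
    rw [Metric.tendsto_nhds] at this
    exact this (ε / 2) (by linarith)
  refine squeeze_zero' (Eventually.of_forall fun n => measureReal_nonneg) ?_ h1
  filter_upwards [h2, eventually_ge_atTop (k + 1)] with n hn1 hn2
  have hn0 : (0 : ℝ) < n := by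
    have : 0 < n := by omega
    positivity
  have key := near_conc k hn2 (t := ε / 2 * n) (by positivity)
  have h3 : 4 * ((k : ℝ) * n) / (ε / 2 * n) ^ 2 = 16 * k / ε ^ 2 / n := by
    field_simp
    ring
  rw [h3] at key
  refine (measureReal_mono ?_).trans key
  intro U hU
  simp only [Set.mem_ofPred_eq] at hU ⊢
  have h4 : |(∫ V, ((nearU k V).card : ℝ) ∂(mu n)) - oConst k * n| ≤ ε / 2 * n := by
    have h5 : (∫ V, ((nearU k V).card : ℝ) ∂(mu n)) - oConst k * n =
        ((∫ V, ((nearU k V).card : ℝ) ∂(mu n)) / n - oConst k) * n := by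
      field_simp
    rw [h5, abs_mul, abs_of_pos hn0]
    exact mul_le_mul_of_nonneg_right hn1.le hn0.le
  have h6 := abs_sub_le ((nearU k U).card : ℝ) (∫ V, ((nearU k V).card : ℝ) ∂(mu n))
    (oConst k * n)
  linarith

end Pool.Agent.V7H95.Bgt
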