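import Pool.Agent.V7H95.Bgt.Deg

/-!
# Concentration of the number of edges of the nearest neighbour graph
-/

namespace Pool.Agent.V7H95.Bgt

open Finset MeasureTheory ProbabilityTheory
open scoped ENNReal

set_option autoImplicit false

variable {n : ℕ}

open Classical in
/-- Efron-Stein and Chebyshev; the effect of an edge has to be controlled almost surely -/
theorem conc_ae (n : ℕ) (f : (Edge n → ℝ) → ℝ) (hf : Measurable f) (C : ℝ)
    (hC : ∀ U, |f U| ≤ C) (D : ℝ) (A : Edge n → Set (Edge n → ℝ))
    (hA : ∀ e, MeasurableSet (A e)) (Gd : Set (Edge n → ℝ)) (hG : ∀ᵐ U ∂(mu n), U ∈ Gd)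
    (h0 : ∀ e, ∀ U ∈ Gd, U ∉ A e → f (Function.update U e 1) = f U)
    (h1 : ∀ e, ∀ U ∈ Gd, |f U - f (Function.update U e 1)| ≤ D) {t : ℝ} (ht : 0 < t) :
    (mu n).real {U | t ≤ |f U - ∫ V, f V ∂(mu n)|} ≤
      D ^ 2 * (∑ e : Edge n, (mu n).real (A e)) / t ^ 2 := by
  refine (cheb n f hf C hC ht).trans ?_
  refine div_le_div_of_nonneg_right ?_ (by positivity)
  refine (es_update n f hf C hC).trans ?_
  rw [Finset.mul_sum]
  refine Finset.sum_le_sum fun e _ => ?_
  have h2 : ∀ᵐ U ∂(mu n), (f U - f (Function.update U e 1)) ^ 2 ≤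
      (A e).indicator (fun _ => D ^ 2) U := by
    filter_upwards [hG] with U hUG
    by_cases hU : U ∈ A e
    · rw [Set.indicator_of_mem hU, ← sq_abs]
      exact pow_le_pow_left₀ (abs_nonneg _) (h1 e U hUG) 2
    · rw [Set.indicator_of_notMem hU, h0 e U hUG hU]
      simp
  calc ∫ U, (f U - f (Function.update U e 1)) ^ 2 ∂(mu n)
      ≤ ∫ U, (A e).indicator (fun _ => D ^ 2) U ∂(mu n) := by
        refine integral_mono_of_nonneg (ae_of_all _ fun U => sq_nonneg _) ?_ h2
        exact (integrable_const _).indicator (hA e)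
    _ = D ^ 2 * (mu n).real (A e) := by
        rw [integral_indicator (hA e), setIntegral_const, smul_eq_mul, mul_comm]

/-- almost surely all labels are at most `1` -/
theorem ae_le_one (n : ℕ) : ∀ᵐ U ∂(mu n), ∀ e : Edge n, U e ≤ 1 := by
  rw [ae_all_iff]
  intro e
  have h1 := mu_coord e (A := Set.Ioi (1 : ℝ)) measurableSet_Ioi
  rw [nu_Ioi zero_le_one le_rfl, sub_self] at h1
  rw [ae_iff]
  have h2 : {U : Edge n → ℝ | ¬ U e ≤ 1} = {U | U e ∈ Set.Ioi (1 : ℝ)} := by
    ext U
    simp
  rw [h2]
  rw [Measure.real, ENNReal.toReal_eq_zero_iff] at h1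
  exact h1.resolve_right (measure_ne_top _ _)

open Classical in
/-- the number of the earlier edges at `v` -/
noncomputable def rk (U : Edge n → ℝ) (v : Fin n) (e : Edge n) : ℕ :=
  (univ.filter fun e' : Edge n => v ∈ e'.1 ∧ U e' < U e).card

theorem mem_nearU {k : ℕ} {U : Edge n → ℝ} {e : Edge n} :
    e ∈ nearU k U ↔ ∃ v ∈ e.1, rk U v e < k := by
  classical
  unfold nearU rk
  simp only [Finset.mem_filter, Finset.mem_univ, true_and]

theorem mem_mutU {k : ℕ} {U : Edge n → ℝ} {e : Edge n} :
    e ∈ mutU k U ↔ ∀ v ∈ e.1, rk U v e < k := by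
  classical
  unfold mutU rk
  simp only [Finset.mem_filter, Finset.mem_univ, true_and]

open Classical in
/-- the number of the earlier edges at `v` which are different from `e` -/
noncomputable def rk' (U : Edge n → ℝ) (e : Edge n) (v : Fin n) (e1 : Edge n) : ℕ :=
  (univ.filter fun e' : Edge n => v ∈ e'.1 ∧ e' ≠ e ∧ U e' < U e1).card

open Classical in
theorem rk_update {U : Edge n → ℝ} (hU : ∀ e, U e ≤ 1) {e e1 : Edge n} (he : e1 ≠ e)
    (v : Fin n) : rk (Function.update U e 1) v e1 = rk' U e v e1 := by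
  unfold rk rk'
  congr 1
  ext x
  simp only [Finset.mem_filter, Finset.mem_univ, true_and]
  refine and_congr_right fun _ => ?_
  rw [Function.update_of_ne he]
  by_cases hx : x = e
  · subst hx
    rw [Function.update_self]
    constructor
    · intro h
      exact absurd h (not_lt.2 (hU e1))
    · intro h
      exact absurd rfl h.1
  · rw [Function.update_of_ne hx]
    exact ⟨fun h => ⟨hx, h⟩, fun h => h.2⟩

open Classical in
theorem rk'_le (U : Edge n → ℝ) (e : Edge n) (v : Fin n) (e1 : Edge n) :
    rk' U e v e1 ≤ rk U v e1 := by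
  unfold rk rk'
  refine Finset.card_le_card ?_
  intro x hx
  simp only [Finset.mem_filter, Finset.mem_univ, true_and] at hx ⊢
  exact ⟨hx.1, hx.2.2⟩

open Classical in
theorem rk_le_rk' (U : Edge n → ℝ) (e : Edge n) (v : Fin n) (e1 : Edge n) :
    rk U v e1 ≤ rk' U e v e1 + 1 := by
  unfold rk rk'
  have : (univ.filter fun e' : Edge n => v ∈ e'.1 ∧ U e' < U e1) ⊆
      insert e (univ.filter fun e' : Edge n => v ∈ e'.1 ∧ e' ≠ e ∧ U e' < U e1) := by
    intro x hx
    simp only [Finset.mem_filter, Finset.mem_univ, true_and, Finset.mem_insert] at hx ⊢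
    by_cases h : x = e
    · exact Or.inl h
    · exact Or.inr ⟨hx.1, h, hx.2⟩
  exact (Finset.card_le_card this).trans (Finset.card_insert_le _ _)

open Classical in
theorem rk_eq_rk' (U : Edge n → ℝ) (e : Edge n) (v : Fin n) (e1 : Edge n)
    (h : ¬ (v ∈ e.1 ∧ U e < U e1)) : rk U v e1 = rk' U e v e1 := by
  unfold rk rk'
  congr 1
  ext x
  simp only [Finset.mem_filter, Finset.mem_univ, true_and]
  constructor
  · rintro ⟨h1, h2⟩
    refine ⟨h1, ?_, h2⟩
    rintro rfl
    exact h ⟨h1, h2⟩
  · rintro ⟨h1, _, h2⟩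
    exact ⟨h1, h2⟩

open Classical in
theorem rk_self_le {U : Edge n → ℝ} (hU : ∀ e, U e ≤ 1) (e : Edge n)
    (v : Fin n) : rk U v e ≤ rk (Function.update U e 1) v e := by
  unfold rk
  refine Finset.card_le_card ?_
  intro x hx
  simp only [Finset.mem_filter, Finset.mem_univ, true_and] at hx ⊢
  refine ⟨hx.1, ?_⟩
  have hne : x ≠ e := by
    rintro rfl
    exact lt_irrefl _ hx.2
  rw [Function.update_of_ne hne, Function.update_self]
  exact lt_of_lt_of_le hx.2 (hU e)

open Classical in
theorem rk_mono {U : Edge n → ℝ} {v : Fin n} {e e1 : Edge n} (hv : v ∈ e.1) (h : U e < U e1) :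
    rk U v e < rk U v e1 := by
  unfold rk
  refine Finset.card_lt_card ?_
  rw [Finset.ssubset_iff_of_subset]
  · refine ⟨e, ?_, ?_⟩
    · simp only [Finset.mem_filter, Finset.mem_univ, true_and]
      exact ⟨hv, h⟩
    · simp only [Finset.mem_filter, Finset.mem_univ, true_and]
      rintro ⟨_, h1⟩
      exact lt_irrefl _ h1
  · intro x hx
    simp only [Finset.mem_filter, Finset.mem_univ, true_and] at hx ⊢
    exact ⟨hx.1, hx.2.trans h⟩

theorem near_update_eq {k : ℕ} {U : Edge n → ℝ} (hU : ∀ e, U e ≤ 1) (e : Edge n)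
    (he : e ∉ nearU k U) : nearU k (Function.update U e 1) = nearU k U := by
  classical
  rw [mem_nearU] at he
  push Not at he
  ext e1
  rw [mem_nearU, mem_nearU]
  by_cases h1 : e1 = e
  · subst h1
    constructor
    · rintro ⟨v, hv, h2⟩
      have := rk_self_le hU e1 v
      have := he v hv
      omega
    · rintro ⟨v, hv, h2⟩
      have := he v hv
      omega
  · constructor
    · rintro ⟨v, hv, h2⟩
      rw [rk_update hU h1] at h2
      refine ⟨v, hv, ?_⟩
      by_cases h3 : v ∈ e.1 ∧ U e < U e1
      · exfalso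
        have h4 := he v h3.1
        have h5 := rk_mono h3.1 h3.2
        have h6 := rk_le_rk' U e v e1
        omega
      · rw [rk_eq_rk' U e v e1 h3]
        exact h2
    · rintro ⟨v, hv, h2⟩
      refine ⟨v, hv, ?_⟩
      rw [rk_update hU h1]
      exact lt_of_le_of_lt (rk'_le U e v e1) h2

theorem near_update_diff {k : ℕ} {U : Edge n → ℝ} (hU : ∀ e, U e ≤ 1)
    (hinj : Function.Injective U) (e : Edge n) :
    |((nearU k U).card : ℝ) - (nearU k (Function.update U e 1)).card| ≤ 2 := by
  classical
  have h1 : (nearU k U).card ≤ (nearU k (Function.update U e 1)).card + 1 := by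
    have hsub : nearU k U ⊆ insert e (nearU k (Function.update U e 1)) := by
      intro e1 he1
      rw [Finset.mem_insert]
      by_cases h : e1 = e
      · exact Or.inl h
      · right
        rw [mem_nearU] at he1 ⊢
        obtain ⟨v, hv, h2⟩ := he1
        refine ⟨v, hv, ?_⟩
        rw [rk_update hU h]
        exact lt_of_le_of_lt (rk'_le U e v e1) h2
    exact (Finset.card_le_card hsub).trans (Finset.card_insert_le _ _)
  have h2 : (nearU k (Function.update U e 1)).card ≤ (nearU k U).card + 2 := by
    set X : Finset (Edge n) := univ.filter fun e1 => ∃ v, v ∈ e.1 ∧ v ∈ e1.1 ∧ rk U v e1 = k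
      with hX
    have hsub : nearU k (Function.update U e 1) ⊆ nearU k U ∪ X := by
      intro e1 he1
      rw [Finset.mem_union]
      by_cases hmem : e1 ∈ nearU k U
      · exact Or.inl hmem
      · right
        rw [mem_nearU] at he1 hmem
        push Not at hmem
        obtain ⟨v, hv, h2⟩ := he1
        have h3 := hmem v hv
        have hne : e1 ≠ e := by
          rintro rfl
          have := rk_self_le hU e1 v
          omega
        rw [rk_update hU hne] at h2
        have h4 := rk_le_rk' U e v e1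
        have h5 : v ∈ e.1 := by
          by_contra hcon
          have := rk_eq_rk' U e v e1 (fun h => hcon h.1)
          omega
        rw [hX, Finset.mem_filter]
        exact ⟨Finset.mem_univ _, v, h5, hv, by omega⟩
    have hXc : X.card ≤ 2 := by
      rw [← card_ends e]
      refine Finset.card_le_card_of_forall_subsingleton
        (fun (e1 : Edge n) (v : Fin n) => v ∈ e1.1 ∧ rk U v e1 = k) ?_ ?_
      · intro e1 he1
        rw [hX, Finset.mem_filter] at he1
        obtain ⟨_, v, h3, h4, h5⟩ := he1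
        exact ⟨v, Finset.mem_filter.2 ⟨Finset.mem_univ _, h3⟩, h4, h5⟩
      · intro v _ e1 he1 e2 he2
        obtain ⟨_, h3, h4⟩ := he1
        obtain ⟨_, h5, h6⟩ := he2
        rcases lt_trichotomy (U e1) (U e2) with h | h | h
        · have := rk_mono (U := U) h3 h
          omega
        · exact hinj h
        · have := rk_mono (U := U) h5 h
          omega
    have := (Finset.card_le_card hsub).trans (Finset.card_union_le _ _)
    omega
  rw [abs_le]
  constructor
  · have : ((nearU k (Function.update U e 1)).card : ℝ) ≤ (nearU k U).card + 2 := by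
      exact_mod_cast h2
    linarith
  · have : ((nearU k U).card : ℝ) ≤ (nearU k (Function.update U e 1)).card + 1 := by
      exact_mod_cast h1
    linarith

theorem meas_rk (k : ℕ) (v : Fin n) (e : Edge n) : MeasurableSet {U | rk U v e < k} := by
  classical
  have h1 := meas_count (fun (U : Edge n → ℝ) (e' : Edge n) => v ∈ e'.1 ∧ U e' < U e) (by
    intro s
    by_cases hs : v ∈ s.1
    · have : {U : Edge n → ℝ | v ∈ s.1 ∧ U s < U e} = {U | U s < U e} := by
        ext U
        simp [hs]
      rw [this]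
      exact measurableSet_lt (measurable_pi_apply s) (measurable_pi_apply e)
    · have : {U : Edge n → ℝ | v ∈ s.1 ∧ U s < U e} = ∅ := by
        ext U
        simp [hs]
      rw [this]
      exact MeasurableSet.empty)
  have h2 : {U : Edge n → ℝ | rk U v e < k} = (fun U : Edge n → ℝ =>
      ((univ.filter fun e' : Edge n => v ∈ e'.1 ∧ U e' < U e).card : ℝ)) ⁻¹' (Set.Iio (k : ℝ)) := by
    ext U
    simp only [rk, Set.mem_ofPred_eq, Set.mem_preimage, Set.mem_Iio, Nat.cast_lt]
  rw [h2]
  exact h1 measurableSet_Iio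

theorem meas_near (k : ℕ) (e : Edge n) : MeasurableSet {U | e ∈ nearU k U} := by
  have : {U : Edge n → ℝ | e ∈ nearU k U} = ⋃ (v : Fin n) (_ : v ∈ e.1), {U | rk U v e < k} := by
    ext U
    simp only [Set.mem_ofPred_eq, mem_nearU, Set.mem_iUnion, exists_prop]
  rw [this]
  exact MeasurableSet.iUnion fun v => MeasurableSet.iUnion fun _ => meas_rk k v e

theorem meas_mut (k : ℕ) (e : Edge n) : MeasurableSet {U | e ∈ mutU k U} := by
  have : {U : Edge n → ℝ | e ∈ mutU k U} = ⋂ (v : Fin n) (_ : v ∈ e.1), {U | rk U v e < k} := by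
    ext U
    simp only [Set.mem_ofPred_eq, mem_mutU, Set.mem_iInter]
  rw [this]
  exact MeasurableSet.iInter fun v => MeasurableSet.iInter fun _ => meas_rk k v e

open Classical in
theorem meas_near_card (k n : ℕ) : Measurable (fun U : Edge n → ℝ => ((nearU k U).card : ℝ)) := by
  have h := meas_count (fun (U : Edge n → ℝ) (e : Edge n) => e ∈ nearU k U) (meas_near k)
  have : (fun U : Edge n → ℝ => ((univ.filter fun e => e ∈ nearU k U).card : ℝ))
      = fun U => ((nearU k U).card : ℝ) := by
    funext U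
    congr 2
    ext e
    simp
  rwa [this] at h

open Classical in
theorem int_near_card (k n : ℕ) : ∫ U, ((nearU k U).card : ℝ) ∂(mu n) =
    ∑ e : Edge n, (mu n).real {U | e ∈ nearU k U} := by
  have h := int_count (fun (U : Edge n → ℝ) (e : Edge n) => e ∈ nearU k U) (meas_near k)
  rw [← h]
  refine integral_congr_ae (ae_of_all _ fun U => ?_)
  simp only
  congr 2
  ext e
  simp

open Classical in
theorem int_mut_card (k n : ℕ) : ∫ U, ((mutU k U).card : ℝ) ∂(mu n) =
    ∑ e : Edge n, (mu n).real {U | e ∈ mutU k U} := by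
  have h := int_count (fun (U : Edge n → ℝ) (e : Edge n) => e ∈ mutU k U) (meas_mut k)
  rw [← h]
  refine integral_congr_ae (ae_of_all _ fun U => ?_)
  simp only
  congr 2
  ext e
  simp

theorem near_bdd (k : ℕ) (U : Edge n → ℝ) : |((nearU k U).card : ℝ)| ≤ Fintype.card (Edge n) := by
  rw [abs_of_nonneg (Nat.cast_nonneg _)]
  exact_mod_cast Finset.card_le_univ _

theorem mut_bdd (k : ℕ) (U : Edge n → ℝ) : |((mutU k U).card : ℝ)| ≤ Fintype.card (Edge n) := by
  rw [abs_of_nonneg (Nat.cast_nonneg _)]
  exact_mod_cast Finset.card_le_univ _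

open Classical in
theorem meas_mut_card (k n : ℕ) : Measurable (fun U : Edge n → ℝ => ((mutU k U).card : ℝ)) := by
  have h := meas_count (fun (U : Edge n → ℝ) (e : Edge n) => e ∈ mutU k U) (meas_mut k)
  have : (fun U : Edge n → ℝ => ((univ.filter fun e => e ∈ mutU k U).card : ℝ))
      = fun U => ((mutU k U).card : ℝ) := by
    funext U
    congr 2
    ext e
    simp
  rwa [this] at h

/-- the means add up -/
theorem mean_add (k : ℕ) (hn : k + 1 ≤ n) : ∫ U, ((nearU k U).card : ℝ) ∂(mu n) +
    ∫ U, ((mutU k U).card : ℝ) ∂(mu n) = k * n := by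
  rw [← integral_add]
  · have : ∀ᵐ U ∂(mu n), ((nearU k U).card : ℝ) + ((mutU k U).card : ℝ) = k * n := by
      filter_upwards [ae_inj n] with U hU
      exact_mod_cast card_near_add k hU hn
    rw [integral_congr_ae this, integral_const]
    simp
  · exact Integrable.of_bound (meas_near_card k n).aestronglyMeasurable _
      (ae_of_all _ fun U => near_bdd k U)
  · exact Integrable.of_bound (meas_mut_card k n).aestronglyMeasurable _
      (ae_of_all _ fun U => mut_bdd k U)

theorem near_conc (k : ℕ) (hn : k + 1 ≤ n) {t : ℝ} (ht : 0 < t) :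
    (mu n).real {U | t ≤ |((nearU k U).card : ℝ) - ∫ V, ((nearU k V).card : ℝ) ∂(mu n)|} ≤
      4 * (k * n) / t ^ 2 := by
  have key := conc_ae n (fun U => ((nearU k U).card : ℝ)) (meas_near_card k n) _ (near_bdd k) 2
    (fun e => {U | e ∈ nearU k U}) (meas_near k)
    {U | Function.Injective U ∧ ∀ e, U e ≤ 1} (by
      filter_upwards [ae_inj n, ae_le_one n] with U h1 h2
      exact ⟨h1, h2⟩)
    (fun e U hU he => by
      rw [near_update_eq hU.2 e he])
    (fun e U hU => near_update_diff hU.2 hU.1 e) ht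
  refine key.trans ?_
  refine div_le_div_of_nonneg_right ?_ (by positivity)
  rw [← int_near_card]
  have h1 := mean_add k hn
  have h2 : 0 ≤ ∫ U, ((mutU k U).card : ℝ) ∂(mu n) := integral_nonneg fun U => Nat.cast_nonneg _
  linarith

end Pool.Agent.V7H95.Bgt
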