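import Pool.Agent.V7H95.Bgt.Mean

/-!
# Budget `(k/2 + ε) n`
-/

namespace Pool.Agent.V7H95.Bgt

open Finset MeasureTheory ProbabilityTheory Filter Topology
open scoped ENNReal Nat

set_option autoImplicit false

variable {n : ℕ}

open Classical in
/-- the number of edges bought never exceeds `k n - m` -/
theorem card_run_le' (k m : ℕ) (h2m : 2 * m ≤ k * n) {U : Edge n → ℝ}
    (hU : Function.Injective U) {F : Finset (Edge n)}
    (hF : IsRun (rule k m) U F) : F.card ≤ k * n - m := by
  have h1 := card_run_le k m hU hF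
  have h2 := card_rank_lt F U (hU.injOn) m
  have h3 : (F.filter fun e => (F.filter fun e' => U e' < U e).card < m).card
      ≤ (both k U F).card := by
    refine Finset.card_le_card ?_
    intro e he
    rw [Finset.mem_filter] at he
    rw [both, Finset.mem_filter]
    refine ⟨Finset.mem_univ _, ?_⟩
    rcases (hF e).1 he.1 with h | h
    · exact h
    · have := he.2
      have := h.1
      omega
  rw [h2] at h3
  rcases le_total m F.card with h | h
  · rw [min_eq_left h] at h3
    omega
  · omega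

theorem card_built_le' (k m : ℕ) (h2m : 2 * m ≤ k * n) (σ : Ordering n) (t : ℕ) :
    (built (rule k m) σ t).card ≤ k * n - m := by
  classical
  have hU : StrictMono ((fun e : Edge n => ((σ.symm e : ℕ) : ℝ)) ∘ σ) := by
    intro i j hij
    simp only [Function.comp, Equiv.symm_apply_apply, Nat.cast_lt]
    exact hij
  have hF := run_built (rule k m) hU
  refine le_trans ?_ (card_run_le' k m h2m (inj_of_mono hU) hF)
  rw [built_eq]
  exact Finset.card_filter_le _ _

/-- the sum of the degrees -/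
theorem sum_deg (F : Finset (Edge n)) : ∑ v : Fin n, deg F v = 2 * F.card := by
  classical
  unfold deg
  simp only [Finset.card_filter]
  rw [Finset.sum_comm]
  have : ∀ e ∈ F, ∑ v : Fin n, (if v ∈ e.1 then 1 else 0) = 2 := by
    intro e _
    rw [← Finset.card_filter, ← card_ends e]
  rw [Finset.sum_congr rfl this, Finset.sum_const, smul_eq_mul, mul_comm]

open Classical in
/-- if the graph of the low edges is dense, then many edges are bought early -/
theorem dense_bought {k m : ℕ} {U : Edge n → ℝ} {F : Finset (Edge n)}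
    (hF : IsRun (rule k m) U F) {p : ℝ}
    (hd : ∀ W : Finset (Fin n), m ≤ (univ.filter fun e : Edge n => (∀ v ∈ e.1, v ∈ W) ∧
      U e ≤ p).card ∨ 2 * m ≤ k * (n - W.card)) :
    m ≤ (F.filter fun e => U e ≤ p).card := by
  set B := F.filter fun e => U e ≤ p with hB
  set W : Finset (Fin n) := univ.filter fun v => deg B v < k with hW
  rcases hd W with h | h
  · refine h.trans (Finset.card_le_card ?_)
    intro e he
    rw [Finset.mem_filter] at he
    rw [hB, Finset.mem_filter]
    refine ⟨?_, he.2.2⟩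
    rw [hF e]
    left
    intro w hw
    have h1 := he.2.1 w hw
    rw [hW, Finset.mem_filter] at h1
    refine lt_of_le_of_lt (deg_mono ?_ w) h1.2
    intro x hx
    rw [Finset.mem_filter] at hx
    rw [hB, Finset.mem_filter]
    exact ⟨hx.1, (hx.2.trans_le he.2.2).le⟩
  · have h1 := sum_deg B
    have h2 : k * (n - W.card) ≤ ∑ v : Fin n, deg B v := by
      calc k * (n - W.card) = ∑ _v ∈ univ \ W, k := by
            rw [Finset.sum_const, Finset.card_sdiff_of_subset (Finset.subset_univ _),
              Finset.card_univ, Fintype.card_fin, smul_eq_mul, mul_comm]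
        _ ≤ ∑ v ∈ univ \ W, deg B v := by
            refine Finset.sum_le_sum fun v hv => ?_
            rw [Finset.mem_sdiff, hW, Finset.mem_filter] at hv
            by_contra hcon
            exact hv.2 ⟨Finset.mem_univ _, not_le.1 hcon⟩
        _ ≤ _ := Finset.sum_le_sum_of_subset (Finset.subset_univ _)
    omega

open Classical in
theorem det2 {k m : ℕ} (hn : k + 1 ≤ n) {σ : Ordering n} {U : Edge n → ℝ}
    (hU : StrictMono (U ∘ σ)) {p q : ℝ}
    (hd : ∀ W : Finset (Fin n), m ≤ (univ.filter fun e : Edge n => (∀ v ∈ e.1, v ∈ W) ∧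
      U e ≤ p).card ∨ 2 * m ≤ k * (n - W.card))
    (h3 : ∃ v : Fin n, (univ.filter fun e : Edge n => v ∈ e.1 ∧ U e ≤ q).card < k)
    (h4 : ∀ v : Fin n, (∀ e : Edge n, v ∈ e.1 → p < U e) ∨
      k ≤ (univ.filter fun e : Edge n => v ∈ e.1 ∧ p < U e ∧ U e ≤ q).card)
    (v : Fin n) : k ≤ deg (built (rule k m) σ (tau k σ)) v := by
  set F := built (rule k m) σ (n.choose 2) with hFdef
  have hF : IsRun (rule k m) U F := run_built _ hU
  have hbuilt : built (rule k m) σ (tau k σ) = F ∩ shown σ (tau k σ) := by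
    rw [built_eq]
    ext e
    simp only [shown, Finset.mem_filter, Finset.mem_inter, Finset.mem_univ, true_and, hFdef]
  rw [hbuilt]
  have htau : ∀ v : Fin n, k ≤ deg (shown σ (tau k σ)) v := by
    have hne : {t : ℕ | ∀ v : Fin n, k ≤ deg (shown σ t) v}.Nonempty := by
      refine ⟨n.choose 2, fun v => ?_⟩
      have : shown σ (n.choose 2) = univ := by
        unfold shown
        rw [Finset.filter_true_of_mem]
        intro e _
        exact (σ.symm e).2
      rw [this]
      unfold deg
      rw [card_at]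
      omega
    exact Nat.sInf_mem hne
  refine success hF (dense_bought hF hd) h3 h4 _ ?_ htau v
  intro e he e' hee
  simp only [shown, Finset.mem_filter, Finset.mem_univ, true_and] at he ⊢
  rw [lt_iff hU] at hee
  omega

/-! ### The graph of the low edges is dense -/

theorem gk_le (t N : ℕ) {p : ℝ} (h0 : 0 ≤ p) (h1 : p ≤ 1) :
    gk t N p (1 - p) ≤ Real.exp t * Real.exp (-(N * p / 2)) := by
  have he : (2 : ℝ) ≤ Real.exp 1 := by
    have := Real.add_one_le_exp (1 : ℝ)
    linarith
  have hepos := Real.exp_pos 1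
  have h2 : gk t N p (1 - p) ≤ Real.exp t * (p / Real.exp 1 + (1 - p)) ^ N := by
    unfold gk
    rw [add_pow, Finset.mul_sum]
    have h3 : ∀ j ∈ range t, (N.choose j : ℝ) * (p ^ j * (1 - p) ^ (N - j)) ≤
        Real.exp t * ((p / Real.exp 1) ^ j * (1 - p) ^ (N - j) * (N.choose j)) := by
      intro j hj
      rw [Finset.mem_range] at hj
      have h4 : p ^ j = Real.exp j * (p / Real.exp 1) ^ j := by
        rw [div_pow, ← Real.exp_nat_mul, mul_one]
        field_simp
      rw [h4]
      have h5 : Real.exp j ≤ Real.exp t := by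
        rw [Real.exp_le_exp]
        exact_mod_cast hj.le
      have h6 : (0 : ℝ) ≤ (p / Real.exp 1) ^ j * (1 - p) ^ (N - j) * (N.choose j) := by
        have : (0 : ℝ) ≤ 1 - p := by linarith
        positivity
      calc (N.choose j : ℝ) * (Real.exp j * (p / Real.exp 1) ^ j * (1 - p) ^ (N - j))
          = Real.exp j * ((p / Real.exp 1) ^ j * (1 - p) ^ (N - j) * (N.choose j)) := by ring
        _ ≤ _ := mul_le_mul_of_nonneg_right h5 h6
    refine (Finset.sum_le_sum h3).trans ?_
    have h7 : ∀ j, (0 : ℝ) ≤ Real.exp t * ((p / Real.exp 1) ^ j * (1 - p) ^ (N - j) *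
        (N.choose j)) := by
      intro j
      have : (0 : ℝ) ≤ 1 - p := by linarith
      positivity
    rcases le_total t (N + 1) with h8 | h8
    · exact Finset.sum_le_sum_of_subset_of_nonneg (Finset.range_subset_range.2 h8)
        (fun j _ _ => h7 j)
    · refine le_of_eq (Finset.sum_subset (Finset.range_subset_range.2 h8) ?_).symm
      intro j _ hj
      rw [Finset.mem_range, not_lt] at hj
      rw [Nat.choose_eq_zero_of_lt (by omega)]
      simp
  refine h2.trans (mul_le_mul_of_nonneg_left ?_ (Real.exp_pos _).le)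
  have h3 : p / Real.exp 1 + (1 - p) ≤ Real.exp (-(p / 2)) := by
    have h4 : p / Real.exp 1 ≤ p / 2 := by
      exact div_le_div_of_nonneg_left h0 (by norm_num) he
    have h5 := Real.add_one_le_exp (-(p / 2))
    linarith
  have h6 : 0 ≤ p / Real.exp 1 + (1 - p) := by
    have : 0 ≤ p / Real.exp 1 := by positivity
    linarith
  calc (p / Real.exp 1 + (1 - p)) ^ N ≤ (Real.exp (-(p / 2))) ^ N := pow_le_pow_left₀ h6 h3 N
    _ = Real.exp (-(N * p / 2)) := by
        rw [← Real.exp_nat_mul]
        congr 1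
        ring

/-- the edges inside a set of vertices -/
theorem card_inside (W : Finset (Fin n)) :
    (univ.filter fun e : Edge n => ∀ v ∈ e.1, v ∈ W).card = W.card.choose 2 := by
  classical
  have h1 : (univ.filter fun e : Edge n => ∀ v ∈ e.1, v ∈ W).card =
      ((univ.filter fun e : Edge n => ∀ v ∈ e.1, v ∈ W).image Subtype.val).card :=
    (Finset.card_image_of_injective _ Subtype.val_injective).symm
  rw [h1, ← Sym2.card_image_offDiag]
  congr 1
  ext e
  induction e with
  | _ a b =>
    simp only [Finset.mem_image, Finset.mem_filter, Finset.mem_univ, true_and, Subtype.exists,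
      exists_and_right, exists_eq_right, Finset.mem_offDiag, Prod.exists, Sym2.mk_isDiag_iff]
    constructor
    · rintro ⟨hne, h⟩
      exact ⟨a, b, ⟨h a (Sym2.mem_mk_left _ _), h b (Sym2.mem_mk_right _ _), hne⟩, rfl⟩
    · rintro ⟨x, y, ⟨hx, hy, hxy⟩, h⟩
      have h' : s(x, y) = s(a, b) := h
      refine ⟨?_, ?_⟩
      · rw [← Sym2.mk_isDiag_iff, ← h', Sym2.mk_isDiag_iff]
        exact hxy
      · intro v hv
        rw [← h', Sym2.mem_iff] at hv
        rcases hv with rfl | rfl
        · exact hx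
        · exact hy

open Classical in
theorem dense_prob (n m w : ℕ) {p : ℝ} (h0 : 0 ≤ p) (h1 : p ≤ 1) :
    (mu n).real {U : Edge n → ℝ | ∃ W : Finset (Fin n), w ≤ W.card ∧
      (univ.filter fun e : Edge n => (∀ v ∈ e.1, v ∈ W) ∧ U e ≤ p).card < m} ≤
      2 ^ n * (Real.exp m * Real.exp (-(w.choose 2 * p / 2))) := by
  have hsub : {U : Edge n → ℝ | ∃ W : Finset (Fin n), w ≤ W.card ∧
      (univ.filter fun e : Edge n => (∀ v ∈ e.1, v ∈ W) ∧ U e ≤ p).card < m} ⊆
      ⋃ W ∈ (univ : Finset (Finset (Fin n))).filter (fun W => w ≤ W.card),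
        {U | Few m (univ.filter fun e : Edge n => ∀ v ∈ e.1, v ∈ W) (Set.Iic p) (Set.Ioi p) U} := by
    rintro U ⟨W, hW, h⟩
    refine Set.mem_iUnion₂.2 ⟨W, Finset.mem_filter.2 ⟨Finset.mem_univ _, hW⟩, ?_, ?_⟩
    · intro e _
      rw [Set.Iic_union_Ioi]
      exact Set.mem_univ _
    · refine lt_of_le_of_lt (Finset.card_le_card ?_) h
      intro e he
      simp only [Finset.mem_filter, Finset.mem_univ, true_and, Set.mem_Iic] at he ⊢
      exact he
  have hdis : Disjoint (Set.Iic p) (Set.Ioi p) := by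
    rw [Set.disjoint_left]
    intro x h1 h2
    exact absurd (Set.mem_Iic.1 h1) (not_le.2 (Set.mem_Ioi.1 h2))
  refine (measureReal_mono hsub (measure_ne_top _ _)).trans ?_
  refine (measureReal_biUnion_finset_le _ _).trans ?_
  have hone : ∀ W ∈ (univ : Finset (Finset (Fin n))).filter (fun W => w ≤ W.card),
      (mu n).real {U | Few m (univ.filter fun e : Edge n => ∀ v ∈ e.1, v ∈ W) (Set.Iic p)
        (Set.Ioi p) U} ≤ Real.exp m * Real.exp (-(w.choose 2 * p / 2)) := by
    intro W hW
    rw [few_prob m _ hdis measurableSet_Iic measurableSet_Ioi, nu_Iic h0 h1, nu_Ioi h0 h1,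
      card_inside]
    refine (gk_le m _ h0 h1).trans ?_
    refine mul_le_mul_of_nonneg_left ?_ (Real.exp_pos _).le
    rw [Real.exp_le_exp]
    have h2 : (w.choose 2 : ℝ) ≤ (W.card.choose 2 : ℝ) := by
      exact_mod_cast Nat.choose_le_choose 2 (Finset.mem_filter.1 hW).2
    have h3 := mul_le_mul_of_nonneg_right h2 h0
    linarith
  refine (Finset.sum_le_sum hone).trans ?_
  rw [Finset.sum_const, nsmul_eq_mul]
  refine mul_le_mul_of_nonneg_right ?_ (by positivity)
  have h2 : ((univ : Finset (Finset (Fin n))).filter (fun W => w ≤ W.card)).card ≤ 2 ^ n := by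
    refine (Finset.card_le_univ _).trans ?_
    rw [Fintype.card_finset, Fintype.card_fin]
  exact_mod_cast h2

/-! ### The last vertices -/

/-- independence of the events for disjoint sets of edges -/
theorem few_inter' (k : ℕ) (F F' : Finset (Edge n)) (hd : Disjoint F F') {X Y X' Y' : Set ℝ}
    (hXY : Disjoint X Y) (hX : MeasurableSet X) (hY : MeasurableSet Y)
    (hXY' : Disjoint X' Y') (hX' : MeasurableSet X') (hY' : MeasurableSet Y') :
    (mu n).real ({U : Edge n → ℝ | Few k F X Y U} ∩ {U : Edge n → ℝ | Few k F' X' Y' U}) =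
      gk k F.card (nu.real X) (nu.real Y) * gk k F'.card (nu.real X') (nu.real Y') := by
  classical
  set m : Edge n → MeasurableSpace (Edge n → ℝ) :=
    fun e => MeasurableSpace.comap (fun U : Edge n → ℝ => U e) inferInstance with hm
  have hle : ∀ e, m e ≤ MeasurableSpace.pi := fun e => (measurable_pi_apply e).comap_le
  have hind : iIndep m (mu n) := indep_coord n
  have h1 := indep_iSup_of_disjoint hle hind (S := (F : Set (Edge n)))
    (T := (F' : Set (Edge n))) (Finset.disjoint_coe.2 hd)
  have h2 : ∀ (G : Finset (Edge n)) {X Y : Set ℝ}, Disjoint X Y → MeasurableSet X →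
      MeasurableSet Y →
      MeasurableSet[⨆ i ∈ (G : Set (Edge n)), m i] {U : Edge n → ℝ | Few k G X Y U} := by
    intro G X Y hXY hX hY
    refine meas_few k G hXY hX hY _ ?_
    intro e he
    have h3 : m e ≤ ⨆ i ∈ (G : Set (Edge n)), m i :=
      le_iSup₂_of_le e (by exact he) le_rfl
    exact (comap_measurable (fun U : Edge n → ℝ => U e)).mono h3 le_rfl
  have h3 := (Indep_iff _ _ _).1 h1 _ _ (h2 F hXY hX hY) (h2 F' hXY' hX' hY')
  have h4 := congrArg ENNReal.toReal h3
  rw [ENNReal.toReal_mul] at h4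
  have h5 := few_prob k F hXY hX hY
  have h6 := few_prob k F' hXY' hX' hY'
  rw [Measure.real] at h5 h6
  rw [Measure.real, h4, h5, h6]

open Classical in
/-- `v` has a label at most `p` and fewer than `k` labels in `(p,q]` -/
def Bad (k : ℕ) (p q : ℝ) (v : Fin n) (U : Edge n → ℝ) : Prop :=
  ¬ ((∀ e : Edge n, v ∈ e.1 → p < U e) ∨
      k ≤ (univ.filter fun e : Edge n => v ∈ e.1 ∧ p < U e ∧ U e ≤ q).card)

open Classical in
theorem bad_few {k : ℕ} {p q : ℝ} {v : Fin n} {U : Edge n → ℝ} (h : Bad k p q v U) :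
    Few k (univ.filter fun e : Edge n => v ∈ e.1) (Set.Ioc p q) (Set.Ioc p q)ᶜ U := by
  unfold Bad at h
  push Not at h
  obtain ⟨_, hc⟩ := h
  refine ⟨?_, ?_⟩
  · intro e _
    by_cases h : U e ∈ Set.Ioc p q
    · exact Or.inl h
    · exact Or.inr h
  · refine lt_of_le_of_lt (Finset.card_le_card ?_) hc
    intro e' he'
    simp only [Finset.mem_filter, Finset.mem_univ, true_and] at he' ⊢
    exact ⟨he'.1, he'.2.1, he'.2.2⟩

open Classical in
theorem late_not_bad {k : ℕ} {p q : ℝ} (hpq : p ≤ q) {v : Fin n} {U : Edge n → ℝ}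
    (h : Late k p q v U) : ¬ Bad k p q v U := by
  intro hb
  apply hb
  left
  intro e he
  rcases h.1 e (Finset.mem_filter.2 ⟨Finset.mem_univ _, he⟩) with h1 | h1
  · exact h1.1
  · exact lt_of_le_of_lt hpq h1

theorem meas_bad (k : ℕ) (p q : ℝ) (v : Fin n) : MeasurableSet {U | Bad k p q v U} := by
  classical
  have h1 : MeasurableSet {U : Edge n → ℝ | ∀ e : Edge n, v ∈ e.1 → p < U e} := by
    have : {U : Edge n → ℝ | ∀ e : Edge n, v ∈ e.1 → p < U e} =
        ⋂ (e : Edge n) (_ : v ∈ e.1), {U | p < U e} := by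
      ext U
      simp only [Set.mem_ofPred_eq, Set.mem_iInter]
    rw [this]
    exact MeasurableSet.iInter fun e => MeasurableSet.iInter fun _ =>
      measurable_pi_apply e measurableSet_Ioi
  have h2 := meas_count (fun (U : Edge n → ℝ) (e' : Edge n) => v ∈ e'.1 ∧ p < U e' ∧ U e' ≤ q) (by
    intro s
    by_cases hs : v ∈ s.1
    · have : {U : Edge n → ℝ | v ∈ s.1 ∧ p < U s ∧ U s ≤ q} = {U | U s ∈ Set.Ioc p q} := by
        ext U
        simp [hs]
      rw [this]
      exact measurable_pi_apply s measurableSet_Ioc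
    · have : {U : Edge n → ℝ | v ∈ s.1 ∧ p < U s ∧ U s ≤ q} = ∅ := by
        ext U
        simp [hs]
      rw [this]
      exact MeasurableSet.empty)
  have h3 : {U : Edge n → ℝ | k ≤ (univ.filter fun e : Edge n => v ∈ e.1 ∧ p < U e ∧
      U e ≤ q).card} = (fun U : Edge n → ℝ =>
      ((univ.filter fun e' : Edge n => v ∈ e'.1 ∧ p < U e' ∧ U e' ≤ q).card : ℝ)) ⁻¹'
        (Set.Ici (k : ℝ)) := by
    ext U
    simp only [Set.mem_ofPred_eq, Set.mem_preimage, Set.mem_Ici, Nat.cast_le]
  have h4 : {U : Edge n → ℝ | Bad k p q v U} =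
      ({U : Edge n → ℝ | ∀ e : Edge n, v ∈ e.1 → p < U e} ∪ {U : Edge n → ℝ |
      k ≤ (univ.filter fun e : Edge n => v ∈ e.1 ∧ p < U e ∧ U e ≤ q).card})ᶜ := by
    ext U
    simp only [Bad, Set.mem_ofPred_eq, Set.mem_compl_iff, Set.mem_union]
  rw [h4, h3]
  exact (h1.union (h2 measurableSet_Ici)).compl

open Classical in
theorem late_bad_pair (k : ℕ) (hn : 2 ≤ n) {p q : ℝ} (h0 : 0 ≤ p) (h1 : p ≤ q) (h2 : q < 1)
    (u v : Fin n) :
    (mu n).real {U | Late k p q u U ∧ Bad k p q v U} ≤
      gk k (n - 2) (q - p) (1 - q) ^ 2 * Real.exp (n * (p / (1 - q))) := by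
  have hy : (0 : ℝ) < 1 - q := by linarith
  have hx : (0 : ℝ) ≤ q - p := by linarith
  by_cases huv : u = v
  · subst huv
    have : {U : Edge n → ℝ | Late k p q u U ∧ Bad k p q u U} = ∅ := by
      ext U
      simp only [Set.mem_ofPred_eq, Set.mem_empty_iff_false, iff_false]
      rintro ⟨h3, h4⟩
      exact late_not_bad h1 h3 h4
    rw [this, measureReal_empty]
    positivity
  · set e0 : Edge n := ⟨s(u, v), by rw [Sym2.mk_isDiag_iff]; exact huv⟩ with he0
    set Fu : Finset (Edge n) := (univ.filter fun e : Edge n => u ∈ e.1).erase e0 with hFu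
    set Fv : Finset (Edge n) := (univ.filter fun e : Edge n => v ∈ e.1).erase e0 with hFv
    have hcu : Fu.card = n - 2 := by
      rw [hFu, Finset.card_erase_of_mem, card_at]
      · omega
      · rw [Finset.mem_filter]
        exact ⟨Finset.mem_univ _, Sym2.mem_mk_left _ _⟩
    have hcv : Fv.card = n - 2 := by
      rw [hFv, Finset.card_erase_of_mem, card_at]
      · omega
      · rw [Finset.mem_filter]
        exact ⟨Finset.mem_univ _, Sym2.mem_mk_right _ _⟩
    have hd : Disjoint Fu Fv := by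
      rw [Finset.disjoint_left]
      intro e he he'
      rw [hFu, Finset.mem_erase, Finset.mem_filter] at he
      rw [hFv, Finset.mem_erase, Finset.mem_filter] at he'
      apply he.1
      apply Subtype.ext
      exact (Sym2.mem_and_mem_iff huv).1 ⟨he.2.2, he'.2.2⟩
    have hsub : {U | Late k p q u U ∧ Bad k p q v U} ⊆
        {U : Edge n → ℝ | Few k Fu (Set.Ioc p q) (Set.Ioi q) U} ∩
          {U : Edge n → ℝ | Few k Fv (Set.Ioc p q) (Set.Ioc p q)ᶜ U} := by
      rintro U ⟨h3, h4⟩
      exact ⟨few_mono (Finset.erase_subset _ _) h3,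
        few_mono (Finset.erase_subset _ _) (bad_few h4)⟩
    have hZn : nu.real (Set.Ioc p q)ᶜ = (1 - q) + p := by
      rw [probReal_compl_eq_one_sub measurableSet_Ioc, nu_Ioc h0 h1 h2.le]
      ring
    refine (measureReal_mono hsub).trans ?_
    rw [few_inter' k Fu Fv hd (disj_IocIoi p q) measurableSet_Ioc measurableSet_Ioi
      disjoint_compl_right measurableSet_Ioc measurableSet_Ioc.compl, hcu, hcv,
      nu_Ioc h0 h1 h2.le, nu_Ioi (h0.trans h1) h2.le, hZn]
    have h3 := gk_le_exp k (n - 2) (x := q - p) (y := 1 - q) (z := p) hx hy h0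
    have h4 : Real.exp ((n - 2 : ℕ) * (p / (1 - q))) ≤ Real.exp (n * (p / (1 - q))) := by
      rw [Real.exp_le_exp]
      refine mul_le_mul_of_nonneg_right ?_ (by positivity)
      exact_mod_cast Nat.sub_le n 2
    have h5 := gk_nonneg k (n - 2) (x := q - p) (y := 1 - q) hx hy.le
    calc gk k (n - 2) (q - p) (1 - q) * gk k (n - 2) (q - p) (1 - q + p)
        ≤ gk k (n - 2) (q - p) (1 - q) * (gk k (n - 2) (q - p) (1 - q) *
          Real.exp (n * (p / (1 - q)))) :=
          mul_le_mul_of_nonneg_left (h3.trans (mul_le_mul_of_nonneg_left h4 h5)) h5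
      _ = _ := by ring

open Classical in
/-- with probability bounded below there is a late vertex and no bad vertex -/
theorem late_no_bad (k : ℕ) (hn : 2 ≤ n) {p q M : ℝ} (h0 : 0 ≤ p) (h1 : p ≤ q) (h2 : q < 1)
    (hMe : n * gk k (n - 1) (q - p) (1 - q) = M) :
    M - (M / (1 - q)) ^ 2 * (1 + Real.exp (n * (p / (1 - q)))) ≤
      (mu n).real {U | (∃ v : Fin n, Late k p q v U) ∧ ∀ v : Fin n, ¬ Bad k p q v U} := by
  have hy : (0 : ℝ) < 1 - q := by linarith
  have hx : (0 : ℝ) ≤ q - p := by linarith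
  set E : Set (Edge n → ℝ) := {U | (∃ v : Fin n, Late k p q v U) ∧ ∀ v : Fin n,
    ¬ Bad k p q v U} with hE
  set f0 : (Edge n → ℝ) → ℝ := fun U => ((univ.filter fun v : Fin n => Late k p q v U).card : ℝ)
    with hf0
  set f1 : (Edge n → ℝ) → ℝ := fun U => ((univ.filter fun uv : Fin n × Fin n =>
    uv.1 ≠ uv.2 ∧ Late k p q uv.1 U ∧ Late k p q uv.2 U).card : ℝ) with hf1
  set f2 : (Edge n → ℝ) → ℝ := fun U => ((univ.filter fun uv : Fin n × Fin n =>
    Late k p q uv.1 U ∧ Bad k p q uv.2 U).card : ℝ) with hf2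
  have hm1 : ∀ uv : Fin n × Fin n, MeasurableSet {U : Edge n → ℝ | uv.1 ≠ uv.2 ∧
      Late k p q uv.1 U ∧ Late k p q uv.2 U} := by
    intro uv
    by_cases h : uv.1 = uv.2
    · have : {U : Edge n → ℝ | uv.1 ≠ uv.2 ∧ Late k p q uv.1 U ∧ Late k p q uv.2 U} = ∅ := by
        ext U
        simp [h]
      rw [this]
      exact MeasurableSet.empty
    · have : {U : Edge n → ℝ | uv.1 ≠ uv.2 ∧ Late k p q uv.1 U ∧ Late k p q uv.2 U} =
          {U | Late k p q uv.1 U} ∩ {U | Late k p q uv.2 U} := by
        ext U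
        simp [h]
      rw [this]
      exact (meas_late k p q uv.1).inter (meas_late k p q uv.2)
  have hm2 : ∀ uv : Fin n × Fin n, MeasurableSet {U : Edge n → ℝ |
      Late k p q uv.1 U ∧ Bad k p q uv.2 U} := fun uv =>
    (meas_late k p q uv.1).inter (meas_bad k p q uv.2)
  have hf0m : Measurable f0 := meas_count (fun U v => Late k p q v U) (meas_late k p q)
  have hf1m : Measurable f1 := meas_count (fun U (uv : Fin n × Fin n) =>
    uv.1 ≠ uv.2 ∧ Late k p q uv.1 U ∧ Late k p q uv.2 U) hm1
  have hf2m : Measurable f2 := meas_count (fun U (uv : Fin n × Fin n) =>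
    Late k p q uv.1 U ∧ Bad k p q uv.2 U) hm2
  have hi0 : ∫ U, f0 U ∂(mu n) = M := by
    rw [hf0, int_count (fun U v => Late k p q v U) (meas_late k p q)]
    simp only [late_prob k h0 h1 h2.le]
    rw [Finset.sum_const, Finset.card_univ, Fintype.card_fin, nsmul_eq_mul, hMe]
  have h6 := gk_succ k (n - 2) (x := q - p) (y := 1 - q) hx hy.le (by linarith)
  have h7 : n - 2 + 1 = n - 1 := by omega
  rw [h7] at h6
  have h8 : (n : ℝ) * gk k (n - 2) (q - p) (1 - q) ≤ M / (1 - q) := by
    rw [le_div_iff₀ hy, ← hMe]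
    calc (n : ℝ) * gk k (n - 2) (q - p) (1 - q) * (1 - q)
        = n * ((1 - q) * gk k (n - 2) (q - p) (1 - q)) := by ring
      _ ≤ _ := mul_le_mul_of_nonneg_left h6 (Nat.cast_nonneg _)
  have h9 : (0 : ℝ) ≤ n * gk k (n - 2) (q - p) (1 - q) :=
    mul_nonneg (Nat.cast_nonneg _) (gk_nonneg _ _ hx hy.le)
  have h10 : ((n * n : ℕ) : ℝ) * gk k (n - 2) (q - p) (1 - q) ^ 2 ≤ (M / (1 - q)) ^ 2 := by
    calc ((n * n : ℕ) : ℝ) * gk k (n - 2) (q - p) (1 - q) ^ 2
        = (n * gk k (n - 2) (q - p) (1 - q)) ^ 2 := by push_cast; ring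
      _ ≤ _ := pow_le_pow_left₀ h9 h8 2
  have hi1 : ∫ U, f1 U ∂(mu n) ≤ (M / (1 - q)) ^ 2 := by
    rw [hf1, int_count (fun U (uv : Fin n × Fin n) =>
      uv.1 ≠ uv.2 ∧ Late k p q uv.1 U ∧ Late k p q uv.2 U) hm1]
    refine le_trans (Finset.sum_le_sum (g := fun _ => gk k (n - 2) (q - p) (1 - q) ^ 2) ?_) ?_
    · rintro ⟨u, v⟩ _
      by_cases huv : u = v
      · have : {U : Edge n → ℝ | (u, v).1 ≠ (u, v).2 ∧ Late k p q (u, v).1 U ∧
            Late k p q (u, v).2 U} = ∅ := by
          ext U
          simp [huv]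
        rw [this, measureReal_empty]
        positivity
      · refine le_trans (measureReal_mono ?_) (late_pair k hn h0 h1 h2.le huv)
        rintro U ⟨_, h⟩
        exact h
    · rw [Finset.sum_const, Finset.card_univ, Fintype.card_prod, Fintype.card_fin, nsmul_eq_mul]
      exact h10
  have hi2 : ∫ U, f2 U ∂(mu n) ≤ (M / (1 - q)) ^ 2 * Real.exp (n * (p / (1 - q))) := by
    rw [hf2, int_count (fun U (uv : Fin n × Fin n) =>
      Late k p q uv.1 U ∧ Bad k p q uv.2 U) hm2]
    refine le_trans (Finset.sum_le_sum fun uv _ => late_bad_pair k hn h0 h1 h2 uv.1 uv.2) ?_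
    rw [Finset.sum_const, Finset.card_univ, Fintype.card_prod, Fintype.card_fin, nsmul_eq_mul,
      ← mul_assoc]
    exact mul_le_mul_of_nonneg_right h10 (Real.exp_pos _).le
  have hbd : ∀ (f : (Edge n → ℝ) → ℝ) (C : ℝ), Measurable f → (∀ U, |f U| ≤ C) →
      Integrable f (mu n) := by
    intro f C hm hC
    exact Integrable.of_bound hm.aestronglyMeasurable C (ae_of_all _ fun U => hC U)
  have hI0 : Integrable f0 (mu n) := by
    refine hbd f0 (Fintype.card (Fin n)) hf0m fun U => ?_
    simp only [hf0]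
    rw [abs_of_nonneg (Nat.cast_nonneg _)]
    exact_mod_cast Finset.card_le_univ _
  have hI1 : Integrable f1 (mu n) := by
    refine hbd f1 (Fintype.card (Fin n × Fin n)) hf1m fun U => ?_
    simp only [hf1]
    rw [abs_of_nonneg (Nat.cast_nonneg _)]
    exact_mod_cast Finset.card_le_univ _
  have hI2 : Integrable f2 (mu n) := by
    refine hbd f2 (Fintype.card (Fin n × Fin n)) hf2m fun U => ?_
    simp only [hf2]
    rw [abs_of_nonneg (Nat.cast_nonneg _)]
    exact_mod_cast Finset.card_le_univ _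
  have hEm : MeasurableSet E := by
    have : E = (⋃ v : Fin n, {U | Late k p q v U}) ∩ ⋂ v : Fin n, {U | Bad k p q v U}ᶜ := by
      ext U
      simp only [hE, Set.mem_ofPred_eq, Set.mem_inter_iff, Set.mem_iUnion, Set.mem_iInter,
        Set.mem_compl_iff]
    rw [this]
    exact (MeasurableSet.iUnion fun v => meas_late k p q v).inter
      (MeasurableSet.iInter fun v => (meas_bad k p q v).compl)
  have hpt : ∀ U, f0 U - f1 U - f2 U ≤ E.indicator (fun _ => (1 : ℝ)) U := by
    intro U
    set A := univ.filter fun v : Fin n => Late k p q v U with hA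
    set B := univ.filter fun v : Fin n => Bad k p q v U with hB
    have e1 : (univ.filter fun uv : Fin n × Fin n =>
        uv.1 ≠ uv.2 ∧ Late k p q uv.1 U ∧ Late k p q uv.2 U) = A.offDiag := by
      ext uv
      simp only [hA, Finset.mem_filter, Finset.mem_univ, true_and, Finset.mem_offDiag]
      tauto
    have e2 : (univ.filter fun uv : Fin n × Fin n =>
        Late k p q uv.1 U ∧ Bad k p q uv.2 U) = A ×ˢ B := by
      ext uv
      simp only [hA, hB, Finset.mem_filter, Finset.mem_univ, true_and, Finset.mem_product]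
    have e3 : f1 U = (A.card : ℝ) * A.card - A.card := by
      simp only [hf1]
      rw [e1, Finset.offDiag_card, Nat.cast_sub (Nat.le_mul_self _)]
      push_cast
      ring
    have e4 : f2 U = (A.card : ℝ) * B.card := by
      simp only [hf2]
      rw [e2, Finset.card_product]
      push_cast
      ring
    have e5 : f0 U = (A.card : ℝ) := rfl
    rw [e3, e4, e5]
    have hind : (0 : ℝ) ≤ E.indicator (fun _ => (1 : ℝ)) U :=
      Set.indicator_nonneg (fun _ _ => zero_le_one) U
    rcases Nat.eq_zero_or_pos A.card with hA0 | hA0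
    · rw [hA0]
      simpa using hind
    · have hA1 : (1 : ℝ) ≤ A.card := by exact_mod_cast hA0
      rcases Nat.eq_zero_or_pos B.card with hB0 | hB0
      · have hUE : U ∈ E := by
          refine ⟨?_, ?_⟩
          · obtain ⟨v, hv⟩ := Finset.card_pos.1 hA0
            exact ⟨v, (Finset.mem_filter.1 hv).2⟩
          · intro v hv
            have : v ∈ B := Finset.mem_filter.2 ⟨Finset.mem_univ _, hv⟩
            rw [Finset.card_eq_zero] at hB0
            rw [hB0] at this
            exact absurd this (Finset.notMem_empty v)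
        rw [Set.indicator_of_mem hUE, hB0]
        have := sq_nonneg ((A.card : ℝ) - 1)
        push_cast
        nlinarith
      · have hB1 : (1 : ℝ) ≤ B.card := by exact_mod_cast hB0
        nlinarith
  have hfin : ∫ U, (f0 U - f1 U - f2 U) ∂(mu n) ≤ (mu n).real E := by
    have : (mu n).real E = ∫ U, E.indicator (fun _ => (1 : ℝ)) U ∂(mu n) := by
      rw [integral_indicator hEm, setIntegral_const, smul_eq_mul, mul_one]
    rw [this]
    exact integral_mono ((hI0.sub hI1).sub hI2) ((integrable_const _).indicator hEm) hpt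
  have hsplit : ∫ U, (f0 U - f1 U - f2 U) ∂(mu n) =
      ∫ U, f0 U ∂(mu n) - ∫ U, f1 U ∂(mu n) - ∫ U, f2 U ∂(mu n) := by
    have i3 : Integrable (fun U => f0 U - f1 U) (mu n) := hI0.sub hI1
    rw [integral_sub i3 hI2, integral_sub hI0 hI1]
  rw [hsplit, hi0] at hfin
  have : (M / (1 - q)) ^ 2 * (1 + Real.exp (n * (p / (1 - q)))) =
      (M / (1 - q)) ^ 2 + (M / (1 - q)) ^ 2 * Real.exp (n * (p / (1 - q))) := by ring
  rw [this]
  linarith

end Pool.Agent.V7H95.Bgt
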