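import Pool.Agent.V7H95.Bgt.Sharp

/-!
# Budget `(k/2 + ε) n`: the asymptotics
-/

namespace Pool.Agent.V7H95.Bgt

open Finset MeasureTheory ProbabilityTheory Filter Topology
open scoped ENNReal Nat

set_option autoImplicit false

theorem exp_le_one_sub {x : ℝ} (h0 : 0 ≤ x) (h1 : x ≤ 1 / 2) : Real.exp (-(2 * x)) ≤ 1 - x := by
  rw [Real.exp_neg, inv_le_comm₀ (Real.exp_pos _) (by linarith)]
  have h2 := Real.add_one_le_exp (2 * x)
  refine le_trans ?_ h2
  rw [inv_le_iff_one_le_mul₀ (by linarith)]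
  nlinarith

theorem gk_lower {k : ℕ} (hk : 1 ≤ k) (N : ℕ) {y : ℝ} (hy : 0 ≤ y) :
    y ^ N ≤ gk k N 0 y := by
  unfold gk
  have h := Finset.single_le_sum (f := fun j => (N.choose j : ℝ) * ((0 : ℝ) ^ j * y ^ (N - j)))
    (fun j _ => by positivity) (Finset.mem_range.2 (show 0 < k by omega))
  simpa using h

theorem gk_upper (k N : ℕ) {x y : ℝ} (hx0 : 0 ≤ x) (hx1 : x ≤ 1) (hy0 : 0 ≤ y) (hy1 : y ≤ 1) :
    gk k N x y ≤ k * ((N + 1 : ℝ) ^ k * y ^ (N - k)) := by
  unfold gk
  have h1 : ∀ j ∈ range k, (N.choose j : ℝ) * (x ^ j * y ^ (N - j)) ≤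
      (N + 1 : ℝ) ^ k * y ^ (N - k) := by
    intro j hj
    rw [Finset.mem_range] at hj
    have h2 : (N.choose j : ℝ) ≤ (N + 1 : ℝ) ^ k := by
      have h3 : (N.choose j : ℝ) ≤ ((N ^ j : ℕ) : ℝ) := by exact_mod_cast Nat.choose_le_pow N j
      refine h3.trans ?_
      push_cast
      calc (N : ℝ) ^ j ≤ (N + 1 : ℝ) ^ j := pow_le_pow_left₀ (Nat.cast_nonneg _) (by linarith) j
        _ ≤ (N + 1 : ℝ) ^ k := pow_le_pow_right₀ (by
            have : (0 : ℝ) ≤ N := Nat.cast_nonneg _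
            linarith) hj.le
    have h4 : x ^ j * y ^ (N - j) ≤ y ^ (N - k) := by
      calc x ^ j * y ^ (N - j) ≤ 1 * y ^ (N - k) := by
            refine mul_le_mul (pow_le_one₀ hx0 hx1) ?_ (by positivity) zero_le_one
            exact pow_le_pow_of_le_one hy0 hy1 (by omega)
        _ = _ := one_mul _
    exact mul_le_mul h2 h4 (by positivity) (by positivity)
  refine (Finset.sum_le_sum h1).trans ?_
  rw [Finset.sum_const, Finset.card_range, nsmul_eq_mul]

theorem pow_exp_lim (k : ℕ) {y : ℝ} (hy0 : 0 < y) (hy1 : y < 1) :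
    Tendsto (fun n : ℕ => (n : ℝ) * (k * ((n : ℝ) ^ k * y ^ (n - 1 - k)))) atTop (𝓝 0) := by
  have h1 := tendsto_pow_const_mul_const_pow_of_abs_lt_one (k + 1) (r := y)
    (by rw [abs_of_pos hy0]; exact hy1)
  have h2 := h1.const_mul (k * (y ^ (k + 1))⁻¹)
  rw [mul_zero] at h2
  refine h2.congr' ?_
  filter_upwards [eventually_ge_atTop (k + 1)] with n hn
  have h3 : y ^ n = y ^ (n - 1 - k) * y ^ (k + 1) := by
    rw [← pow_add]
    congr 1
    omega
  rw [h3]
  have : y ^ (k + 1) ≠ 0 := by positivity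
  field_simp
  ring

/-- the choice of the time `q` -/
theorem exists_q {k : ℕ} (hk : 1 ≤ k) {M δ X : ℝ} (hM : 0 < M) (hδ0 : 0 < δ) (hδ1 : δ < 1)
    (hX : 0 < X) : ∀ᶠ n : ℕ in atTop, ∃ q : ℝ, X / n ≤ q ∧ q ≤ δ ∧
      n * gk k (n - 1) (q - X / n) (1 - q) = M := by
  have h1 : Tendsto (fun n : ℕ => X / (n : ℝ)) atTop (𝓝 0) :=
    tendsto_const_div_atTop_nhds_zero_nat X
  have h2 : ∀ᶠ n : ℕ in atTop, X / (n : ℝ) < min δ (1 / 2) :=
    h1.eventually_lt_const (by positivity)
  have h3 : ∀ᶠ n : ℕ in atTop, (n : ℝ) * (k * ((n : ℝ) ^ k * (1 - δ) ^ (n - 1 - k))) < M :=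
    (pow_exp_lim k (by linarith) (by linarith)).eventually_lt_const hM
  have h4 : ∀ᶠ n : ℕ in atTop, M / Real.exp (-(2 * X)) ≤ (n : ℝ) :=
    tendsto_natCast_atTop_atTop.eventually_ge_atTop _
  filter_upwards [h2, h3, h4, eventually_ge_atTop 1] with n hn2 hn3 hn4 hn5
  have hn0 : (0 : ℝ) < n := by exact_mod_cast hn5
  have hXn : 0 < X / n := by positivity
  have hXδ : X / n ≤ δ := (hn2.trans_le (min_le_left _ _)).le
  have hXh : X / n ≤ 1 / 2 := (hn2.trans_le (min_le_right _ _)).le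
  set G : ℝ → ℝ := fun q => n * gk k (n - 1) (q - X / n) (1 - q) with hG
  have hGc : ContinuousOn G (Set.Icc (X / n) δ) := by
    apply Continuous.continuousOn
    simp only [hG]
    unfold gk
    fun_prop
  have hGa : M ≤ G (X / n) := by
    simp only [hG]
    rw [sub_self]
    have h5 := gk_lower hk (n - 1) (y := 1 - X / n) (by linarith)
    have h6 : Real.exp (-(2 * X)) ≤ (1 - X / n) ^ (n - 1) := by
      calc Real.exp (-(2 * X)) = Real.exp (-(2 * (X / n))) ^ n := by
            rw [← Real.exp_nat_mul]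
            congr 1
            field_simp
        _ ≤ (1 - X / n) ^ n := pow_le_pow_left₀ (Real.exp_pos _).le
            (exp_le_one_sub hXn.le hXh) n
        _ ≤ (1 - X / n) ^ (n - 1) := pow_le_pow_of_le_one (by linarith) (by linarith)
            (Nat.sub_le _ _)
    rw [div_le_iff₀ (Real.exp_pos _)] at hn4
    calc M ≤ n * Real.exp (-(2 * X)) := hn4
      _ ≤ n * gk k (n - 1) 0 (1 - X / n) :=
        mul_le_mul_of_nonneg_left (h6.trans h5) hn0.le
  have hGb : G δ ≤ M := by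
    simp only [hG]
    have h5 := gk_upper k (n - 1) (x := δ - X / n) (y := 1 - δ) (by linarith) (by linarith)
      (by linarith) (by linarith)
    have h6 : (((n - 1 : ℕ) : ℝ) + 1) = n := by
      rw [Nat.cast_sub hn5]
      push_cast
      ring
    rw [h6] at h5
    exact (mul_le_mul_of_nonneg_left h5 hn0.le).trans hn3.le
  obtain ⟨q, hq, hqM⟩ := intermediate_value_Icc' hXδ hGc ⟨hGb, hGa⟩
  exact ⟨q, hq.1, hq.2, hqM⟩

/-- a late vertex has small degree -/
theorem late_deg {n k : ℕ} {p q : ℝ} {v : Fin n} {U : Edge n → ℝ}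
    (h : Late k p q v U) : (univ.filter fun e : Edge n => v ∈ e.1 ∧ U e ≤ q).card < k := by
  classical
  obtain ⟨h1, h2⟩ := h
  refine lt_of_le_of_lt (Finset.card_le_card ?_) h2
  intro e he
  simp only [Finset.mem_filter, Finset.mem_univ, true_and] at he ⊢
  refine ⟨he.1, ?_⟩
  rcases h1 e (Finset.mem_filter.2 ⟨Finset.mem_univ _, he.1⟩) with h3 | h3
  · exact h3
  · exact absurd he.2 (not_le.2 h3)

open Classical in
/-- the main estimate -/
theorem sharp_main {k : ℕ} (hk : 1 ≤ k) {ε : ℝ} (hε : 0 < ε) (hε1 : ε ≤ 1 / 4) :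
    ∃ c > 0, ∀ᶠ n : ℕ in atTop, c ≤ prob n (fun σ => ∀ v : Fin n,
      k ≤ deg (built (rule k ⌈((k : ℝ) / 2 - ε) * n⌉₊) σ (tau k σ)) v) := by
  have hk0 : (1 : ℝ) ≤ k := by exact_mod_cast hk
  set α : ℝ := ε / k with hα
  have hα0 : 0 < α := by positivity
  set X : ℝ := 8 * (k + 2) / α ^ 2 with hX
  have hX0 : 0 < X := by positivity
  set M : ℝ := Real.exp (-(2 * X)) / 16 with hM
  have hM0 : 0 < M := by positivity
  refine ⟨M / 4, by positivity, ?_⟩
  have hq := exists_q hk (M := M) (δ := 1 / 2) (X := X) hM0 (by norm_num) (by norm_num) hX0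
  have h1 : Tendsto (fun n : ℕ => (2 * Real.exp (-2)) ^ n) atTop (𝓝 0) := by
    refine tendsto_pow_atTop_nhds_zero_of_lt_one (by positivity) ?_
    have h2 : (3 : ℝ) ≤ Real.exp 2 := by
      have := Real.add_one_le_exp (2 : ℝ)
      linarith
    rw [Real.exp_neg]
    have h3 : (Real.exp 2)⁻¹ ≤ 1 / 3 := by
      rw [one_div]
      exact inv_anti₀ (by norm_num) h2
    linarith
  have h2 : ∀ᶠ n : ℕ in atTop, (2 * Real.exp (-2)) ^ n < M / 4 :=
    h1.eventually_lt_const (by positivity)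
  have h3 : ∀ᶠ n : ℕ in atTop, 2 / α ≤ (n : ℝ) :=
    tendsto_natCast_atTop_atTop.eventually_ge_atTop _
  have h4 : ∀ᶠ n : ℕ in atTop, X ≤ (n : ℝ) :=
    tendsto_natCast_atTop_atTop.eventually_ge_atTop _
  have h5 : ∀ᶠ n : ℕ in atTop, 2 / ε ≤ (n : ℝ) :=
    tendsto_natCast_atTop_atTop.eventually_ge_atTop _
  filter_upwards [hq, h2, h3, h4, h5, eventually_ge_atTop (k + 1)] with n hqn hn2 hn3 hn4 hn5 hnk
  obtain ⟨q, hq1, hq2, hqM⟩ := hqn
  have hn0 : (0 : ℝ) < n := by
    have : 0 < n := by omega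
    positivity
  set p : ℝ := X / n with hp
  have hp0 : 0 ≤ p := by positivity
  have hp1 : p ≤ 1 := by
    rw [hp, div_le_one hn0]
    exact hn4
  set m : ℕ := ⌈((k : ℝ) / 2 - ε) * n⌉₊ with hm
  have hmle : (m : ℝ) < ((k : ℝ) / 2 - ε) * n + 1 := by
    refine Nat.ceil_lt_add_one ?_
    have : (0 : ℝ) ≤ (k : ℝ) / 2 - ε := by linarith
    positivity
  rw [div_le_iff₀ hα0] at hn3
  rw [div_le_iff₀ hε] at hn5
  set w : ℕ := ⌈α * n⌉₊ with hw
  have hwge : α * n ≤ w := Nat.le_ceil _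
  have hwc : α ^ 2 * n ^ 2 / 4 ≤ (w.choose 2 : ℝ) := by
    rw [Nat.cast_choose_two]
    have h6 : α * n / 2 ≤ (w : ℝ) - 1 := by nlinarith
    have h7 : α * n * (α * n / 2) ≤ (w : ℝ) * (w - 1) :=
      mul_le_mul hwge h6 (by positivity) (by positivity)
    nlinarith
  -- the graph of the low edges is dense
  have hdense := dense_prob n m w hp0 hp1
  have hdb : 2 ^ n * (Real.exp m * Real.exp (-(w.choose 2 * p / 2))) ≤ M / 4 := by
    refine le_trans ?_ hn2.le
    have h6 : (m : ℝ) ≤ k * n := by nlinarith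
    have h7 : (k + 2 : ℝ) * n ≤ w.choose 2 * p / 2 := by
      have h8 : α ^ 2 * n ^ 2 / 4 * p / 2 = (k + 2 : ℝ) * n := by
        rw [hp, hX]
        field_simp
        ring
      rw [← h8]
      have := mul_le_mul_of_nonneg_right hwc hp0
      linarith
    rw [← Real.exp_add, mul_pow, ← Real.exp_nat_mul]
    refine mul_le_mul_of_nonneg_left ?_ (by positivity)
    rw [Real.exp_le_exp]
    linarith
  have hlate := late_no_bad k (n := n) (by omega) hp0 hq1 (lt_of_le_of_lt hq2 (by norm_num)) hqM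
  have hlb : M / 2 ≤ (mu n).real {U | (∃ v : Fin n, Late k p q v U) ∧ ∀ v : Fin n,
      ¬ Bad k p q v U} := by
    refine le_trans ?_ hlate
    have hy : (1 : ℝ) / 2 ≤ 1 - q := by linarith
    have hy0 : (0 : ℝ) < 1 - q := by linarith
    have h6 : M / (1 - q) ≤ 2 * M := by
      rw [div_le_iff₀ hy0]
      nlinarith
    have h7 : (n : ℝ) * (p / (1 - q)) ≤ 2 * X := by
      have h8 : (n : ℝ) * (p / (1 - q)) = X / (1 - q) := by
        rw [hp]
        field_simp
      rw [h8, div_le_iff₀ hy0]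
      nlinarith
    have h8 : Real.exp (n * (p / (1 - q))) ≤ Real.exp (2 * X) := Real.exp_le_exp.2 h7
    have h9 : (1 : ℝ) ≤ Real.exp (2 * X) := Real.one_le_exp (by positivity)
    have h10 : (M / (1 - q)) ^ 2 ≤ (2 * M) ^ 2 := pow_le_pow_left₀ (by positivity) h6 2
    have h11 : (M / (1 - q)) ^ 2 * (1 + Real.exp (n * (p / (1 - q)))) ≤
        (2 * M) ^ 2 * (2 * Real.exp (2 * X)) :=
      mul_le_mul h10 (by linarith) (by positivity) (by positivity)
    have h12 : (2 * M) ^ 2 * (2 * Real.exp (2 * X)) = M / 2 := by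
      have h13 : Real.exp (2 * X) * M = 1 / 16 := by
        rw [hM, Real.exp_neg]
        have := (Real.exp_pos (2 * X)).ne'
        field_simp
      calc (2 * M) ^ 2 * (2 * Real.exp (2 * X)) = 8 * M * (Real.exp (2 * X) * M) := by ring
        _ = M / 2 := by rw [h13]; ring
    linarith
  -- combine
  set E1 : Set (Edge n → ℝ) := {U | (∃ v : Fin n, Late k p q v U) ∧ ∀ v : Fin n,
      ¬ Bad k p q v U} with hE1
  set E2 : Set (Edge n → ℝ) := {U : Edge n → ℝ | ∃ W : Finset (Fin n), w ≤ W.card ∧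
      (univ.filter fun e : Edge n => (∀ v ∈ e.1, v ∈ W) ∧ U e ≤ p).card < m} with hE2
  have hdiff : M / 4 ≤ (mu n).real (E1 \ E2) := by
    have h6 : (mu n).real E1 ≤ (mu n).real (E1 \ E2) + (mu n).real E2 := by
      refine le_trans (measureReal_mono ?_) (measureReal_union_le _ _)
      intro U hU
      by_cases h : U ∈ E2
      · exact Or.inr h
      · exact Or.inl ⟨hU, h⟩
    linarith [hdense.trans hdb]
  refine hdiff.trans (bridge n _ _ ?_)
  rintro σ U hU ⟨⟨⟨v, hv⟩, hbad⟩, hE⟩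
  refine det2 hnk hU (p := p) (q := q) ?_ ⟨v, late_deg hv⟩ ?_
  · intro W
    by_cases hW : w ≤ W.card
    · left
      by_contra hcon
      exact hE ⟨W, hW, not_le.1 hcon⟩
    · right
      rw [not_le, hw, Nat.lt_ceil] at hW
      have hWn : W.card ≤ n := by
        have := Finset.card_le_univ W
        rwa [Fintype.card_fin] at this
      have h6 : (2 * m : ℝ) ≤ k * (n - W.card) := by
        have h7 : (k : ℝ) * W.card ≤ ε * n := by
          have : (k : ℝ) * W.card ≤ k * (α * n) :=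
            mul_le_mul_of_nonneg_left hW.le (by positivity)
          rw [hα] at this
          have h8 : (k : ℝ) * (ε / k * n) = ε * n := by field_simp
          linarith
        have e1 : ((k : ℝ) / 2 - ε) * n = k * n / 2 - ε * n := by ring
        have e2 : (k : ℝ) * (n - W.card) = k * n - k * W.card := by ring
        rw [e1] at hmle
        rw [e2]
        linarith
      have h7 : ((2 * m : ℕ) : ℝ) ≤ ((k * (n - W.card) : ℕ) : ℝ) := by
        rw [Nat.cast_mul, Nat.cast_mul, Nat.cast_sub hWn]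
        exact_mod_cast h6
      exact_mod_cast h7
  · intro v
    have := hbad v
    unfold Bad at this
    exact not_not.1 this

theorem built_false {n : ℕ} (σ : Ordering n) (t : ℕ) :
    built (fun _ _ => False : Rule n) σ t = ∅ := by
  induction t with
  | zero => rfl
  | succ t ih =>
    rw [built]
    by_cases h : t < n.choose 2
    · rw [dif_pos h, if_neg (by simp)]
      exact ih
    · rw [dif_neg h]
      exact ih

/-- For every `k ≥ 1` and `ε > 0` the budget `(k/2 + ε) n` suffices for success with probability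
bounded away from `0`. -/
theorem sharp {k : ℕ} (hk : 1 ≤ k) {ε : ℝ} (hε : 0 < ε) :
    ∃ c > 0, ∃ S : (n : ℕ) → Rule n,
      (∀ (n : ℕ) (σ : Ordering n) (t : ℕ), ((built (S n) σ t).card : ℝ) ≤ ((k : ℝ) / 2 + ε) * n) ∧
      ∀ᶠ n : ℕ in atTop, c ≤ prob n (fun σ => ∀ v : Fin n,
        k ≤ deg (built (S n) σ (tau k σ)) v) := by
  classical
  have hk0 : (1 : ℝ) ≤ k := by exact_mod_cast hk
  set ε1 : ℝ := min ε (1 / 4) with hε1
  have h0 : 0 < ε1 := by positivity
  have h1 : ε1 ≤ 1 / 4 := min_le_right _ _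
  have h2 : ε1 ≤ ε := min_le_left _ _
  obtain ⟨c, hc, hev⟩ := sharp_main hk h0 h1
  refine ⟨c, hc, fun n => if 1 / ε1 ≤ (n : ℝ) then rule k ⌈((k : ℝ) / 2 - ε1) * n⌉₊
    else fun _ _ => False, ?_, ?_⟩
  · intro n σ t
    by_cases hn : 1 / ε1 ≤ (n : ℝ)
    · simp only [if_pos hn]
      rw [div_le_iff₀ h0] at hn
      have hnn : (0 : ℝ) ≤ n := Nat.cast_nonneg _
      set m : ℕ := ⌈((k : ℝ) / 2 - ε1) * n⌉₊ with hm
      have hm1 : ((k : ℝ) / 2 - ε1) * n ≤ m := Nat.le_ceil _
      have hm2 : (m : ℝ) < ((k : ℝ) / 2 - ε1) * n + 1 := by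
        refine Nat.ceil_lt_add_one ?_
        have : (0 : ℝ) ≤ (k : ℝ) / 2 - ε1 := by linarith
        positivity
      have h2m : 2 * m ≤ k * n := by
        have : ((2 * m : ℕ) : ℝ) ≤ ((k * n : ℕ) : ℝ) := by
          push_cast
          nlinarith
        exact_mod_cast this
      have h3 := card_built_le' k m h2m σ t
      have h4 : (((built (rule k m) σ t).card : ℕ) : ℝ) ≤ ((k * n - m : ℕ) : ℝ) := by
        exact_mod_cast h3
      rw [Nat.cast_sub (by omega)] at h4
      push_cast at h4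
      nlinarith
    · simp only [if_neg hn]
      rw [built_false]
      simp only [Finset.card_empty, Nat.cast_zero]
      positivity
  · have h3 : ∀ᶠ n : ℕ in atTop, 1 / ε1 ≤ (n : ℝ) :=
      tendsto_natCast_atTop_atTop.eventually_ge_atTop _
    filter_upwards [hev, h3] with n hn1 hn2
    simp only [if_pos hn2]
    exact hn1

end Pool.Agent.V7H95.Bgt
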